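import Pool.Agent.J4.H44.OL.Bd

set_option autoImplicit false

/-! Correlations off the line and their spectral side. -/

namespace Pool.Agent.J4.H44.OL

open Complex MeasureTheory Filter Topology Set Pool.Agent.TH535.SM Pool.Agent.R446.KR
open scoped FourierTransform ComplexConjugate

noncomputable section

/-- the correlation of a decaying function -/
def Cr (F : ℝ → ℂ) (a : ℝ) : ℂ := ∫ t, F (t + a) * conj (F (t + -a))

lemma Cr_int {F : ℝ → ℂ} (hF : Dec F) (a : ℝ) : Integrable (fun t => F (t + a) * conj (F (t + -a))) := by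
  have h1 := (hF.shift a)
  have h2 := (hF.shift (-a))
  refine ((h1.sq.add h2.sq)).mono' ?_ (Eventually.of_forall fun t => ?_)
  · refine Continuous.aestronglyMeasurable ?_
    exact h1.1.mul (Complex.continuous_conj.comp h2.1)
  · rw [norm_mul, RCLike.norm_conj]
    simp only [Pi.add_apply]
    nlinarith [sq_nonneg (‖F (t + a)‖ - ‖F (t + -a)‖), sq_nonneg (‖F (t + a)‖), sq_nonneg ‖F (t + -a)‖]

lemma Cr_Sp {F : ℝ → ℂ} (hF : Dec F) (a κ : ℝ) : (cexp (κ * I) * Cr F a).re = Sp F a κ := by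
  have h1 := U_Sp hF a κ
  have i1 := (hF.shift a).sq
  have i2 := (hF.shift (-a)).sq
  have i3 : Integrable (fun t => (cexp (κ * I) * (F (t + a) * conj (F (t + -a)))).re) :=
    ((Cr_int hF a).const_mul _).re
  have e1 : ∫ t, ‖U a κ F t‖ ^ 2 = (∫ t, ‖F t‖ ^ 2) + (∫ t, ‖F t‖ ^ 2) + 2 * (cexp (κ * I) * Cr F a).re := by
    simp_rw [Uz_sq]
    rw [integral_add (iadd i1 i2) (i3.const_mul 2), integral_add i1 i2,
      integral_add_right_eq_self (μ := volume) (fun t : ℝ => ‖F t‖ ^ 2) a,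
      integral_add_right_eq_self (μ := volume) (fun t : ℝ => ‖F t‖ ^ 2) (-a), integral_const_mul]
    congr 2
    unfold Cr
    rw [← integral_const_mul]
    exact integral_re ((Cr_int hF a).const_mul _)
  rw [e1] at h1
  linarith

/-- the spectral side -/
def Rs (F : ℝ → ℂ) (a : ℝ) : ℂ := ∫ w, cexp ((4 * Real.pi * a * w : ℝ) * I) * ((‖𝓕 F w‖ ^ 2 : ℝ) : ℂ)

lemma Rs_int {F : ℝ → ℂ} (hF : Dec F) (a : ℝ) :
    Integrable (fun w => cexp ((4 * Real.pi * a * w : ℝ) * I) * ((‖𝓕 F w‖ ^ 2 : ℝ) : ℂ)) := by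
  refine ((planch hF).1).mono' ?_ (Eventually.of_forall fun w => ?_)
  · have := ft_cont hF
    refine Continuous.aestronglyMeasurable ?_
    fun_prop
  · rw [norm_mul, Complex.norm_exp_ofReal_mul_I, one_mul, Complex.norm_real,
      Real.norm_of_nonneg (by positivity)]

lemma Rs_Sp {F : ℝ → ℂ} (hF : Dec F) (a κ : ℝ) : (cexp (κ * I) * Rs F a).re = Sp F a κ := by
  unfold Rs Sp
  rw [← integral_const_mul]
  have h := integral_re ((Rs_int hF a).const_mul (cexp (κ * I)))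
  refine h.symm.trans ?_
  refine integral_congr_ae (Eventually.of_forall fun w => ?_)
  simp only [RCLike.re_eq_complex_re]
  rw [← mul_assoc, ← Complex.exp_add, mul_comm, Complex.re_ofReal_mul, mul_comm]
  congr 1
  have : (κ : ℂ) * I + (4 * Real.pi * a * w : ℝ) * I = ((4 * Real.pi * a * w + κ : ℝ) : ℂ) * I := by
    push_cast; ring
  rw [this, Complex.exp_ofReal_mul_I_re]

/-- Parseval for correlations -/
lemma Cr_eq {F : ℝ → ℂ} (hF : Dec F) (a : ℝ) : Cr F a = Rs F a := by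
  have h : ∀ κ : ℝ, (cexp (κ * I) * Cr F a).re = (cexp (κ * I) * Rs F a).re := fun κ => by
    rw [Cr_Sp hF, Rs_Sp hF]
  apply Complex.ext
  · have := h 0
    simpa using this
  · have := h (-(Real.pi / 2))
    have e : cexp ((-(Real.pi / 2) : ℝ) * I) = -I := by
      rw [Complex.ofReal_neg, neg_mul, Complex.exp_neg]
      push_cast
      rw [Complex.exp_pi_div_two_mul_I, Complex.inv_I]
    rw [e] at this
    simpa using this

/-- the error weight -/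
def Wr (T r t : ℝ) : ℝ := Wq T t + r ^ 2 * ind T t

lemma Wr_nonneg (T r t : ℝ) : 0 ≤ Wr T r t := by
  have := ind_nonneg T t
  have := Wq_nonneg T t
  unfold Wr; positivity

/-- pointwise comparison -/
lemma close_r (k : ℕ) {u : ℕ} : ∃ C : ℝ, 1 ≤ C ∧ ∀ T : ℝ, 1 ≤ T → ∀ r : ℝ, 0 ≤ r → r ≤ 1 / 4 →
    ∀ t a : ℝ, |a| ≤ 1 →
    ‖Fn (H k u) T r (t + a) - ind T t * zr k r (t + a)‖ ^ 2 ≤
      C * (Wr T r (t + a) * ‖zr k r (t + a)‖ ^ 2) := by
  obtain ⟨C1, hC1, h1⟩ := Gr_close k u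
  obtain ⟨D, hD, hv⟩ := v_poly 0
  set E : ℝ := 16 * Real.exp 10 ^ 2 with hE
  have hE0 : 0 ≤ E := by positivity
  refine ⟨4 * (4 + 2 + D * C1 ^ 2 + 2 * E), by nlinarith [sq_nonneg C1], fun T hT r hr0 hr t a ha => ?_⟩
  have hT0 : 0 ≤ T := by linarith
  obtain ⟨x, hx⟩ : ∃ x, x = t + a := ⟨_, rfl⟩
  have hd := ind_diff (T := T) (t := t) ha
  rw [← hx] at hd ⊢
  have eF : Fn (H k u) T r x = V T (((1 / 2 + r : ℝ) : ℂ) + x * I) * Gr k u r x := rfl
  rw [eF]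
  have hc : ‖Gr k u r x - zr k r x‖ ≤ C1 / (1 + |x|) * ‖zr k r x‖ := h1 r hr0 hr x
  have hg := Gr_le k u hr0 hr x
  have hV := V_close (T := T) (t := x) hT0 hr0 (by linarith : r ≤ 1)
  rw [← hE] at hV
  set Vx := V T (((1 / 2 + r : ℝ) : ℂ) + x * I) with hVx
  have e : Vx * Gr k u r x - (ind T t : ℂ) * zr k r x =
      ((((v T x - ind T x : ℝ) : ℂ) * zr k r x + ((ind T x - ind T t : ℝ) : ℂ) * zr k r x) +
        (v T x : ℂ) * (Gr k u r x - zr k r x)) + (Vx - (v T x : ℂ)) * Gr k u r x := by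
    push_cast; ring
  have hv0 := v_nonneg hT0 x
  have hn1 : ‖Vx * Gr k u r x - (ind T t : ℂ) * zr k r x‖ ≤
      |v T x - ind T x| * ‖zr k r x‖ + |ind T x - ind T t| * ‖zr k r x‖ +
        v T x * (C1 / (1 + |x|)) * ‖zr k r x‖ + ‖Vx - (v T x : ℂ)‖ * ‖zr k r x‖ := by
    rw [e]
    refine (norm_add_le _ _).trans (add_le_add ((norm_add_le _ _).trans (add_le_add
      ((norm_add_le _ _).trans (le_of_eq ?_)) ?_)) ?_)
    · rw [norm_mul, norm_mul, Complex.norm_real, Complex.norm_real, Real.norm_eq_abs,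
        Real.norm_eq_abs]
    · rw [norm_mul, Complex.norm_real, Real.norm_of_nonneg hv0, mul_assoc]
      gcongr
    · rw [norm_mul]
      gcongr
  set A1 := |v T x - ind T x| with hA1
  set A2 := |ind T x - ind T t| with hA2
  set A3 := v T x * (C1 / (1 + |x|)) with hA3
  set A4 := ‖Vx - (v T x : ℂ)‖ with hA4
  have b1 : A1 ^ 2 ≤ 4 * (Real.exp (-x ^ 2 / 4) + Real.exp (-(x - T) ^ 2 / 4)) := by
    have h2 : A1 ≤ √2 * (Real.exp (-x ^ 2 / 2) + Real.exp (-(x - T) ^ 2 / 2)) := by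
      rw [hA1, abs_sub_comm]; exact v_close hT0 x
    have h3 : Real.exp (-x ^ 2 / 2) ^ 2 ≤ Real.exp (-x ^ 2 / 4) := by
      rw [← Real.exp_nat_mul]; refine Real.exp_le_exp.2 ?_
      push_cast; nlinarith [sq_nonneg x]
    have h4 : Real.exp (-(x - T) ^ 2 / 2) ^ 2 ≤ Real.exp (-(x - T) ^ 2 / 4) := by
      rw [← Real.exp_nat_mul]; refine Real.exp_le_exp.2 ?_
      push_cast; nlinarith [sq_nonneg (x - T)]
    calc A1 ^ 2 ≤ (√2 * (Real.exp (-x ^ 2 / 2) + Real.exp (-(x - T) ^ 2 / 2))) ^ 2 := by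
          gcongr
      _ = 2 * (Real.exp (-x ^ 2 / 2) + Real.exp (-(x - T) ^ 2 / 2)) ^ 2 := by
          rw [mul_pow, Real.sq_sqrt (by norm_num)]
      _ ≤ 2 * (2 * (Real.exp (-x ^ 2 / 2) ^ 2 + Real.exp (-(x - T) ^ 2 / 2) ^ 2)) := by
          nlinarith [sq_nonneg (Real.exp (-x ^ 2 / 2) - Real.exp (-(x - T) ^ 2 / 2))]
      _ ≤ _ := by linarith
  have b2 : A2 ^ 2 ≤ 2 * (Real.exp (-x ^ 2 / 4) + Real.exp (-(x - T) ^ 2 / 4)) := by
    rw [hA2, sq_abs]; exact hd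
  have hinv : ((1 + |x|) ^ 2)⁻¹ ≤ 1 := by
    refine inv_le_one_of_one_le₀ (one_le_pow₀ ?_)
    have := abs_nonneg x
    linarith
  have hinv0 : 0 ≤ ((1 + |x|) ^ 2)⁻¹ := by positivity
  have p1 := Real.exp_pos (-x ^ 2 / 4)
  have p2 := Real.exp_pos (-(x - T) ^ 2 / 4)
  have pi0 := ind_nonneg T x
  have b3 : A3 ^ 2 ≤ D * C1 ^ 2 * Wq T x := by
    have h5 := hv T hT x
    rw [pow_zero, pow_zero, mul_one, mul_one] at h5
    have h6 : gm T x * ((1 + |x|) ^ 2)⁻¹ ≤ Wq T x := by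
      unfold gm Wq ind
      nlinarith [mul_le_mul_of_nonneg_left hinv p1.le, mul_le_mul_of_nonneg_left hinv p2.le]
    calc A3 ^ 2 = v T x ^ 2 * (C1 ^ 2 * ((1 + |x|) ^ 2)⁻¹) := by
          rw [hA3, mul_pow, div_pow, div_eq_mul_inv]
      _ ≤ (D * gm T x) * (C1 ^ 2 * ((1 + |x|) ^ 2)⁻¹) := by gcongr
      _ = D * C1 ^ 2 * (gm T x * ((1 + |x|) ^ 2)⁻¹) := by ring
      _ ≤ _ := by gcongr
  have b12 : Real.exp (-x ^ 2 / 4) + Real.exp (-(x - T) ^ 2 / 4) ≤ Wq T x := by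
    unfold Wq
    have := mul_nonneg pi0 hinv0
    linarith
  have b4 : A4 ^ 2 ≤ E * (Wr T r x) := by
    refine hV.trans (mul_le_mul_of_nonneg_left ?_ hE0)
    have hr2 : r ^ 2 ≤ 1 := pow_le_one₀ hr0 (by linarith)
    unfold Wr gm ind at *
    nlinarith
  have bW : Wq T x ≤ Wr T r x := by
    unfold Wr
    have : 0 ≤ r ^ 2 * ind T x := by positivity
    linarith
  have hz := sq_nonneg ‖zr k r x‖
  have hW0 := Wr_nonneg T r x
  calc ‖Vx * Gr k u r x - (ind T t : ℂ) * zr k r x‖ ^ 2 ≤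
        (A1 * ‖zr k r x‖ + A2 * ‖zr k r x‖ + A3 * ‖zr k r x‖ + A4 * ‖zr k r x‖) ^ 2 := by
        gcongr
    _ = (A1 + A2 + A3 + A4) ^ 2 * ‖zr k r x‖ ^ 2 := by ring
    _ ≤ (4 * (A1 ^ 2 + A2 ^ 2 + A3 ^ 2 + A4 ^ 2)) * ‖zr k r x‖ ^ 2 := by
        refine mul_le_mul_of_nonneg_right ?_ hz
        nlinarith [sq_nonneg (A1 - A2), sq_nonneg (A1 - A3), sq_nonneg (A1 - A4), sq_nonneg (A2 - A3),
          sq_nonneg (A2 - A4), sq_nonneg (A3 - A4)]
    _ ≤ (4 * ((4 + 2 + D * C1 ^ 2 + 2 * E) * Wr T r x)) * ‖zr k r x‖ ^ 2 := by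
        refine mul_le_mul_of_nonneg_right ?_ hz
        have h7 : D * C1 ^ 2 * Wq T x ≤ D * C1 ^ 2 * Wr T r x := by gcongr
        have h8 : 0 ≤ E * Wr T r x := by positivity
        nlinarith
    _ = _ := by ring

end

end Pool.Agent.J4.H44.OL
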