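import Pool.Agent.R446.KR.Rmt

set_option autoImplicit false

/-! The moments of characteristic polynomials over `U(N)` off the unit circle. -/

namespace Pool.Agent.J4.H44.OL

open Complex MeasureTheory Filter Topology Set Pool.Agent.R446.KR
open scoped ComplexConjugate Matrix

noncomputable section

/-- `W_k(α, N)` at the complex point `s = iα` -/
def Wc (k : ℕ) (s : ℂ) (N : ℕ) : ℂ :=
  ((N : ℂ) ^ (k ^ 2))⁻¹ * ∫ U : Matrix.unitaryGroup (Fin N) ℂ,
    (1 - cexp (-(s / N)) • (U : Matrix (Fin N) (Fin N) ℂ)).det ^ k *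
      (1 - cexp (-(s / N)) • (U : Matrix (Fin N) (Fin N) ℂ)ᴴ).det ^ k ∂(haarU N)

/-- the inequality for exponential polynomials -/
theorem W_trigC (k : ℕ) {N : ℕ} (hN : 1 ≤ N) {ι : Type} (S : Finset ι) (s : ι → ℂ) (c : ι → ℂ) {Q : ℝ}
    (hQ : ∀ v : ℝ, 0 ≤ v → v ≤ k → ‖∑ j ∈ S, c j * cexp (-(2 * s j * v))‖ ≤ Q) :
    ‖∑ j ∈ S, c j * Wc k (s j) N‖ ≤ Q * ‖Wc k 0 N‖ := by
  have hN0 : (0:ℝ) < N := by exact_mod_cast hN
  have hNc : (N : ℂ) ≠ 0 := by exact_mod_cast hN0.ne'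
  have hW : ∀ a : ℂ, Wc k a N = ((N : ℂ) ^ (k ^ 2))⁻¹ * ∫ U, av k N (cexp (-(a / N))) U ∂(haarU N) := by
    intro a
    rw [← av_int]; rfl
  have e1 : ∑ j ∈ S, c j * Wc k (s j) N = ((N : ℂ) ^ (k ^ 2))⁻¹ *
      ∫ U, ∑ j ∈ S, c j * av k N (cexp (-(s j / N))) U ∂(haarU N) := by
    rw [integral_finsetSum _ fun j _ => ((cont_int (av_cont k N _)).const_mul _), Finset.mul_sum]
    refine Finset.sum_congr rfl fun j _ => ?_
    rw [integral_const_mul, hW]
    ring
  have e5' : ∀ U : Matrix.unitaryGroup (Fin N) ℂ,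
      (av k N 1 U).re = ∑ m ∈ Finset.range (k * N + 1), ‖(pp k (U : Matrix (Fin N) (Fin N) ℂ)).coeff m‖ ^ 2 := by
    intro U
    unfold av
    simp only [one_pow, mul_one]
    rw [← Complex.ofReal_sum, Complex.ofReal_re]
  have e2 : ∀ U : Matrix.unitaryGroup (Fin N) ℂ,
      ‖∑ j ∈ S, c j * av k N (cexp (-(s j / N))) U‖ ≤ Q * (av k N 1 U).re := by
    intro U
    have e3 : ∑ j ∈ S, c j * av k N (cexp (-(s j / N))) U =
        ∑ m ∈ Finset.range (k * N + 1), ((‖(pp k (U : Matrix (Fin N) (Fin N) ℂ)).coeff m‖ ^ 2 : ℝ) : ℂ) *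
          ∑ j ∈ S, c j * cexp (-(2 * s j * ((m / N : ℝ) : ℂ))) := by
      unfold av
      simp_rw [Finset.mul_sum]
      rw [Finset.sum_comm]
      refine Finset.sum_congr rfl fun m _ => Finset.sum_congr rfl fun j _ => ?_
      rw [← Complex.exp_nat_mul]
      have e4 : -(2 * s j * ((m / N : ℝ) : ℂ)) = ((2 * m : ℕ) : ℂ) * (-(s j / N)) := by
        push_cast
        field_simp
      rw [e4]
      ring
    rw [e3, e5' U, Finset.mul_sum]
    refine (norm_sum_le _ _).trans (Finset.sum_le_sum fun m hm => ?_)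
    rw [norm_mul, Complex.norm_real, Real.norm_of_nonneg (by positivity), mul_comm]
    refine mul_le_mul_of_nonneg_right (hQ _ (by positivity) ?_) (by positivity)
    have hm1 : m ≤ k * N := by have := Finset.mem_range.1 hm; omega
    have hm2 : (m : ℝ) ≤ k * N := by exact_mod_cast hm1
    rw [div_le_iff₀ hN0]; exact hm2
  have e6 : ‖Wc k 0 N‖ = ‖((N : ℂ) ^ (k ^ 2))⁻¹‖ * ∫ U, (av k N 1 U).re ∂(haarU N) := by
    rw [hW 0, norm_mul]
    congr 1
    have e7 : (cexp (-((0:ℂ) / N))) = 1 := by simp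
    rw [e7]
    have e8 : ∀ U : Matrix.unitaryGroup (Fin N) ℂ, av k N 1 U = (((av k N 1 U).re : ℝ) : ℂ) := by
      intro U
      unfold av
      simp only [one_pow, mul_one]
      rw [← Complex.ofReal_sum, Complex.ofReal_re]
    have e9 : ∫ U, av k N 1 U ∂(haarU N) = ((∫ U, (av k N 1 U).re ∂(haarU N) : ℝ) : ℂ) := by
      rw [← integral_complex_ofReal]
      exact integral_congr_ae (Eventually.of_forall e8)
    rw [e9, Complex.norm_real, Real.norm_of_nonneg]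
    refine integral_nonneg fun U => ?_
    rw [e5' U]
    exact Finset.sum_nonneg fun m _ => by positivity
  rw [e1, norm_mul, e6]
  have e10 : ‖∫ U, ∑ j ∈ S, c j * av k N (cexp (-(s j / N))) U ∂(haarU N)‖ ≤
      Q * ∫ U, (av k N 1 U).re ∂(haarU N) := by
    rw [← integral_const_mul]
    refine norm_integral_le_of_norm_le ?_ (Eventually.of_forall e2)
    exact ((cont_int (av_cont k N 1)).re).const_mul Q
  calc _ ≤ ‖((N : ℂ) ^ (k ^ 2))⁻¹‖ * (Q * ∫ U, (av k N 1 U).re ∂(haarU N)) := by gcongr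
    _ = _ := by ring

theorem W_relC (k : ℕ) {N : ℕ} (hN : 1 ≤ N) (α : ℂ) (S : Finset ℂ) (c : ℂ → ℂ) {Q : ℝ}
    (hQ : ∀ v : ℝ, 0 ≤ v → v ≤ k → ‖cexp (-(2 * α * v)) - ∑ a ∈ S, c a * cexp (-(2 * a * v))‖ ≤ Q) :
    ‖Wc k α N - ∑ a ∈ S, c a * Wc k a N‖ ≤ Q * ‖Wc k 0 N‖ := by
  have h := W_trigC k hN (Finset.insertNone S) (fun o => o.elim α id)
    (fun o => o.elim 1 (fun a => -c a)) (Q := Q) (by
      intro v h0 h1
      refine le_of_eq_of_le ?_ (hQ v h0 h1)
      rw [Finset.sum_insertNone]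
      simp only [Option.elim_none, Option.elim_some, id, one_mul, neg_mul, Finset.sum_neg_distrib]
      rw [← sub_eq_add_neg])
  refine le_of_eq_of_le ?_ h
  rw [Finset.sum_insertNone]
  simp only [Option.elim_none, Option.elim_some, id, one_mul, neg_mul, Finset.sum_neg_distrib]
  rw [← sub_eq_add_neg]

end

end Pool.Agent.J4.H44.OL
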