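import Pool.Agent.J4.H44.OL.Rg

set_option autoImplicit false

/-! Existence of limits from limits on a complete set. -/

namespace Pool.Agent.J4.H44.OL

open Complex MeasureTheory Filter Topology Set Pool.Agent.TH535.SM Pool.Agent.R446.KR
open scoped FourierTransform ComplexConjugate

noncomputable section

/-- the approximation property used as a hypothesis -/
def App (K : ℝ) (α : ℂ) (S : Finset ℂ) (c : ℂ → ℂ) (Q : ℝ) : Prop :=
  ∀ v : ℝ, 0 ≤ v → v ≤ K → ‖cexp (-(2 * α * v)) - ∑ a ∈ S, c a * cexp (-(2 * a * v))‖ ≤ Q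

theorem abs_conv {ι : Type} (F : Filter ι) [F.NeBot] {K : ℝ} {A : Set ℂ} (hA : CplC A K) {P : ℂ → Prop}
    {f : ι → ℂ → ℂ} {G : ℂ → ℂ} {b : ℝ} (hb : 0 ≤ b)
    (hrel : ∀ α, P α → ∀ S c Q, 0 ≤ Q → (∀ a ∈ S, a ∈ A) → App K α S c Q → ∀ ε : ℝ, 0 < ε →
      ∀ᶠ i in F, ‖f i α - ∑ a ∈ S, c a * f i a‖ ≤ Q * b + ε)
    (hlim : ∀ a ∈ A, Tendsto (fun i => f i a) F (𝓝 (G a))) :
    ∀ α, P α → ∃ l, Tendsto (fun i => f i α) F (𝓝 l) ∧
      ∀ S c Q, 0 ≤ Q → (∀ a ∈ S, a ∈ A) → App K α S c Q → ‖l - ∑ a ∈ S, c a * G a‖ ≤ Q * b := by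
  intro α hα
  have hsum : ∀ (S : Finset ℂ) (c : ℂ → ℂ), (∀ a ∈ S, a ∈ A) →
      Tendsto (fun i => ∑ a ∈ S, c a * f i a) F (𝓝 (∑ a ∈ S, c a * G a)) := fun S c hS =>
    tendsto_finsetSum _ fun a ha => (hlim a (hS a ha)).const_mul _
  have hex : ∃ l, Tendsto (fun i => f i α) F (𝓝 l) := by
    refine cauchy_map_iff_exists_tendsto.1 (Metric.cauchy_iff.2 ⟨inferInstance, fun ε hε => ?_⟩)
    set η : ℝ := ε / (8 * (b + 1)) with hη
    have hη0 : 0 < η := by positivity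
    have hηb : η * b ≤ ε / 8 := by
      have : η * (8 * (b + 1)) = ε := by rw [hη]; field_simp
      nlinarith
    obtain ⟨S, c, hS, hc⟩ := hA α η hη0
    have h1 := hrel α hα S c η hη0.le hS hc (ε / 8) (by positivity)
    have h2 := Metric.tendsto_nhds.1 (hsum S c hS) (ε / 8) (by positivity)
    refine ⟨Metric.ball (∑ a ∈ S, c a * G a) (ε / 2), ?_, fun x hx y hy => ?_⟩
    · rw [mem_map]
      filter_upwards [h1, h2] with i h3 h4
      rw [mem_preimage, Metric.mem_ball, dist_eq_norm]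
      rw [dist_eq_norm] at h4
      have h5 := norm_add_le (f i α - ∑ a ∈ S, c a * f i a) (∑ a ∈ S, c a * f i a - ∑ a ∈ S, c a * G a)
      rw [sub_add_sub_cancel] at h5
      linarith
    · rw [Metric.mem_ball] at hx hy
      have := dist_triangle_right x y (∑ a ∈ S, c a * G a)
      linarith
  obtain ⟨l, hl⟩ := hex
  refine ⟨l, hl, fun S c Q hQ hS hc => ?_⟩
  refine le_of_forall_pos_le_add fun ε hε => ?_
  have h1 : Tendsto (fun i => ‖f i α - ∑ a ∈ S, c a * f i a‖) F (𝓝 ‖l - ∑ a ∈ S, c a * G a‖) :=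
    (hl.sub (hsum S c hS)).norm
  exact le_of_tendsto h1 (hrel α hα S c Q hQ hS hc ε hε)

/-- a common limit outside exceptional sets -/
lemma exists_m {M : ℝ → ℝ} {q : ℕ}
    (h : ∀ ε : ℝ, 0 < ε → ∃ m C X0 : ℝ, ∀ X : ℝ, X0 ≤ X → ∃ E : Set ℝ,
      MeasurableSet E ∧ E ⊆ Icc X (2 * X) ∧ volume.real E ≤ C * Real.log X ^ 2 ∧
      ∀ T ∈ Icc X (2 * X), T ∉ E → |M T - m * NN q T| ≤ ε * NN q T) :
    ∃ m : ℝ, ∀ ε : ℝ, 0 < ε → ∃ C X0 : ℝ, ∀ X : ℝ, X0 ≤ X → ∃ E : Set ℝ,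
      E ⊆ Icc X (2 * X) ∧ volume.real E ≤ C * Real.log X ^ 2 ∧
      ∀ T ∈ Icc X (2 * X), T ∉ E → |M T - m * NN q T| ≤ ε * NN q T := by
  choose! m C X0 hm using h
  have key : ∀ ε ε' : ℝ, 0 < ε → 0 < ε' → |m ε - m ε'| ≤ ε + ε' := by
    intro ε ε' hε hε'
    obtain ⟨T2, hT2⟩ := eventually_atTop.1 (log_sq_small (|C ε| + |C ε'|) (δ := 1 / 2) (by norm_num))
    set X := max (max (X0 ε) (X0 ε')) (max T2 2) with hX
    have x1 : X0 ε ≤ X := (le_max_left _ _).trans (le_max_left _ _)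
    have x2 : X0 ε' ≤ X := (le_max_right _ _).trans (le_max_left _ _)
    have x3 : T2 ≤ X := (le_max_left _ _).trans (le_max_right _ _)
    have x4 : 2 ≤ X := (le_max_right _ _).trans (le_max_right _ _)
    obtain ⟨E, e1, e2, e3, e4⟩ := hm ε hε X x1
    obtain ⟨E', f1, f2, f3, f4⟩ := hm ε' hε' X x2
    have hs := hT2 X x3
    have hfin : volume (E ∪ E') ≠ ⊤ := ne_top_of_le_ne_top
      (by rw [Real.volume_Icc]; exact ENNReal.ofReal_ne_top) (measure_mono (union_subset e2 f2))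
    have hv : volume.real (E ∪ E') ≤ (|C ε| + |C ε'|) * Real.log X ^ 2 := by
      refine (measureReal_union_le E E').trans ?_
      have h1 : C ε * Real.log X ^ 2 ≤ |C ε| * Real.log X ^ 2 :=
        mul_le_mul_of_nonneg_right (le_abs_self _) (by positivity)
      have h2 : C ε' * Real.log X ^ 2 ≤ |C ε'| * Real.log X ^ 2 :=
        mul_le_mul_of_nonneg_right (le_abs_self _) (by positivity)
      linarith
    obtain ⟨T, -, hT, hTE⟩ := exists_good (X := X) (a := X) (b := 2 * X) hv hfin (by linarith) le_rfl le_rfl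
    rw [mem_union, not_or] at hTE
    have g1 := e4 T hT hTE.1
    have g2 := f4 T hT hTE.2
    have hN : 0 < NN q T := NN_pos q (by linarith [hT.1])
    have g3 : |(m ε - m ε') * NN q T| ≤ (ε + ε') * NN q T := by
      have : (m ε - m ε') * NN q T = (M T - m ε' * NN q T) - (M T - m ε * NN q T) := by ring
      rw [this]
      have := abs_sub (M T - m ε' * NN q T) (M T - m ε * NN q T)
      linarith
    rw [abs_mul, abs_of_pos hN] at g3
    exact le_of_mul_le_mul_right g3 hN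
  have hcs : CauchySeq (fun n : ℕ => m (1 / ((n : ℝ) + 1))) := by
    refine cauchySeq_of_le_tendsto_0 (fun n : ℕ => 2 * (1 / ((n : ℝ) + 1))) (fun n l N h1 h2 => ?_) ?_
    · rw [Real.dist_eq]
      refine (key _ _ (by positivity) (by positivity)).trans ?_
      have a1 : 1 / ((n : ℝ) + 1) ≤ 1 / ((N : ℝ) + 1) := by
        have : (N : ℝ) ≤ n := by exact_mod_cast h1
        gcongr
      have a2 : 1 / ((l : ℝ) + 1) ≤ 1 / ((N : ℝ) + 1) := by
        have : (N : ℝ) ≤ l := by exact_mod_cast h2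
        gcongr
      linarith
    · simpa using tendsto_one_div_add_atTop_nhds_zero_nat.const_mul (2:ℝ)
  obtain ⟨m0, hm0⟩ := cauchySeq_tendsto_of_complete hcs
  have key2 : ∀ n : ℕ, |m (1 / ((n : ℝ) + 1)) - m0| ≤ 1 / ((n : ℝ) + 1) := by
    intro n
    have h1 : Tendsto (fun l : ℕ => |m (1 / ((n : ℝ) + 1)) - m (1 / ((l : ℝ) + 1))|) atTop
        (𝓝 |m (1 / ((n : ℝ) + 1)) - m0|) := (tendsto_const_nhds.sub hm0).abs
    have h2 : Tendsto (fun l : ℕ => 1 / ((n : ℝ) + 1) + 1 / ((l : ℝ) + 1)) atTop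
        (𝓝 (1 / ((n : ℝ) + 1) + 0)) := tendsto_const_nhds.add tendsto_one_div_add_atTop_nhds_zero_nat
    rw [add_zero] at h2
    exact le_of_tendsto_of_tendsto' h1 h2 fun l => key _ _ (by positivity) (by positivity)
  refine ⟨m0, fun ε hε => ?_⟩
  obtain ⟨n, hn⟩ := exists_nat_one_div_lt (half_pos hε)
  refine ⟨C (1 / ((n : ℝ) + 1)), max (X0 (1 / ((n : ℝ) + 1))) 2, fun X hX => ?_⟩
  obtain ⟨E, e1, e2, e3, e4⟩ := hm (1 / ((n : ℝ) + 1)) (by positivity) X ((le_max_left _ _).trans hX)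
  refine ⟨E, e2, e3, fun T hT hTE => ?_⟩
  have hN : 0 < NN q T := NN_pos q (by linarith [hT.1, (le_max_right _ _).trans hX])
  have g1 := e4 T hT hTE
  have g2 : |m (1 / ((n : ℝ) + 1)) * NN q T - m0 * NN q T| ≤ 1 / ((n : ℝ) + 1) * NN q T := by
    rw [← sub_mul, abs_mul, abs_of_pos hN]
    exact mul_le_mul_of_nonneg_right (key2 n) hN.le
  have g3 := abs_add_le (M T - m (1 / ((n : ℝ) + 1)) * NN q T)
    (m (1 / ((n : ℝ) + 1)) * NN q T - m0 * NN q T)
  rw [sub_add_sub_cancel] at g3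
  have g4 : 1 / ((n : ℝ) + 1) * NN q T ≤ ε / 2 * NN q T := mul_le_mul_of_nonneg_right hn.le hN.le
  linarith

/-- **convergence at a complete set of shifts implies convergence everywhere** -/
theorem convC (k q : ℕ) {A : Set ℂ} (hA : CplC A k) (hAre : ∀ a ∈ A, 0 ≤ a.re) {G : ℂ → ℂ}
    (hlim : ∀ a ∈ A, Tendsto (fun T : ℝ => CT k T a / ((NN q T : ℝ) : ℂ)) atTop (𝓝 (G a))) :
    ∃ b : ℝ, 0 ≤ b ∧ ∀ α : ℂ, 0 ≤ α.re → ∃ l,
      Tendsto (fun T : ℝ => CT k T α / ((NN q T : ℝ) : ℂ)) atTop (𝓝 l) ∧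
      ∀ S c Q, 0 ≤ Q → (∀ a ∈ S, a ∈ A) → App k α S c Q → ‖l - ∑ a ∈ S, c a * G a‖ ≤ Q * b := by
  obtain ⟨b, hb0, hb⟩ := mboundC k q hA hAre (g := fun a => ‖G a‖ + 1) (by
    intro a ha
    have h1 := (hlim a ha).norm.eventually_lt_const (lt_add_one _)
    filter_upwards [h1, eventually_gt_atTop 1] with T h3 h4
    have hN := NN_pos q h4
    rw [norm_div, Complex.norm_real, Real.norm_of_nonneg hN.le, div_lt_iff₀ hN] at h3
    exact h3.le)
  have hNinf := NN_inf q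
  have D := zk_dat k (u := 1) le_rfl
  rw [← zr_zero] at D
  have hsum : ∀ (S : Finset ℂ) (c : ℂ → ℂ), (∀ a ∈ S, a ∈ A) →
      Tendsto (fun T : ℝ => ∑ a ∈ S, c a * (CT k T a / ((NN q T : ℝ) : ℂ))) atTop
        (𝓝 (∑ a ∈ S, c a * G a)) := fun S c hS =>
    tendsto_finsetSum _ fun a ha => (hlim a (hS a ha)).const_mul _
  have hdf : ∀ (α : ℂ) (S : Finset ℂ) (c : ℂ → ℂ) (T : ℝ),
      CT k T α / ((NN q T : ℝ) : ℂ) - ∑ a ∈ S, c a * (CT k T a / ((NN q T : ℝ) : ℂ)) =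
      DfC k α S c T / ((NN q T : ℝ) : ℂ) := by
    intro α S c T
    unfold DfC
    rw [sub_div, Finset.sum_div]
    congr 1
    exact Finset.sum_congr rfl fun a _ => by ring
  -- the unshifted moment
  obtain ⟨m, hm⟩ := exists_m (M := M (zr k 0)) (q := q) (by
    intro ε hε
    set η : ℝ := ε / (8 * (b + 1)) with hη
    have hη0 : 0 < η := by positivity
    have hηb : η * b ≤ ε / 8 := by
      have : η * (8 * (b + 1)) = ε := by rw [hη]; field_simp
      nlinarith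
    obtain ⟨S, c, hs, hc⟩ := hA 0 η hη0
    obtain ⟨C, X0, hC, hX0, h1⟩ := relC2 k (α := 0) (by simp) (fun a ha => hAre a (hs a ha)) hη0.le hc hη0
    obtain ⟨T1, hT1⟩ := eventually_atTop.1 (Metric.tendsto_nhds.1 (hsum S c hs) (ε / 4) (by positivity))
    obtain ⟨T2, hT2⟩ := eventually_atTop.1 hb
    obtain ⟨T3, hT3⟩ := eventually_atTop.1 (hNinf.eventually_ge_atTop (4 * C / ε))
    refine ⟨(∑ a ∈ S, c a * G a).re, C, max (max X0 T1) (max (max T2 T3) 2), fun X hX => ?_⟩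
    have x1 : X0 ≤ X := ((le_max_left _ _).trans (le_max_left _ _)).trans hX
    have x2 : T1 ≤ X := ((le_max_right _ _).trans (le_max_left _ _)).trans hX
    have x3 : T2 ≤ X := (((le_max_left _ _).trans (le_max_left _ _)).trans (le_max_right _ _)).trans hX
    have x4 : T3 ≤ X := (((le_max_right _ _).trans (le_max_left _ _)).trans (le_max_right _ _)).trans hX
    have x5 : 2 ≤ X := ((le_max_right _ _).trans (le_max_right _ _)).trans hX
    obtain ⟨E, e1, e2, e3, e4⟩ := h1 X x1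
    refine ⟨E, e1, e2, e3, fun T hT hTE => ?_⟩
    have hN : 0 < NN q T := NN_pos q (by linarith [hT.1])
    have y1 := e4 T hT hTE
    have y2 := hT1 T (x2.trans hT.1)
    have y3 := hT2 T (x3.trans hT.1)
    have y4 := hT3 T (x4.trans hT.1)
    have y5 := hdf 0 S c T
    have y7 : ‖DfC k 0 S c T / ((NN q T : ℝ) : ℂ)‖ ≤ (η + η) * b + ε / 4 := by
      rw [norm_div, Complex.norm_real, Real.norm_of_nonneg hN.le, div_le_iff₀ hN]
      have y8 : (η + η) * M (zr k 0) T ≤ (η + η) * (b * NN q T) := mul_le_mul_of_nonneg_left y3 (by positivity)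
      have y9 : C ≤ ε / 4 * NN q T := by
        rw [div_le_iff₀ hε] at y4; linarith
      linarith
    rw [dist_eq_norm] at y2
    have y10 := norm_add_le (CT k T 0 / ((NN q T : ℝ) : ℂ) - ∑ a ∈ S, c a * (CT k T a / ((NN q T : ℝ) : ℂ)))
      (∑ a ∈ S, c a * (CT k T a / ((NN q T : ℝ) : ℂ)) - ∑ a ∈ S, c a * G a)
    rw [sub_add_sub_cancel, y5] at y10
    have y11 : ‖CT k T 0 / ((NN q T : ℝ) : ℂ) - ∑ a ∈ S, c a * G a‖ ≤ ε := by linarith
    rw [CT_zero] at y11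
    have y12 : |(((M (zr k 0) T : ℝ) : ℂ) / ((NN q T : ℝ) : ℂ) - ∑ a ∈ S, c a * G a).re| ≤ ε :=
      (Complex.abs_re_le_norm _).trans y11
    rw [← Complex.ofReal_div, Complex.sub_re, Complex.ofReal_re] at y12
    rw [show M (zr k 0) T - (∑ a ∈ S, c a * G a).re * NN q T =
      (M (zr k 0) T / NN q T - (∑ a ∈ S, c a * G a).re) * NN q T by field_simp, abs_mul, abs_of_pos hN]
    exact mul_le_mul_of_nonneg_right y12 hN.le)
  have hM0 : Tendsto (fun T => M (zr k 0) T / NN q T) atTop (𝓝 m) :=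
    monotone_step (fun S T _ h => M_mono D h) hm
  refine ⟨b, hb0, ?_⟩
  refine abs_conv atTop hA (P := fun α => 0 ≤ α.re) (f := fun T α => CT k T α / ((NN q T : ℝ) : ℂ)) hb0 ?_ hlim
  intro α hα S c Q hQ hS hc ε hε
  set η : ℝ := ε / (4 * (b + 1)) with hη
  have hη0 : 0 < η := by positivity
  have hηb : η * b ≤ ε / 4 := by
    have : η * (4 * (b + 1)) = ε := by rw [hη]; field_simp
    nlinarith
  obtain ⟨C, T0, hC, hT0, h1⟩ := relC1 k hα (fun a ha => hAre a (hS a ha)) hQ hc hη0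
  have hBs := bsmall D hM0 (ε := ε / (4 * (C + 1))) (by positivity)
  filter_upwards [hBs, hb, hNinf.eventually_ge_atTop (4 * C / ε), eventually_ge_atTop T0,
    eventually_gt_atTop 1] with T c1 c3 c4 c5 c6
  have hN : 0 < NN q T := NN_pos q c6
  have y1 := h1 T c5
  rw [hdf, norm_div, Complex.norm_real, Real.norm_of_nonneg hN.le, div_le_iff₀ hN]
  have y8 : (Q + η) * M (zr k 0) T ≤ (Q + η) * (b * NN q T) := mul_le_mul_of_nonneg_left c3 (by positivity)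
  have y9 : C ≤ ε / 4 * NN q T := by
    rw [div_le_iff₀ hε] at c4; linarith
  have y10 : C * B (zr k 0) T ≤ ε / 4 * NN q T := by
    have y11 : C * B (zr k 0) T ≤ C * (ε / (4 * (C + 1)) * NN q T) := mul_le_mul_of_nonneg_left c1 hC
    have y12 : C * (ε / (4 * (C + 1)) * NN q T) = ε / 4 * NN q T * (C / (C + 1)) := by
      field_simp
    have y13 : C / (C + 1) ≤ 1 := by rw [div_le_one (by linarith)]; linarith
    have y14 : ε / 4 * NN q T * (C / (C + 1)) ≤ ε / 4 * NN q T * 1 :=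
      mul_le_mul_of_nonneg_left y13 (by positivity)
    linarith
  have y11 : η * b * NN q T ≤ ε / 4 * NN q T := mul_le_mul_of_nonneg_right hηb hN.le
  nlinarith

/-- the same for the matrix integrals -/
theorem convW (k : ℕ) {A : Set ℂ} (hA : CplC A k) {W : ℂ → ℂ}
    (hlim : ∀ a ∈ A, Tendsto (fun N : ℕ => Wc k a N) atTop (𝓝 (W a))) :
    ∃ b : ℝ, 0 ≤ b ∧ ∀ α : ℂ, ∃ l, Tendsto (fun N : ℕ => Wc k α N) atTop (𝓝 l) ∧
      ∀ S c Q, 0 ≤ Q → (∀ a ∈ S, a ∈ A) → App k α S c Q → ‖l - ∑ a ∈ S, c a * W a‖ ≤ Q * b := by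
  obtain ⟨S, c, hS, hc⟩ := hA 0 (1 / 2) (by norm_num)
  have hsum : Tendsto (fun N : ℕ => ‖∑ a ∈ S, c a * Wc k a N‖) atTop (𝓝 ‖∑ a ∈ S, c a * W a‖) :=
    (tendsto_finsetSum _ fun a ha => (hlim a (hS a ha)).const_mul _).norm
  set b : ℝ := 2 * (‖∑ a ∈ S, c a * W a‖ + 1) with hb
  have hb0 : 0 ≤ b := by positivity
  have hbd : ∀ᶠ N : ℕ in atTop, ‖Wc k 0 N‖ ≤ b := by
    filter_upwards [hsum.eventually_lt_const (lt_add_one _), eventually_ge_atTop 1] with N h1 h2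
    have h3 := W_relC k h2 0 S c hc
    have h4 := norm_sub_norm_le (Wc k 0 N) (∑ a ∈ S, c a * Wc k a N)
    rw [hb]; linarith
  refine ⟨b, hb0, fun α => ?_⟩
  refine abs_conv atTop hA (P := fun _ => True) (f := fun N α => Wc k α N) hb0 ?_ hlim α trivial
  intro α _ S c Q hQ hS hc ε hε
  filter_upwards [hbd, eventually_ge_atTop 1] with N h1 h2
  have h3 := W_relC k h2 α S c hc
  have h4 : Q * ‖Wc k 0 N‖ ≤ Q * b := mul_le_mul_of_nonneg_left h1 hQ
  linarith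

/-- the two limits correspond -/
theorem matchC (k : ℕ) {A : Set ℂ} (hA : CplC A k) (hAre : ∀ a ∈ A, 0 ≤ a.re) (κ : ℂ) {W : ℂ → ℂ}
    (hW : ∀ a ∈ A, Tendsto (fun N : ℕ => Wc k a N) atTop (𝓝 (W a)))
    (hlim : ∀ a ∈ A, Tendsto (fun T : ℝ => CT k T a / ((NN (k ^ 2) T : ℝ) : ℂ)) atTop (𝓝 (κ * W a))) :
    ∀ α : ℂ, 0 ≤ α.re → ∃ w, Tendsto (fun N : ℕ => Wc k α N) atTop (𝓝 w) ∧
      Tendsto (fun T : ℝ => CT k T α / ((NN (k ^ 2) T : ℝ) : ℂ)) atTop (𝓝 (κ * w)) := by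
  obtain ⟨b1, hb1, h1⟩ := convC k (k ^ 2) hA hAre (G := fun a => κ * W a) hlim
  obtain ⟨b2, hb2, h2⟩ := convW k hA hW
  intro α hα
  obtain ⟨l, hl, hl2⟩ := h1 α hα
  obtain ⟨w, hw, hw2⟩ := h2 α
  refine ⟨w, hw, ?_⟩
  have : l = κ * w := by
    rw [← sub_eq_zero, ← norm_le_zero_iff]
    refine le_of_forall_pos_le_add fun ε hε => ?_
    rw [zero_add]
    set η : ℝ := ε / (b1 + ‖κ‖ * b2 + 1) with hη
    have hη0 : 0 < η := by positivity
    obtain ⟨S, c, hS, hc⟩ := hA α η hη0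
    have q1 := hl2 S c η hη0.le hS hc
    have q2 := hw2 S c η hη0.le hS hc
    have e : l - κ * w = (l - ∑ a ∈ S, c a * (κ * W a)) - κ * (w - ∑ a ∈ S, c a * W a) := by
      have : κ * ∑ a ∈ S, c a * W a = ∑ a ∈ S, c a * (κ * W a) := by
        rw [Finset.mul_sum]
        exact Finset.sum_congr rfl fun a _ => by ring
      rw [mul_sub, this]
      ring
    rw [e]
    refine (norm_sub_le _ _).trans ?_
    rw [norm_mul]
    have q3 : ‖κ‖ * ‖w - ∑ a ∈ S, c a * W a‖ ≤ ‖κ‖ * (η * b2) := mul_le_mul_of_nonneg_left q2 (norm_nonneg _)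
    have q4 : η * (b1 + ‖κ‖ * b2 + 1) = ε := by rw [hη]; field_simp
    nlinarith
  rw [← this]
  exact hl

end

end Pool.Agent.J4.H44.OL
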