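import Pool.Agent.J4.H44.OL.Gc
import Pool.Agent.R446.KR.Fin

set_option autoImplicit false

/-! The local moments off the line are bounded by those on the line. -/

namespace Pool.Agent.J4.H44.OL

open Complex MeasureTheory Filter Topology Set Pool.Agent.TH535.SM
open scoped FourierTransform ComplexConjugate

noncomputable section

/-- a function on the line `Re s = 1/2 + r` -/
def Ln (f : ℂ → ℂ) (r t : ℝ) : ℂ := f (((1 / 2 + r : ℝ) : ℂ) + t * I)

/-- analytic in `1/2 ≤ Re s ≤ 1/2 + u` with quadratic decay -/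
structure St (f : ℂ → ℂ) (u : ℝ) : Prop where
  diff : ∀ s : ℂ, 1 / 2 ≤ s.re → s.re ≤ 1 / 2 + u → DifferentiableAt ℂ f s
  bd : ∃ B : ℝ, 0 ≤ B ∧ ∀ s : ℂ, 1 / 2 ≤ s.re → s.re ≤ 1 / 2 + u → ‖f s‖ ≤ B * ((1 + |s.im|) ^ 2)⁻¹

lemma Ln_dec {f : ℂ → ℂ} {u : ℝ} (h : St f u) {r : ℝ} (h1 : 0 ≤ r) (h2 : r ≤ u) : Dec (Ln f r) := by
  refine ⟨?_, ?_⟩
  · rw [continuous_iff_continuousAt]
    intro t
    have hd : ContinuousAt f (((1 / 2 + r : ℝ) : ℂ) + t * I) :=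
      (h.diff _ (by rw [line_re]; linarith) (by rw [line_re]; linarith)).continuousAt
    exact ContinuousAt.comp (f := fun t : ℝ => (((1 / 2 + r : ℝ) : ℂ) + t * I)) hd (by fun_prop)
  · obtain ⟨B, hB, hb⟩ := h.bd
    refine ⟨B, hB, fun t => ?_⟩
    have := hb (((1 / 2 + r : ℝ) : ℂ) + t * I) (by rw [line_re]; linarith) (by rw [line_re]; linarith)
    rwa [line_im] at this

lemma Ln_shift {f : ℂ → ℂ} {u : ℝ} (h : St f u) {r1 r2 : ℝ} (h1 : 0 ≤ r1) (h12 : r1 ≤ r2)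
    (h2 : r2 ≤ u) (w : ℝ) :
    cexp (-(2 * Real.pi * w * r1 : ℝ)) * 𝓕 (Ln f r1) w =
      cexp (-(2 * Real.pi * w * r2 : ℝ)) * 𝓕 (Ln f r2) w := by
  obtain ⟨B, hB, hb⟩ := h.bd
  set g : ℂ → ℂ := fun s => cexp (-(2 * Real.pi * w * (s - 1 / 2))) * f s with hg
  have hline : ∀ r : ℝ, ∫ y : ℝ, g (((1 / 2 + r : ℝ) : ℂ) + y * I) =
      cexp (-(2 * Real.pi * w * r : ℝ)) * 𝓕 (Ln f r) w := by
    intro r
    rw [ft_eq, ← integral_const_mul]
    refine integral_congr_ae (Eventually.of_forall fun y => ?_)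
    simp only [hg, Ln]
    have e : cexp (-(2 * Real.pi * w * ((((1 / 2 + r : ℝ) : ℂ) + y * I) - 1 / 2))) =
        cexp (-(2 * Real.pi * w * r : ℝ)) * cexp (-(2 * Real.pi * w * y * I)) := by
      rw [← Complex.exp_add]
      congr 1
      push_cast
      ring
    rw [e]
    ring
  have hu : 0 ≤ u := h1.trans (h12.trans h2)
  rw [← hline, ← hline]
  refine W182.KO.strip_shift (B := Real.exp (2 * Real.pi * |w| * u) * B) (by linarith)
    (by positivity) ?_ ?_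
  · intro s a b
    exact DifferentiableAt.mul (by fun_prop) (h.diff s (by linarith) (by linarith))
  · intro s a b
    have h3 := hb s (by linarith) (by linarith)
    rw [hg]
    simp only
    have h7 : ‖cexp (-(2 * (Real.pi:ℂ) * w * (s - 1 / 2)))‖ ≤ Real.exp (2 * Real.pi * |w| * u) := by
      rw [Complex.norm_exp]
      refine Real.exp_le_exp.2 ?_
      have e1 : (-(2 * (Real.pi:ℂ) * w * (s - 1 / 2))).re = -(2 * Real.pi * w * (s.re - 1 / 2)) := by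
        have : (-(2 * (Real.pi:ℂ) * w * (s - 1 / 2))) = ((-(2 * Real.pi * w) : ℝ) : ℂ) * (s - 1 / 2) := by
          push_cast; ring
        rw [this, Complex.re_ofReal_mul]
        simp
      rw [e1]
      have h4 : |s.re - 1 / 2| ≤ u := abs_le.2 ⟨by linarith, by linarith⟩
      have h5 : |w * (s.re - 1 / 2)| ≤ |w| * u := by
        rw [abs_mul]; gcongr
      have h6 := neg_abs_le (w * (s.re - 1 / 2))
      have hp := Real.pi_pos
      nlinarith [mul_le_mul_of_nonneg_left h5 hp.le, mul_le_mul_of_nonneg_left h6 hp.le]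
    calc ‖cexp (-(2 * (Real.pi:ℂ) * w * (s - 1 / 2))) * f s‖ =
          ‖cexp (-(2 * (Real.pi:ℂ) * w * (s - 1 / 2)))‖ * ‖f s‖ := norm_mul _ _
      _ ≤ Real.exp (2 * Real.pi * |w| * u) * (B * ((1 + |s.im|) ^ 2)⁻¹) :=
          mul_le_mul h7 h3 (norm_nonneg _) (Real.exp_pos _).le
      _ = _ := by rw [div_eq_mul_inv]; ring

lemma Ln_ft_sq {f : ℂ → ℂ} {u : ℝ} (h : St f u) {r : ℝ} (h1 : 0 ≤ r) (h2 : r ≤ u) (w : ℝ) :
    ‖𝓕 (Ln f r) w‖ ^ 2 = Real.exp (4 * Real.pi * w * r) * ‖𝓕 (Ln f 0) w‖ ^ 2 := by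
  have h3 := Ln_shift h le_rfl h1 h2 w
  rw [mul_zero] at h3
  simp only [ofReal_zero, neg_zero, Complex.exp_zero, one_mul] at h3
  rw [h3, norm_mul, mul_pow, Complex.norm_exp, ← Complex.ofReal_neg, Complex.ofReal_re,
    ← Real.exp_nat_mul, ← mul_assoc, ← Real.exp_add]
  have : 4 * Real.pi * w * r + ((2 : ℕ) : ℝ) * -(2 * Real.pi * w * r) = 0 := by push_cast; ring
  rw [this, Real.exp_zero, one_mul]

/-- log-convexity, in a weak form -/
lemma Ln_mid {f : ℂ → ℂ} {u : ℝ} (h : St f u) {r : ℝ} (h1 : 0 ≤ r) (h2 : r ≤ u) :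
    ∫ t, ‖Ln f r t‖ ^ 2 ≤ (∫ t, ‖Ln f 0 t‖ ^ 2) + ∫ t, ‖Ln f u t‖ ^ 2 := by
  have hu : 0 ≤ u := h1.trans h2
  have d0 := Ln_dec h le_rfl hu
  have d1 := Ln_dec h h1 h2
  have d2 := Ln_dec h hu le_rfl
  rw [← (planch d0).2, ← (planch d1).2, ← (planch d2).2, ← integral_add (planch d0).1 (planch d2).1]
  refine integral_mono (planch d1).1 ((planch d0).1.add (planch d2).1) fun w => ?_
  simp only
  rw [Ln_ft_sq h h1 h2, Ln_ft_sq h hu le_rfl]
  have hx : 0 ≤ ‖𝓕 (Ln f 0) w‖ ^ 2 := by positivity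
  have hp := Real.pi_pos
  have key : Real.exp (4 * Real.pi * w * r) ≤ 1 + Real.exp (4 * Real.pi * w * u) := by
    have q := Real.exp_pos (4 * Real.pi * w * u)
    rcases le_total 0 w with hw | hw
    · have : Real.exp (4 * Real.pi * w * r) ≤ Real.exp (4 * Real.pi * w * u) :=
        Real.exp_le_exp.2 (mul_le_mul_of_nonneg_left h2 (by positivity))
      linarith
    · have : Real.exp (4 * Real.pi * w * r) ≤ 1 := by
        rw [Real.exp_le_one_iff]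
        have : 4 * Real.pi * w ≤ 0 := mul_nonpos_of_nonneg_of_nonpos (by positivity) hw
        exact mul_nonpos_of_nonpos_of_nonneg this h1
      linarith
  nlinarith

/-- the gaussian localisation at height `T` -/
def gf (k : ℕ) (T : ℝ) (s : ℂ) : ℂ := cexp ((s - 1 / 2 - T * I) ^ 2 / 8) * H k 1 s

lemma gf_exp (r t T : ℝ) : ‖cexp (((((1 / 2 + r : ℝ) : ℂ) + t * I) - 1 / 2 - T * I) ^ 2 / 8)‖ =
    Real.exp ((r ^ 2 - (t - T) ^ 2) / 8) := by
  rw [Complex.norm_exp]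
  congr 1
  have : (((((1 / 2 + r : ℝ) : ℂ) + t * I) - 1 / 2 - T * I) ^ 2 / 8) =
      (((r ^ 2 - (t - T) ^ 2) / 8 : ℝ) : ℂ) + ((2 * r * (t - T) / 8 : ℝ) : ℂ) * I := by
    push_cast
    have e : ((1:ℂ) / 2 + r + t * I - 1 / 2 - T * I) ^ 2 = r ^ 2 + 2 * r * (t - T) * I +
      (t - T) ^ 2 * I ^ 2 := by ring
    rw [e, I_sq]
    ring
  rw [this, Complex.add_re, Complex.ofReal_re, Complex.re_ofReal_mul, Complex.I_re, mul_zero, add_zero]

lemma Ln_gf_norm (k : ℕ) (T r t : ℝ) : ‖Ln (gf k T) r t‖ ^ 2 =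
    Real.exp (r ^ 2 / 4) * (Real.exp (-(t - T) ^ 2 / 4) * ‖Gr k 1 r t‖ ^ 2) := by
  unfold Ln gf
  rw [norm_mul, gf_exp, mul_pow, ← Real.exp_nat_mul, ← mul_assoc, ← Real.exp_add]
  congr 2
  push_cast; ring

lemma poly_exp16 (p : ℕ) {d : ℝ} (hd : 0 ≤ d) :
    (1 + d) ^ p * Real.exp (-d ^ 2 / 8) ≤ p.factorial * Real.exp 3 := by
  have h1 := Real.pow_div_factorial_le_exp (1 + d) (by linarith) p
  have hf : (0:ℝ) < p.factorial := by exact_mod_cast Nat.factorial_pos p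
  rw [div_le_iff₀ hf] at h1
  calc (1 + d) ^ p * Real.exp (-d ^ 2 / 8) ≤ (Real.exp (1 + d) * p.factorial) * Real.exp (-d ^ 2 / 8) := by
        gcongr
    _ = p.factorial * Real.exp (1 + d + -d ^ 2 / 8) := by rw [Real.exp_add (1 + d)]; ring
    _ ≤ _ := by
        refine mul_le_mul_of_nonneg_left (Real.exp_le_exp.2 ?_) hf.le
        nlinarith [sq_nonneg (d - 4)]

lemma gf_st (k : ℕ) (T : ℝ) : St (gf k T) 1 := by
  refine ⟨fun s h1 h2 => ?_, ?_⟩
  · refine DifferentiableAt.mul (by fun_prop) (H_diff k ?_)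
    push_cast; linarith
  · obtain ⟨C, M, hC, hb⟩ := H_strip k (u := 1) le_rfl
    refine ⟨Real.exp 1 * C * ((1 + |T|) ^ (M + 2) * ((M + 2).factorial * Real.exp 3)), by positivity,
      fun s h1 h2 => ?_⟩
    have e : s = (((1 / 2 + (s.re - 1 / 2) : ℝ) : ℂ) + (s.im : ℝ) * I) := by
      apply Complex.ext <;> simp
    have h3 : ‖cexp ((s - 1 / 2 - T * I) ^ 2 / 8)‖ ≤ Real.exp 1 * Real.exp (-(s.im - T) ^ 2 / 8) := by
      rw [e, gf_exp, ← Real.exp_add, ← e]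
      refine Real.exp_le_exp.2 ?_
      have : (s.re - 1 / 2) ^ 2 ≤ 1 := by
        rw [sq_le_one_iff_abs_le_one, abs_le]; constructor <;> linarith
      linarith
    have h4 := hb s (by push_cast; linarith) (by push_cast; linarith)
    have h5 : 1 + |s.im| ≤ (1 + |s.im - T|) * (1 + |T|) := by
      have := one_add_abs_le s.im (-T)
      rw [abs_neg] at this
      rwa [← sub_eq_add_neg] at this
    have h6 := poly_exp16 (M + 2) (abs_nonneg (s.im - T))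
    rw [sq_abs] at h6
    have hpos : 0 < (1 + |s.im|) ^ 2 := by positivity
    unfold gf
    rw [norm_mul, ← div_eq_mul_inv, le_div_iff₀ hpos]
    calc ‖cexp ((s - 1 / 2 - T * I) ^ 2 / 8)‖ * ‖H k 1 s‖ * (1 + |s.im|) ^ 2 ≤
          (Real.exp 1 * Real.exp (-(s.im - T) ^ 2 / 8)) * (C * (1 + |s.im|) ^ M) * (1 + |s.im|) ^ 2 := by
          gcongr
      _ = Real.exp 1 * C * ((1 + |s.im|) ^ (M + 2) * Real.exp (-(s.im - T) ^ 2 / 8)) := by ring
      _ ≤ Real.exp 1 * C * (((1 + |s.im - T|) * (1 + |T|)) ^ (M + 2) * Real.exp (-(s.im - T) ^ 2 / 8)) := by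
          gcongr
      _ = Real.exp 1 * C * ((1 + |T|) ^ (M + 2) * ((1 + |s.im - T|) ^ (M + 2) *
          Real.exp (-(s.im - T) ^ 2 / 8))) := by rw [mul_pow]; ring
      _ ≤ _ := by gcongr

lemma zr_zero (k : ℕ) : zr k 0 = Pool.Agent.R446.KR.zk k := by
  funext t
  unfold zr Pool.Agent.R446.KR.zk ze
  congr 2
  push_cast; ring

lemma Bz_int (k : ℕ) {r : ℝ} (hr0 : 0 ≤ r) (hr : r ≤ 1 / 4) (T : ℝ) :
    Integrable (fun t : ℝ => Real.exp (-(t - T) ^ 2 / 4) * ‖zr k r t‖ ^ 2) := by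
  obtain ⟨C, p, hC, hb⟩ := zr_bd k
  refine ((gp_int p T).const_mul C).mono'
    (((by fun_prop : Continuous fun t : ℝ => Real.exp (-(t - T) ^ 2 / 4))).mul
      ((zr_cont k hr).norm.pow 2)).aestronglyMeasurable (Eventually.of_forall fun t => ?_)
  rw [Real.norm_of_nonneg (by positivity)]
  calc _ ≤ Real.exp (-(t - T) ^ 2 / 4) * (C * (1 + |t|) ^ p) := by gcongr; exact hb r hr0 hr t
    _ = _ := by ring

/-- local moments off the line -/
lemma B_off (k : ℕ) : ∃ C : ℝ, 1 ≤ C ∧ ∀ r : ℝ, 0 ≤ r → r ≤ 1 / 4 → ∀ T : ℝ,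
    B (zr k r) T ≤ C * (1 + B (zr k 0) T) := by
  obtain ⟨C1, hC1, hb⟩ := H_right k (u := 1) le_rfl
  set A : ℝ := ((8 * (1:ℕ) + 9 : ℝ) ^ k) ^ 2 with hA
  have hA1 : 1 ≤ A := one_le_pow₀ (one_le_pow₀ (by norm_num))
  set Z : ℝ := Real.exp (1 / 4) * (4 * C1 ^ 2) with hZ
  have hZ0 : 0 ≤ Z := by positivity
  refine ⟨A * (1 + Z), one_le_mul_of_one_le_of_one_le hA1 (by linarith), fun r hr0 hr T => ?_⟩
  have hst := gf_st k T
  have hm := Ln_mid hst hr0 (by linarith : r ≤ 1)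
  -- the three integrals
  have i1 : B (zr k r) T ≤ A * ∫ t, ‖Ln (gf k T) r t‖ ^ 2 := by
    unfold B
    rw [← integral_const_mul]
    refine integral_mono (Bz_int k hr0 hr T) ((Ln_dec hst hr0 (by linarith)).sq.const_mul _) fun t => ?_
    simp only
    rw [Ln_gf_norm]
    have h1 := zr_le_Gr k 1 hr0 hr t
    have h2 : ‖zr k r t‖ ^ 2 ≤ A * ‖Gr k 1 r t‖ ^ 2 := by
      rw [hA, ← mul_pow]; gcongr
    have h3 : (1:ℝ) ≤ Real.exp (r ^ 2 / 4) := Real.one_le_exp (by positivity)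
    have h4 : 0 ≤ Real.exp (-(t - T) ^ 2 / 4) * (A * ‖Gr k 1 r t‖ ^ 2) := by positivity
    calc _ ≤ Real.exp (-(t - T) ^ 2 / 4) * (A * ‖Gr k 1 r t‖ ^ 2) := by gcongr
      _ ≤ Real.exp (r ^ 2 / 4) * (Real.exp (-(t - T) ^ 2 / 4) * (A * ‖Gr k 1 r t‖ ^ 2)) :=
          le_mul_of_one_le_left h4 h3
      _ = _ := by ring
  have i2 : ∫ t, ‖Ln (gf k T) 0 t‖ ^ 2 ≤ B (zr k 0) T := by
    unfold B
    refine integral_mono (Ln_dec hst le_rfl (by norm_num)).sq (Bz_int k le_rfl (by norm_num) T) fun t => ?_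
    simp only
    rw [Ln_gf_norm]
    have h1 := Gr_le k 1 (le_refl (0:ℝ)) (by norm_num) t
    have e : Real.exp ((0:ℝ) ^ 2 / 4) = 1 := by norm_num
    rw [e, one_mul]
    gcongr
  have i3 : ∫ t, ‖Ln (gf k T) 1 t‖ ^ 2 ≤ Z := by
    have h0 : ∀ t, ‖Ln (gf k T) 1 t‖ ^ 2 ≤ Real.exp (1 / 4) * C1 ^ 2 * Real.exp (-(t - T) ^ 2 / 4) := by
      intro t
      rw [Ln_gf_norm]
      have h1 : ‖Gr k 1 1 t‖ ≤ C1 := by
        have := hb t
        unfold Gr
        push_cast at this ⊢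
        exact this
      have e : ((1:ℝ) ^ 2 / 4) = 1 / 4 := by norm_num
      rw [e]
      calc _ ≤ Real.exp (1 / 4) * (Real.exp (-(t - T) ^ 2 / 4) * C1 ^ 2) := by gcongr
        _ = _ := by ring
    have i4 : Integrable (fun t : ℝ => Real.exp (-(t - T) ^ 2 / 4)) := g_int4.comp_sub_right T
    calc _ ≤ ∫ t, Real.exp (1 / 4) * C1 ^ 2 * Real.exp (-(t - T) ^ 2 / 4) :=
          integral_mono (Ln_dec hst (by norm_num) le_rfl).sq (i4.const_mul _) h0
      _ = Real.exp (1 / 4) * C1 ^ 2 * ∫ t, Real.exp (-t ^ 2 / 4) := by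
          rw [integral_const_mul, integral_sub_right_eq_self (fun t : ℝ => Real.exp (-t ^ 2 / 4)) T]
      _ ≤ Real.exp (1 / 4) * C1 ^ 2 * 4 := by
          have := g_val4
          gcongr
      _ = _ := by rw [hZ]; ring
  have hB0 := B_nonneg (zr k 0) T
  calc _ ≤ A * ∫ t, ‖Ln (gf k T) r t‖ ^ 2 := i1
    _ ≤ A * (B (zr k 0) T + Z) := by gcongr; linarith
    _ ≤ _ := by
        rw [mul_assoc]
        refine mul_le_mul_of_nonneg_left ?_ (by linarith)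
        nlinarith

end

end Pool.Agent.J4.H44.OL
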