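import Pool.Agent.J4.H44.OL.Co

set_option autoImplicit false

/-! Correlations of zeta off the line against correlations of the smoothed function. -/

namespace Pool.Agent.J4.H44.OL

open Complex MeasureTheory Filter Topology Set Pool.Agent.TH535.SM Pool.Agent.R446.KR
open scoped FourierTransform ComplexConjugate

noncomputable section

variable {k : ℕ}

lemma zr_sc (k : ℕ) {r : ℝ} (hr : r ≤ 1 / 4) : Continuous (fun t => ‖zr k r t‖ ^ 2) := (zr_cont k hr).norm.pow 2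

lemma Bz0_int (k : ℕ) {r : ℝ} (hr0 : 0 ≤ r) (hr : r ≤ 1 / 4) :
    Integrable (fun t : ℝ => Real.exp (-t ^ 2 / 4) * ‖zr k r t‖ ^ 2) := by
  have := Bz_int k hr0 hr 0
  simpa only [sub_zero] using this

/-- the error integral -/
def OmR (k : ℕ) (r T : ℝ) : ℝ := ∫ t, Wr T r t * ‖zr k r t‖ ^ 2

lemma OmR_int (k : ℕ) {r : ℝ} (hr0 : 0 ≤ r) (hr : r ≤ 1 / 4) (T : ℝ) :
    Integrable (fun t => Wr T r t * ‖zr k r t‖ ^ 2) := by
  have h3 : Integrable (fun t => ind T t * (((1 + |t|) ^ 2)⁻¹ * ‖zr k r t‖ ^ 2)) := by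
    refine ind_bd ?_
    refine Continuous.mul ?_ (zr_sc k hr)
    refine Continuous.inv₀ (by fun_prop) (fun t => ?_)
    have := abs_nonneg t
    positivity
  have h4 : Integrable (fun t => r ^ 2 * (ind T t * ‖zr k r t‖ ^ 2)) := (ind_bd (zr_sc k hr)).const_mul _
  refine ((((Bz0_int k hr0 hr).add (Bz_int k hr0 hr T)).add h3).add h4).congr
    (Eventually.of_forall fun t => ?_)
  simp only [Pi.add_apply]
  unfold Wr Wq
  ring

lemma OmR_nonneg (k : ℕ) (r T : ℝ) : 0 ≤ OmR k r T :=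
  integral_nonneg fun t => mul_nonneg (Wr_nonneg T r t) (by positivity)

lemma Mr_bd (k : ℕ) (S : ℝ) (hS : 0 ≤ S) : ∃ C : ℝ, 0 ≤ C ∧ ∀ r : ℝ, 0 ≤ r → r ≤ 1 / 4 →
    M (zr k r) S ≤ C := by
  obtain ⟨C, p, hC, hb⟩ := zr_bd k
  refine ⟨C * (1 + S) ^ p * S, by positivity, fun r hr0 hr => ?_⟩
  unfold M
  have h : ∫ t in (0:ℝ)..S, ‖zr k r t‖ ^ 2 ≤ ∫ t in (0:ℝ)..S, C * (1 + S) ^ p := by
    refine intervalIntegral.integral_mono_on hS ((zr_sc k hr).intervalIntegrable _ _)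
      (by simp) fun t ht => ?_
    refine (hb r hr0 hr t).trans ?_
    have : |t| ≤ S := by rw [abs_of_nonneg ht.1]; exact ht.2
    gcongr
  refine h.trans (le_of_eq ?_)
  rw [intervalIntegral.integral_const, sub_zero, smul_eq_mul]
  ring

lemma Br0_bd (k : ℕ) : ∃ C : ℝ, 0 ≤ C ∧ ∀ r : ℝ, 0 ≤ r → r ≤ 1 / 4 → B (zr k r) 0 ≤ C := by
  obtain ⟨C, hC, h⟩ := B_off k
  have := B_nonneg (zr k 0) 0
  exact ⟨C * (1 + B (zr k 0) 0), by positivity, fun r hr0 hr => h r hr0 hr 0⟩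

lemma OmR_le (k : ℕ) {ε : ℝ} (hε : 0 < ε) : ∃ C T0 : ℝ, 0 ≤ C ∧ 1 ≤ T0 ∧ ∀ T : ℝ, T0 ≤ T →
    ∀ r : ℝ, 0 ≤ r → r ≤ 1 / 4 → r ^ 2 ≤ ε / 2 →
    OmR k r T ≤ ε * M (zr k r) T + C + B (zr k r) T := by
  obtain ⟨S, hS⟩ := exists_nat_gt ((ε / 2)⁻¹)
  have hS0 : (0:ℝ) < S := lt_trans (by positivity) hS
  have hS1 : (1:ℝ) ≤ S := by
    have : 0 < S := by exact_mod_cast hS0
    exact_mod_cast this
  obtain ⟨C1, hC1, hm⟩ := Mr_bd k S hS0.le
  obtain ⟨C2, hC2, hb0⟩ := Br0_bd k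
  refine ⟨C2 + C1, S, by positivity, hS1, fun T hT r hr0 hr hr2 => ?_⟩
  have hT0 : 0 ≤ T := by linarith
  have hsc := zr_sc k hr
  have hc3 : Continuous (fun t : ℝ => ((1 + |t|) ^ 2)⁻¹ * ‖zr k r t‖ ^ 2) := by
    refine Continuous.mul ?_ hsc
    refine Continuous.inv₀ (by fun_prop) (fun t => ?_)
    have := abs_nonneg t
    positivity
  have e : OmR k r T = B (zr k r) 0 + B (zr k r) T + (∫ t in (0:ℝ)..T, ((1 + |t|) ^ 2)⁻¹ * ‖zr k r t‖ ^ 2) +
      r ^ 2 * M (zr k r) T := by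
    rw [B0_eq]
    unfold OmR B M
    rw [← ind_val hT0, ← ind_val hT0, ← integral_const_mul, ← integral_add (Bz0_int k hr0 hr) (Bz_int k hr0 hr T),
      ← integral_add (iadd (Bz0_int k hr0 hr) (Bz_int k hr0 hr T)) (ind_bd hc3),
      ← integral_add (iadd (iadd (Bz0_int k hr0 hr) (Bz_int k hr0 hr T)) (ind_bd hc3))
        ((ind_bd hsc).const_mul _)]
    refine integral_congr_ae (Eventually.of_forall fun t => ?_)
    simp only
    unfold Wr Wq
    ring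
  rw [e]
  have hM0 : 0 ≤ M (zr k r) T := M_nonneg _ hT0
  have h3 : ∫ t in (0:ℝ)..T, ((1 + |t|) ^ 2)⁻¹ * ‖zr k r t‖ ^ 2 ≤ M (zr k r) S + ε / 2 * M (zr k r) T := by
    rw [← intervalIntegral.integral_add_adjacent_intervals (a := 0) (b := (S:ℝ)) (c := T)
      (hc3.intervalIntegrable _ _) (hc3.intervalIntegrable _ _)]
    have h4 : ∫ t in (0:ℝ)..S, ((1 + |t|) ^ 2)⁻¹ * ‖zr k r t‖ ^ 2 ≤ M (zr k r) S := by
      refine intervalIntegral.integral_mono_on hS0.le (hc3.intervalIntegrable _ _)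
        (hsc.intervalIntegrable _ _) fun t _ => ?_
      have : ((1 + |t|) ^ 2)⁻¹ ≤ 1 := by
        refine inv_le_one_of_one_le₀ (one_le_pow₀ ?_)
        have := abs_nonneg t
        linarith
      have h0 : 0 ≤ ‖zr k r t‖ ^ 2 := by positivity
      nlinarith
    have h5 : ∫ t in (S:ℝ)..T, ((1 + |t|) ^ 2)⁻¹ * ‖zr k r t‖ ^ 2 ≤ ∫ t in (S:ℝ)..T, ε / 2 * ‖zr k r t‖ ^ 2 := by
      refine intervalIntegral.integral_mono_on hT (hc3.intervalIntegrable _ _)
        ((hsc.const_mul (ε / 2) |>.intervalIntegrable _ _)) fun t ht => ?_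
      have h6 : ((1 + |t|) ^ 2)⁻¹ ≤ ε / 2 := by
        rw [inv_le_comm₀ (by positivity) (by positivity)]
        have h7 : (S:ℝ) ≤ |t| := ht.1.trans (le_abs_self t)
        nlinarith
      gcongr
    rw [intervalIntegral.integral_const_mul] at h5
    have h8 : ∫ t in (S:ℝ)..T, ‖zr k r t‖ ^ 2 ≤ M (zr k r) T := by
      unfold M
      rw [← intervalIntegral.integral_add_adjacent_intervals (a := 0) (b := (S:ℝ)) (c := T)
        (hsc.intervalIntegrable _ _) (hsc.intervalIntegrable _ _)]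
      have : 0 ≤ ∫ t in (0:ℝ)..S, ‖zr k r t‖ ^ 2 :=
        intervalIntegral.integral_nonneg hS0.le fun t _ => by positivity
      linarith
    have h9 := mul_le_mul_of_nonneg_left h8 (half_pos hε).le
    linarith
  have h10 := hm r hr0 hr
  have h11 := hb0 r hr0 hr
  have h12 : r ^ 2 * M (zr k r) T ≤ ε / 2 * M (zr k r) T := mul_le_mul_of_nonneg_right hr2 hM0
  linarith

lemma shift_le_r (k : ℕ) {r : ℝ} (hr0 : 0 ≤ r) (hr : r ≤ 1 / 4) {T a : ℝ} (hT : 0 ≤ T) (ha : |a| ≤ 1) :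
    ∫ t, ind T t * ‖zr k r (t + a)‖ ^ 2 ≤
      M (zr k r) T + 2 * (B (zr k r) 0 + B (zr k r) T) := by
  have hsc := zr_sc k hr
  have hc : Continuous (fun t => ‖zr k r (t + a)‖ ^ 2) := hsc.comp (by fun_prop)
  have e1 : M (zr k r) T + 2 * (B (zr k r) 0 + B (zr k r) T) = ∫ t, (ind T (t + a) * ‖zr k r (t + a)‖ ^ 2 +
      2 * (Real.exp (-(t + a) ^ 2 / 4) * ‖zr k r (t + a)‖ ^ 2 +
        Real.exp (-(t + a - T) ^ 2 / 4) * ‖zr k r (t + a)‖ ^ 2)) := by
    have h := integral_add_right_eq_self (μ := volume) (fun t : ℝ => ind T t * ‖zr k r t‖ ^ 2 +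
      2 * (Real.exp (-t ^ 2 / 4) * ‖zr k r t‖ ^ 2 + Real.exp (-(t - T) ^ 2 / 4) * ‖zr k r t‖ ^ 2)) a
    rw [h, integral_add (ind_bd hsc) ((iadd (Bz0_int k hr0 hr) (Bz_int k hr0 hr T)).const_mul 2),
      integral_const_mul, integral_add (Bz0_int k hr0 hr) (Bz_int k hr0 hr T), ind_val hT, B0_eq]
    rfl
  rw [e1]
  refine integral_mono (ind_bd hc) ?_ fun t => ?_
  · have h := ((ind_bd (T := T) hsc).add (((Bz0_int k hr0 hr).add (Bz_int k hr0 hr T)).const_mul 2)).comp_add_right a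
    exact h
  · have hd := ind_diff (T := T) (t := t) ha
    have h0 := ind_nonneg T t
    have h1 := ind_le T t
    have h2 := ind_nonneg T (t + a)
    have h3 : ind T t ≤ ind T (t + a) + (ind T (t + a) - ind T t) ^ 2 := by
      by_cases hx : t ∈ Icc 0 T
      · rw [ind_mem hx]
        by_cases hy : t + a ∈ Icc 0 T
        · rw [ind_mem hy]; norm_num
        · rw [ind_not hy]; norm_num
      · rw [ind_not hx]
        positivity
    have h4 : 0 ≤ ‖zr k r (t + a)‖ ^ 2 := by positivity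
    simp only
    nlinarith [mul_le_mul_of_nonneg_right (h3.trans (add_le_add_right hd _)) h4]

lemma ind_mul_self (T t : ℝ) : ind T t * ind T t = ind T t := by
  by_cases h : t ∈ Icc 0 T
  · rw [ind_mem h]; ring
  · rw [ind_not h]; ring

lemma Cor_ind {z : ℝ → ℂ} {a T : ℝ} (hT : 0 ≤ T) :
    Cor z a T = ∫ t, (ind T t * z (t + a)) * conj ((ind T t : ℂ) * z (t + -a)) := by
  unfold Cor
  rw [intervalIntegral.integral_of_le hT, ← integral_Icc_eq_integral_Ioc, ← integral_indicator measurableSet_Icc]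
  refine integral_congr_ae (Eventually.of_forall fun t => ?_)
  simp only
  rw [map_mul, Complex.conj_ofReal]
  by_cases h : t ∈ Icc 0 T
  · rw [indicator_of_mem h, ind_mem h]; simp
  · rw [indicator_of_notMem h, ind_not h]; simp

/-- the basic comparison -/
theorem diff_le (k : ℕ) {u : ℕ} (hu : 1 ≤ u) : ∃ C : ℝ, 1 ≤ C ∧ ∀ T : ℝ, 1 ≤ T → ∀ r : ℝ, 0 ≤ r → r ≤ 1 / 4 →
    ∀ a : ℝ, |a| ≤ 1 → ∀ δ : ℝ, 0 < δ →
    ‖Cr (Fn (H k u) T r) a - Cor (zr k r) a T‖ ≤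
      δ * (M (zr k r) T + 2 * (B (zr k r) 0 + B (zr k r) T)) + (δ⁻¹ + 1) * (C * OmR k r T) := by
  obtain ⟨C, hC, hcl⟩ := close_r k (u := u)
  refine ⟨C, hC, fun T hT r hr0 hr a ha δ hδ => ?_⟩
  have hT0 : 0 ≤ T := by linarith
  have hu1 : (1:ℝ) ≤ u := by exact_mod_cast hu
  have hdec : Dec (Fn (H k u) T r) := Fn_dec (H_PG k hu) hT (by linarith) (by linarith)
  set F := Fn (H k u) T r with hF
  have hsc := zr_sc k hr
  have hzc := zr_cont k hr
  have hcp : ∀ b : ℝ, Continuous (fun t => ‖zr k r (t + b)‖ ^ 2) := fun b => hsc.comp (by fun_prop)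
  have hna : |-a| ≤ 1 := by rwa [abs_neg]
  have iz : Integrable (fun t => (ind T t * zr k r (t + a)) * conj ((ind T t : ℂ) * zr k r (t + -a))) := by
    have h1 : Integrable (fun t => ind T t * (‖zr k r (t + a)‖ ^ 2 + ‖zr k r (t + -a)‖ ^ 2)) :=
      ind_bd ((hcp a).add (hcp (-a)))
    refine h1.mono' ?_ (Eventually.of_forall fun t => ?_)
    · have hm := (ind_meas T).complex_ofReal
      have m1 : AEStronglyMeasurable (fun t => (ind T t : ℂ) * zr k r (t + a)) volume :=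
        (hm.mul (hzc.comp (by fun_prop : Continuous fun t : ℝ => t + a)).measurable).aestronglyMeasurable
      have m2 : AEStronglyMeasurable (fun t => conj ((ind T t : ℂ) * zr k r (t + -a))) volume :=
        (Complex.continuous_conj.measurable.comp
          (hm.mul (hzc.comp (by fun_prop : Continuous fun t : ℝ => t + -a)).measurable)).aestronglyMeasurable
      exact m1.mul m2
    · have h0 := ind_nonneg T t
      rw [norm_mul, RCLike.norm_conj, norm_mul, norm_mul, Complex.norm_real, Real.norm_of_nonneg h0]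
      have e : ind T t * ‖zr k r (t + a)‖ * (ind T t * ‖zr k r (t + -a)‖) =
        (ind T t * ind T t) * (‖zr k r (t + a)‖ * ‖zr k r (t + -a)‖) := by ring
      rw [e, ind_mul_self]
      refine mul_le_mul_of_nonneg_left ?_ h0
      nlinarith [sq_nonneg (‖zr k r (t + a)‖ - ‖zr k r (t + -a)‖), sq_nonneg ‖zr k r (t + a)‖,
        sq_nonneg ‖zr k r (t + -a)‖]
  rw [Cor_ind hT0]
  unfold Cr
  rw [← integral_sub (Cr_int hdec a) iz]
  have j1 := (OmR_int k hr0 hr T).comp_add_right a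
  have j2 := (OmR_int k hr0 hr T).comp_add_right (-a)
  have q1 : Integrable (fun t => ind T t * ‖zr k r (t + a)‖ ^ 2) := ind_bd (hcp a)
  have q2 : Integrable (fun t => ind T t * ‖zr k r (t + -a)‖ ^ 2) := ind_bd (hcp (-a))
  have hmaj : Integrable (fun t => δ / 2 * (ind T t * ‖zr k r (t + a)‖ ^ 2 + ind T t * ‖zr k r (t + -a)‖ ^ 2) +
      ((δ⁻¹ + 1) / 2 * C) * (Wr T r (t + a) * ‖zr k r (t + a)‖ ^ 2 + Wr T r (t + -a) * ‖zr k r (t + -a)‖ ^ 2)) :=
    iadd ((iadd q1 q2).const_mul _) ((iadd j1 j2).const_mul _)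
  refine (norm_integral_le_of_norm_le hmaj (Eventually.of_forall fun t => ?_)).trans ?_
  · have c1 := hcl T hT r hr0 hr t a ha
    have c2 := hcl T hT r hr0 hr t (-a) hna
    rw [← hF] at c1 c2
    set E1 := F (t + a) - (ind T t : ℂ) * zr k r (t + a) with hE1
    set E2 := F (t + -a) - (ind T t : ℂ) * zr k r (t + -a) with hE2
    set z1 := (ind T t : ℂ) * zr k r (t + a) with hz1
    set z2 := (ind T t : ℂ) * zr k r (t + -a) with hz2
    have e : F (t + a) * conj (F (t + -a)) - z1 * conj z2 = E1 * conj z2 + z1 * conj E2 + E1 * conj E2 := by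
      have e1 : F (t + a) = E1 + z1 := by rw [hE1]; ring
      have e2 : F (t + -a) = E2 + z2 := by rw [hE2]; ring
      rw [e1, e2, map_add]
      ring
    rw [e]
    have n1 : ‖z1‖ ^ 2 = ind T t * ‖zr k r (t + a)‖ ^ 2 := ind_sq T t _
    have n2 : ‖z2‖ ^ 2 = ind T t * ‖zr k r (t + -a)‖ ^ 2 := ind_sq T t _
    rw [← n1, ← n2]
    have g1 : ‖E1 * conj z2‖ = ‖E1‖ * ‖z2‖ := by rw [norm_mul, RCLike.norm_conj]
    have g2 : ‖z1 * conj E2‖ = ‖z1‖ * ‖E2‖ := by rw [norm_mul z1, RCLike.norm_conj]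
    have g3 : ‖E1 * conj E2‖ = ‖E1‖ * ‖E2‖ := by rw [norm_mul, RCLike.norm_conj]
    have g4 : ‖E1 * conj z2 + z1 * conj E2 + E1 * conj E2‖ ≤ ‖E1‖ * ‖z2‖ + ‖z1‖ * ‖E2‖ + ‖E1‖ * ‖E2‖ := by
      have := norm_add_le (E1 * conj z2 + z1 * conj E2) (E1 * conj E2)
      have := norm_add_le (E1 * conj z2) (z1 * conj E2)
      linarith
    refine g4.trans ?_
    have am : ∀ x y : ℝ, x * y ≤ δ / 2 * y ^ 2 + δ⁻¹ / 2 * x ^ 2 := by
      intro x y
      have h4 : 0 ≤ (δ * y - x) ^ 2 * δ⁻¹ := by positivity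
      have h5 : (δ * y - x) ^ 2 * δ⁻¹ = δ * y ^ 2 + δ⁻¹ * x ^ 2 - 2 * (x * y) := by
        field_simp
        ring
      linarith
    have a1 := am ‖E1‖ ‖z2‖
    have a2 := am ‖E2‖ ‖z1‖
    have a3 : ‖E1‖ * ‖E2‖ ≤ 1 / 2 * (‖E1‖ ^ 2 + ‖E2‖ ^ 2) := by nlinarith [sq_nonneg (‖E1‖ - ‖E2‖)]
    have hδi : 0 < δ⁻¹ := by positivity
    have c3 : (δ⁻¹ + 1) / 2 * (‖E1‖ ^ 2 + ‖E2‖ ^ 2) ≤ (δ⁻¹ + 1) / 2 *
        (C * (Wr T r (t + a) * ‖zr k r (t + a)‖ ^ 2) + C * (Wr T r (t + -a) * ‖zr k r (t + -a)‖ ^ 2)) :=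
      mul_le_mul_of_nonneg_left (add_le_add c1 c2) (by positivity)
    nlinarith
  · rw [integral_add ((iadd q1 q2).const_mul _) ((iadd j1 j2).const_mul _), integral_const_mul,
      integral_const_mul, integral_add q1 q2, integral_add j1 j2,
      integral_add_right_eq_self (μ := volume) (fun t : ℝ => Wr T r t * ‖zr k r t‖ ^ 2) a,
      integral_add_right_eq_self (μ := volume) (fun t : ℝ => Wr T r t * ‖zr k r t‖ ^ 2) (-a)]
    have s1 := shift_le_r k hr0 hr hT0 ha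
    have s2 := shift_le_r k hr0 hr hT0 hna
    have : ∫ t, Wr T r t * ‖zr k r t‖ ^ 2 = OmR k r T := rfl
    rw [this]
    have s3 := mul_le_mul_of_nonneg_left (add_le_add s1 s2) (by positivity : 0 ≤ δ / 2)
    nlinarith

end

end Pool.Agent.J4.H44.OL
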