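import Pool.Agent.R446.KR.Compl

set_option autoImplicit false

/-! Completeness of exponentials with complex exponents on `[0, K]`. -/

namespace Pool.Agent.J4.H44.OL

open Complex Filter Topology Set

noncomputable section

/-- exponentials `e^{-2 a v}`, `a ∈ A`, approximate all exponentials uniformly on `[0, K]` -/
def CplC (A : Set ℂ) (K : ℝ) : Prop := ∀ (s : ℂ) (ε : ℝ), 0 < ε → ∃ (S : Finset ℂ) (c : ℂ → ℂ), (∀ a ∈ S, a ∈ A) ∧
  ∀ v : ℝ, 0 ≤ v → v ≤ K → ‖cexp (-(2 * s * v)) - ∑ a ∈ S, c a * cexp (-(2 * a * v))‖ ≤ ε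

variable {K : ℝ}

/-- the generator -/
def gg (K : ℝ) : C(Icc (0:ℝ) K, ℂ) := ⟨fun x => -(2 * ((x : ℝ) : ℂ)), by fun_prop⟩

/-- the exponential -/
def eE (K : ℝ) (z : ℂ) : C(Icc (0:ℝ) K, ℂ) := NormedSpace.exp (z • gg K)

lemma eE_apply (K : ℝ) (z : ℂ) (x : Icc (0:ℝ) K) : eE K z x = cexp (-(2 * z * ((x : ℝ) : ℂ))) := by
  unfold eE
  have h := NormedSpace.map_exp (ContinuousMap.evalStarAlgHom ℂ ℂ x)
    (continuous_eval_const x) (z • gg K)
  have h2 : (ContinuousMap.evalStarAlgHom ℂ ℂ x) (NormedSpace.exp (z • gg K)) =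
    (NormedSpace.exp (z • gg K)) x := rfl
  have h3 : (ContinuousMap.evalStarAlgHom ℂ ℂ x) (z • gg K) = -(2 * z * ((x : ℝ) : ℂ)) := by
    change z * (-(2 * ((x : ℝ) : ℂ))) = _
    ring
  rw [← h2, h, h3, ← Complex.exp_eq_exp_ℂ]

lemma eE_deriv (K : ℝ) (Λ : C(Icc (0:ℝ) K, ℂ) →L[ℂ] ℂ) : Differentiable ℂ (fun z => Λ (eE K z)) := by
  intro z
  have h := hasDerivAt_exp_smul_const (gg K) z
  exact (Λ.hasFDerivAt.comp_hasDerivAt z h).differentiableAt

lemma approx_of_memC {A : Set ℂ} {s : ℂ}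
    (h : eE K s ∈ closure (Submodule.span ℂ ((fun a : ℂ => eE K a) '' A) : Set C(Icc (0:ℝ) K, ℂ)))
    {ε : ℝ} (hε : 0 < ε) : ∃ (S : Finset ℂ) (c : ℂ → ℂ), (∀ a ∈ S, a ∈ A) ∧
  ∀ v : ℝ, 0 ≤ v → v ≤ K → ‖cexp (-(2 * s * v)) - ∑ a ∈ S, c a * cexp (-(2 * a * v))‖ ≤ ε := by
  obtain ⟨q, hq, hd⟩ := Metric.mem_closure_iff.1 h ε hε
  obtain ⟨l, hl, rfl⟩ := (Finsupp.mem_span_image_iff_linearCombination ℂ).1 hq
  refine ⟨l.support, l, fun a ha => ?_, fun v hv0 hv => ?_⟩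
  · exact (Finsupp.mem_supported ℂ l).1 hl ha
  have h1 := (ContinuousMap.dist_lt_iff hε).1 hd ⟨v, hv0, hv⟩
  rw [dist_eq_norm] at h1
  refine le_of_eq_of_le ?_ h1.le
  congr 1
  rw [eE_apply, Finsupp.linearCombination_apply, Finsupp.sum, ContinuousMap.coe_sum, Finset.sum_apply]
  congr 1
  refine Finset.sum_congr rfl fun a _ => ?_
  rw [ContinuousMap.coe_smul, Pi.smul_apply, eE_apply, smul_eq_mul]

lemma closure_of_approx {A : Set ℂ} {s : ℂ} (h : ∀ ε : ℝ, 0 < ε → ∃ (S : Finset ℂ) (c : ℂ → ℂ),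
    (∀ a ∈ S, a ∈ A) ∧ ∀ v : ℝ, 0 ≤ v → v ≤ K →
      ‖cexp (-(2 * s * v)) - ∑ a ∈ S, c a * cexp (-(2 * a * v))‖ ≤ ε) :
    eE K s ∈ closure (Submodule.span ℂ ((fun a : ℂ => eE K a) '' A) : Set C(Icc (0:ℝ) K, ℂ)) := by
  rw [Metric.mem_closure_iff]
  intro ε hε
  obtain ⟨S, c, hS, hc⟩ := h (ε / 2) (by positivity)
  refine ⟨∑ a ∈ S, c a • eE K a, Submodule.sum_mem _ fun a ha =>
    Submodule.smul_mem _ _ (Submodule.subset_span ⟨a, hS a ha, rfl⟩), ?_⟩
  refine (ContinuousMap.dist_lt_iff hε).2 fun x => ?_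
  rw [dist_eq_norm, eE_apply, ContinuousMap.coe_sum, Finset.sum_apply]
  refine lt_of_le_of_lt (le_of_eq_of_le ?_ (hc x x.2.1 x.2.2)) (half_lt_self hε)
  congr 2
  refine Finset.sum_congr rfl fun a _ => ?_
  rw [ContinuousMap.coe_smul, Pi.smul_apply, eE_apply, smul_eq_mul]

/-- the span of the exponentials of `A` is dense if it approximates infinitely many exponentials in a
bounded region -/
theorem cplC_of_freq {A A' : Set ℂ} {R : ℝ} (hA : (A' ∩ Metric.closedBall 0 R).Infinite)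
    (h : ∀ s ∈ A', ∀ ε : ℝ, 0 < ε → ∃ (S : Finset ℂ) (c : ℂ → ℂ),
    (∀ a ∈ S, a ∈ A) ∧ ∀ v : ℝ, 0 ≤ v → v ≤ K →
      ‖cexp (-(2 * s * v)) - ∑ a ∈ S, c a * cexp (-(2 * a * v))‖ ≤ ε) : CplC A K := by
  intro α ε hε
  refine approx_of_memC ?_ hε
  by_contra hn
  set p : Submodule ℂ C(Icc (0:ℝ) K, ℂ) := (Submodule.span ℂ ((fun a : ℂ => eE K a) '' A)) with hp
  have h1 : ‖(Submodule.Quotient.mk (eE K α) : C(Icc (0:ℝ) K, ℂ) ⧸ p)‖ ≠ 0 := by
    intro h0
    exact hn ((QuotientAddGroup.norm_mk_eq_zero_iff_mem_closure (S := p.toAddSubgroup)).1 h0)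
  obtain ⟨g, -, hg⟩ := exists_dual_vector ℂ _ h1
  set Λ : C(Icc (0:ℝ) K, ℂ) →L[ℂ] ℂ := g.comp p.mkQL with hΛ
  have hd := eE_deriv K Λ
  have hspan : ∀ f ∈ p, Λ f = 0 := by
    intro f hf
    have h3 : p.mkQL f = 0 := (Submodule.Quotient.mk_eq_zero p).2 hf
    rw [hΛ, ContinuousLinearMap.comp_apply, h3, map_zero]
  have hz : ∀ a ∈ A', Λ (eE K a) = 0 := by
    intro a ha
    have h2 := closure_of_approx (K := K) (h a ha)
    have hcl : IsClosed {f : C(Icc (0:ℝ) K, ℂ) | Λ f = 0} := isClosed_eq Λ.continuous continuous_const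
    exact closure_minimal (s := (p : Set C(Icc (0:ℝ) K, ℂ))) (t := {f | Λ f = 0})
      (fun f hf => hspan f hf) hcl h2
  obtain ⟨x0, -, hx0⟩ := hA.exists_accPt_of_subset_isCompact (isCompact_closedBall 0 R) inter_subset_right
  rw [accPt_iff_frequently_nhdsNE] at hx0
  have hfr : ∃ᶠ z in 𝓝[≠] x0, Λ (eE K z) = 0 := hx0.mono fun x hx => hz x hx.1
  have hall := (hd.differentiableOn.analyticOnNhd isOpen_univ).eqOn_zero_of_preconnected_of_frequently_eq_zero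
    isPreconnected_univ (mem_univ x0) hfr
  have h4 : Λ (eE K α) = 0 := hall (mem_univ _)
  have h5 : Λ (eE K α) = ((‖(Submodule.Quotient.mk (eE K α) : C(Icc (0:ℝ) K, ℂ) ⧸ p)‖ : ℝ) : ℂ) := hg
  rw [h5] at h4
  exact h1 (by exact_mod_cast h4)

theorem cplC_of_infinite {A : Set ℂ} {R : ℝ} (hA : (A ∩ Metric.closedBall 0 R).Infinite) : CplC A K :=
  cplC_of_freq hA fun s hs ε hε => ⟨{s}, fun _ => 1, by simpa using hs, fun v _ _ => by simp [hε.le]⟩

/-- lattices on the imaginary axis -/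
theorem cplC_of_lattice {A : Set ℂ} {c : ℝ} (hc : 0 < c) (hK : c * K < Real.pi)
    (hA : ∀ m : ℤ, ((c * m : ℝ) : ℂ) * I ∈ A) : CplC A K := by
  have hB := Pool.Agent.R446.KR.cpl_of_lattice (A := {x : ℝ | (x : ℂ) * I ∈ A}) hc hK (fun m => hA m)
  have hinf : ((fun x : ℝ => (x : ℂ) * I) '' (Icc 0 1) ∩ Metric.closedBall 0 1).Infinite := by
    rw [inter_eq_left.2]
    · refine (Set.infinite_image_iff ?_).2 (Icc_infinite (by norm_num))
      intro x _ y _ hxy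
      have := mul_right_cancel₀ Complex.I_ne_zero hxy
      exact_mod_cast this
    · rintro _ ⟨x, hx, rfl⟩
      rw [mem_closedBall_zero_iff, norm_mul, Complex.norm_I, mul_one, Complex.norm_real, Real.norm_eq_abs,
        abs_of_nonneg hx.1]
      exact hx.2
  refine cplC_of_freq hinf ?_
  rintro _ ⟨x, -, rfl⟩ ε hε
  obtain ⟨S, d, hS, hd⟩ := hB x ε hε
  classical
  have hinj : Function.Injective (fun x : ℝ => (x : ℂ) * I) := by
    intro x y hxy
    have := mul_right_cancel₀ Complex.I_ne_zero hxy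
    exact_mod_cast this
  refine ⟨S.image (fun x : ℝ => (x : ℂ) * I), fun a => d a.im * cexp (I * K * (a.im - x)), ?_, fun v hv0 hv => ?_⟩
  · intro a ha
    obtain ⟨y, hy, rfl⟩ := Finset.mem_image.1 ha
    exact hS y hy
  · have h1 := hd (K - 2 * v) (abs_le.2 ⟨by linarith, by linarith⟩)
    rw [Finset.sum_image (fun _ _ _ _ h => hinj h)]
    have e0 : ‖cexp (I * K * x)‖ = 1 := by
      have : (I * K * x : ℂ) = ((K * x : ℝ) : ℂ) * I := by push_cast; ring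
      rw [this, Complex.norm_exp_ofReal_mul_I]
    have e1 : cexp (I * K * x) * (cexp (-(2 * ((x : ℂ) * I) * v)) -
        ∑ y ∈ S, d (((y : ℂ) * I).im) * cexp (I * K * ((((y : ℂ) * I).im : ℝ) - x)) * cexp (-(2 * ((y : ℂ) * I) * v))) =
        cexp (I * x * ((K - 2 * v : ℝ) : ℂ)) - ∑ a ∈ S, d a * cexp (I * a * ((K - 2 * v : ℝ) : ℂ)) := by
      rw [mul_sub, ← Complex.exp_add, Finset.mul_sum]
      congr 1
      · congr 1; push_cast; ring
      · refine Finset.sum_congr rfl fun y _ => ?_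
        have e2 : ((y : ℂ) * I).im = y := by simp
        rw [e2]
        have e3 : I * y * ((K - 2 * v : ℝ) : ℂ) = I * K * x + (I * K * (y - x) + -(2 * ((y : ℂ) * I) * v)) := by
          push_cast; ring
        rw [e3, Complex.exp_add, Complex.exp_add]
        ring
    rw [← e1, norm_mul, e0, one_mul] at h1
    exact h1

/-- arithmetic progressions of positive exponents tending to infinity -/
theorem cplC_of_progression {A : Set ℂ} {c : ℝ} (hc : 0 < c) {m0 : ℕ}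
    (hA : ∀ m : ℕ, m0 ≤ m → ((c * m : ℝ) : ℂ) ∈ A) : CplC A K := by
  intro s ε hε
  set g : ℝ → ℂ := fun y => cexp (-(2 * (s - (c * m0 : ℝ)) * ((-(Real.log y) / (2 * c) : ℝ) : ℂ))) with hg
  set y0 : ℝ := Real.exp (-(2 * c * max K 0)) with hy0
  have hy0p : 0 < y0 := Real.exp_pos _
  have hgc : ContinuousOn g (Icc y0 1) := by
    have h1 : ContinuousOn Real.log (Icc y0 1) := Real.continuousOn_log.mono fun y hy => by
      have : 0 < y := lt_of_lt_of_le hy0p hy.1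
      exact this.ne'
    have h2 : ContinuousOn (fun y => ((-(Real.log y) / (2 * c) : ℝ) : ℂ)) (Icc y0 1) :=
      Complex.continuous_ofReal.comp_continuousOn ((h1.neg).div_const _)
    exact Complex.continuous_exp.comp_continuousOn ((continuousOn_const.mul h2).neg)
  obtain ⟨p, hp⟩ := exists_polynomial_near_of_continuousOn y0 1 (fun y => (g y).re)
    (Complex.continuous_re.comp_continuousOn hgc) (ε / 2) (by positivity)
  obtain ⟨q, hq⟩ := exists_polynomial_near_of_continuousOn y0 1 (fun y => (g y).im)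
    (Complex.continuous_im.comp_continuousOn hgc) (ε / 2) (by positivity)
  classical
  set n : ℕ := max p.natDegree q.natDegree + 1 with hn
  have hpn : p.natDegree < n := by rw [hn]; exact Nat.lt_succ_of_le (le_max_left _ _)
  have hqn : q.natDegree < n := by rw [hn]; exact Nat.lt_succ_of_le (le_max_right _ _)
  have hinj : Function.Injective (fun i : ℕ => ((c * ((m0 + i : ℕ) : ℝ) : ℝ) : ℂ)) := by
    intro i j h
    simp only at h
    have h1 : c * ((m0 + i : ℕ) : ℝ) = c * ((m0 + j : ℕ) : ℝ) := by exact_mod_cast h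
    have h2 := mul_left_cancel₀ hc.ne' h1
    have h3 : m0 + i = m0 + j := by exact_mod_cast h2
    omega
  refine ⟨(Finset.range n).image (fun i : ℕ => ((c * ((m0 + i : ℕ) : ℝ) : ℝ) : ℂ)),
    fun a => ((p.coeff (⌊a.re / c + 1 / 2⌋₊ - m0) : ℝ) : ℂ) + ((q.coeff (⌊a.re / c + 1 / 2⌋₊ - m0) : ℝ) : ℂ) * I,
    ?_, fun v hv0 hv => ?_⟩
  · intro a ha
    obtain ⟨i, -, rfl⟩ := Finset.mem_image.1 ha
    exact hA _ (by omega)
  rw [Finset.sum_image (fun _ _ _ _ h => hinj h)]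
  set y : ℝ := Real.exp (-(2 * c * v)) with hy
  have hyI : y ∈ Icc y0 1 := by
    constructor
    · rw [hy, hy0]
      refine Real.exp_le_exp.2 ?_
      have : v ≤ max K 0 := hv.trans (le_max_left _ _)
      have := mul_le_mul_of_nonneg_left this (by positivity : 0 ≤ 2 * c)
      linarith
    · rw [hy, Real.exp_le_one_iff]
      have : 0 ≤ 2 * c * v := by positivity
      linarith
  have hlog : -(Real.log y) / (2 * c) = v := by
    rw [hy, Real.log_exp]; field_simp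
  have e1 : cexp (-(2 * s * v)) = cexp (-(2 * (c * m0 : ℝ) * v)) * g y := by
    rw [hg]
    simp only
    rw [hlog, ← Complex.exp_add]
    congr 1; push_cast; ring
  have hfl : ∀ i : ℕ, ⌊(((c * ((m0 + i : ℕ) : ℝ) : ℝ) : ℂ)).re / c + 1 / 2⌋₊ - m0 = i := by
    intro i
    rw [Complex.ofReal_re, mul_div_cancel_left₀ _ hc.ne']
    have : ⌊((m0 + i : ℕ) : ℝ) + 1 / 2⌋₊ = m0 + i := by
      rw [Nat.floor_eq_iff (by positivity)]
      constructor <;> linarith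
    rw [this]; omega
  have e2 : ∑ i ∈ Finset.range n, (((p.coeff (⌊(((c * ((m0 + i : ℕ) : ℝ) : ℝ) : ℂ)).re / c + 1 / 2⌋₊ - m0) : ℝ) : ℂ) +
      ((q.coeff (⌊(((c * ((m0 + i : ℕ) : ℝ) : ℝ) : ℂ)).re / c + 1 / 2⌋₊ - m0) : ℝ) : ℂ) * I) *
      cexp (-(2 * ((c * ((m0 + i : ℕ) : ℝ) : ℝ) : ℂ) * v)) =
      cexp (-(2 * (c * m0 : ℝ) * v)) * (((p.eval y : ℝ) : ℂ) + ((q.eval y : ℝ) : ℂ) * I) := by
    rw [Polynomial.eval_eq_sum_range' hpn, Polynomial.eval_eq_sum_range' hqn]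
    push_cast
    rw [Finset.sum_mul, ← Finset.sum_add_distrib, Finset.mul_sum]
    refine Finset.sum_congr rfl fun i _ => ?_
    have h3 := hfl i
    push_cast at h3
    rw [h3]
    have e3 : cexp (-(2 * ((c : ℂ) * ((m0 : ℂ) + i)) * v)) = cexp (-(2 * ((c : ℂ) * m0) * v)) * (y : ℂ) ^ i := by
      rw [hy, Complex.ofReal_exp, ← Complex.exp_nat_mul, ← Complex.exp_add]
      congr 1; push_cast; ring
    rw [e3]
    ring
  rw [e1, e2, ← mul_sub, norm_mul]
  have hn1 : ‖cexp (-(2 * (c * m0 : ℝ) * v))‖ ≤ 1 := by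
    rw [Complex.norm_exp, Real.exp_le_one_iff]
    have : (-(2 * ((c * m0 : ℝ) : ℂ) * (v : ℂ))) = ((-(2 * (c * m0) * v) : ℝ) : ℂ) := by push_cast; ring
    rw [this, Complex.ofReal_re]
    have : 0 ≤ 2 * (c * m0) * v := by positivity
    linarith
  have h5 := hp y hyI
  have h6 := hq y hyI
  have h7 : ‖g y - (((p.eval y : ℝ) : ℂ) + ((q.eval y : ℝ) : ℂ) * I)‖ ≤ ε := by
    refine (Complex.norm_le_abs_re_add_abs_im _).trans ?_
    have r1 : (g y - (((p.eval y : ℝ) : ℂ) + ((q.eval y : ℝ) : ℂ) * I)).re = (g y).re - p.eval y := by simp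
    have r2 : (g y - (((p.eval y : ℝ) : ℂ) + ((q.eval y : ℝ) : ℂ) * I)).im = (g y).im - q.eval y := by simp
    rw [r1, r2, abs_sub_comm, abs_sub_comm ((g y).im)]
    linarith
  calc _ ≤ 1 * ‖g y - (((p.eval y : ℝ) : ℂ) + ((q.eval y : ℝ) : ℂ) * I)‖ := by gcongr
    _ ≤ ε := by rw [one_mul]; exact h7

end

end Pool.Agent.J4.H44.OL
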