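import Pool.Agent.J4.H44.OL.Vc

set_option autoImplicit false

/-! Powers of zeta on the lines `Re s = 1/2 + r`. -/

namespace Pool.Agent.J4.H44.OL

open Complex MeasureTheory Filter Topology Set Pool.Agent.TH535.SM
open scoped FourierTransform ComplexConjugate

noncomputable section

/-- the `k`-th power of zeta on the line `Re s = 1/2 + r` -/
def zr (k : ℕ) (r t : ℝ) : ℂ := riemannZeta (((1 / 2 + r : ℝ) : ℂ) + t * I) ^ k

/-- the companion on the same line -/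
def Gr (k u : ℕ) (r t : ℝ) : ℂ := H k u (((1 / 2 + r : ℝ) : ℂ) + t * I)

lemma line_re (r t : ℝ) : (((1 / 2 + r : ℝ) : ℂ) + t * I).re = 1 / 2 + r := by simp
lemma line_im (r t : ℝ) : (((1 / 2 + r : ℝ) : ℂ) + t * I).im = t := by simp

lemma line_ne1 {r : ℝ} (hr : r ≤ 1 / 4) (t : ℝ) : (((1 / 2 + r : ℝ) : ℂ) + t * I) ≠ 1 := by
  intro h
  have := congrArg Complex.re h
  rw [line_re, one_re] at this
  linarith

lemma zr_cont (k : ℕ) {r : ℝ} (hr : r ≤ 1 / 4) : Continuous (zr k r) := by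
  unfold zr
  refine Continuous.pow ?_ k
  rw [continuous_iff_continuousAt]
  intro t
  have h := (differentiableAt_riemannZeta (line_ne1 hr t)).continuousAt
  exact ContinuousAt.comp (f := fun t : ℝ => (((1 / 2 + r : ℝ) : ℂ) + t * I)) h (by fun_prop)

/-- the quotient -/
def bq (u : ℕ) (s : ℂ) : ℂ := (s - 1) / (s + (2 * u + 1 : ℕ))

lemma Gr_eq (k u : ℕ) {r : ℝ} (hr : r ≤ 1 / 4) (t : ℝ) :
    Gr k u r t = bq u (((1 / 2 + r : ℝ) : ℂ) + t * I) ^ k * zr k r t := by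
  unfold Gr zr H bq
  rw [Y_eq (line_ne1 hr t), ← mul_pow]
  congr 1; ring

lemma bq_le (u : ℕ) {r : ℝ} (hr0 : 0 ≤ r) (t : ℝ) :
    ‖bq u (((1 / 2 + r : ℝ) : ℂ) + t * I)‖ ≤ 1 := by
  have h0 : (0:ℝ) ≤ u := Nat.cast_nonneg u
  have hd1 := den_norm (u := u) (s := (((1 / 2 + r : ℝ) : ℂ) + t * I)) (by rw [line_re]; linarith)
  unfold bq
  rw [norm_div, div_le_one (by linarith)]
  exact ratio_le (by rw [line_re]; linarith)

lemma Gr_le (k u : ℕ) {r : ℝ} (hr0 : 0 ≤ r) (hr : r ≤ 1 / 4) (t : ℝ) : ‖Gr k u r t‖ ≤ ‖zr k r t‖ := by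
  rw [Gr_eq k u hr, norm_mul, norm_pow]
  have := pow_le_one₀ (n := k) (norm_nonneg _) (bq_le u hr0 t)
  exact mul_le_of_le_one_left (norm_nonneg _) this

lemma zr_le_Gr (k u : ℕ) {r : ℝ} (hr0 : 0 ≤ r) (hr : r ≤ 1 / 4) (t : ℝ) :
    ‖zr k r t‖ ≤ (8 * u + 9 : ℝ) ^ k * ‖Gr k u r t‖ := by
  set s : ℂ := (((1 / 2 + r : ℝ) : ℂ) + t * I) with hs
  have h0 : (0:ℝ) ≤ u := Nat.cast_nonneg u
  have hd1 := den_norm (u := u) (s := s) (by rw [hs, line_re]; linarith)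
  have hs1 : 1 / 4 ≤ ‖s - 1‖ := by
    have h1 := Complex.abs_re_le_norm (s - 1)
    rw [Complex.sub_re, hs, line_re, one_re, abs_of_nonpos (by linarith)] at h1
    linarith
  have hs2 : ‖s + (2 * u + 1 : ℕ)‖ ≤ (8 * u + 9 : ℝ) * ‖s - 1‖ := by
    have e : s + (2 * u + 1 : ℕ) = (s - 1) + ((2 * u + 2 : ℕ) : ℂ) := by push_cast; ring
    rw [e]
    refine (norm_add_le _ _).trans ?_
    rw [Complex.norm_natCast]
    push_cast
    nlinarith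
  have hb : 1 ≤ (8 * u + 9 : ℝ) * ‖bq u s‖ := by
    unfold bq
    rw [norm_div, mul_div_assoc', le_div_iff₀ (by linarith), one_mul]
    exact hs2
  rw [Gr_eq k u hr, norm_mul, norm_pow, ← mul_assoc, ← mul_pow]
  have := one_le_pow₀ (n := k) hb
  exact le_mul_of_one_le_left (norm_nonneg _) this

lemma Gr_close (k u : ℕ) : ∃ C : ℝ, 0 ≤ C ∧ ∀ r : ℝ, 0 ≤ r → r ≤ 1 / 4 → ∀ t : ℝ,
    ‖Gr k u r t - zr k r t‖ ≤ C / (1 + |t|) * ‖zr k r t‖ := by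
  refine ⟨k * (2 * (2 * u + 2)), by positivity, fun r hr0 hr t => ?_⟩
  set s : ℂ := (((1 / 2 + r : ℝ) : ℂ) + t * I) with hs
  have h0 : (0:ℝ) ≤ u := Nat.cast_nonneg u
  have hd1 := den_norm (u := u) (s := s) (by rw [hs, line_re]; linarith)
  have hd0 : s + (2 * u + 1 : ℕ) ≠ 0 := norm_pos_iff.1 (by linarith)
  have hb1 : ‖bq u s‖ ≤ 1 := bq_le u hr0 t
  have hb2 : ‖bq u s - 1‖ ≤ 2 * (2 * u + 2) / (1 + |t|) := by
    have e3 : bq u s - 1 = -((2 * u + 2 : ℕ) : ℂ) / (s + (2 * u + 1 : ℕ)) := by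
      unfold bq
      rw [div_sub_one hd0]
      congr 1
      push_cast; ring
    rw [e3, norm_div, norm_neg, Complex.norm_natCast]
    have h4 : (1 + |t|) / 2 ≤ ‖s + (2 * u + 1 : ℕ)‖ := by
      have h5 := Complex.abs_im_le_norm (s + (2 * u + 1 : ℕ))
      rw [den_im, hs, line_im] at h5
      rw [← hs] at h5
      linarith
    have e5 : ((2 * u + 2 : ℕ) : ℝ) = 2 * u + 2 := by push_cast; ring
    rw [e5, div_le_div_iff₀ (by linarith) (by positivity)]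
    nlinarith [mul_le_mul_of_nonneg_left h4 (by linarith : (0:ℝ) ≤ 2 * u + 2)]
  rw [Gr_eq k u hr, ← sub_one_mul, norm_mul]
  refine mul_le_mul_of_nonneg_right ?_ (norm_nonneg _)
  calc _ ≤ k * ‖bq u s - 1‖ := pow_sub_one_le hb1 k
    _ ≤ k * (2 * (2 * u + 2) / (1 + |t|)) := by gcongr
    _ = _ := by ring

/-- polynomial bound, uniform in `r` -/
lemma zr_bd (k : ℕ) : ∃ (C : ℝ) (p : ℕ), 1 ≤ C ∧ ∀ r : ℝ, 0 ≤ r → r ≤ 1 / 4 → ∀ t : ℝ,
    ‖zr k r t‖ ^ 2 ≤ C * (1 + |t|) ^ p := by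
  obtain ⟨C, M, hC, hb⟩ := H_strip k (u := 1) le_rfl
  refine ⟨((8 * (1:ℕ) + 9 : ℝ) ^ k * C) ^ 2, 2 * M, ?_, fun r hr0 hr t => ?_⟩
  · refine one_le_pow₀ (one_le_mul_of_one_le_of_one_le (one_le_pow₀ (by norm_num)) hC)
  have h1 := zr_le_Gr k 1 hr0 hr t
  have h2 := hb (((1 / 2 + r : ℝ) : ℂ) + t * I) (by rw [line_re]; push_cast; linarith)
    (by rw [line_re]; push_cast; linarith)
  rw [line_im] at h2
  have h3 : ‖zr k r t‖ ≤ (8 * (1:ℕ) + 9 : ℝ) ^ k * C * (1 + |t|) ^ M := by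
    refine h1.trans ?_
    rw [mul_assoc]
    have : 0 ≤ (8 * (1:ℕ) + 9 : ℝ) ^ k := by positivity
    exact mul_le_mul_of_nonneg_left h2 this
  calc _ ≤ ((8 * (1:ℕ) + 9 : ℝ) ^ k * C * (1 + |t|) ^ M) ^ 2 := by gcongr
    _ = _ := by rw [mul_pow, ← pow_mul, mul_comm M 2]

end

end Pool.Agent.J4.H44.OL
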