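import Pool.Agent.J4.H44.OL.Tr
import Pool.Agent.J4.H44.OL.Cp
import Pool.Agent.J4.H44.OL.Wc

set_option autoImplicit false

/-! Rigidity of the correlations at complex shifts. -/

namespace Pool.Agent.J4.H44.OL

open Complex MeasureTheory Filter Topology Set Pool.Agent.TH535.SM Pool.Agent.R446.KR
open scoped FourierTransform ComplexConjugate

noncomputable section

def DfC (k : ℕ) (α : ℂ) (S : Finset ℂ) (c : ℂ → ℂ) (T : ℝ) : ℂ :=
  CT k T α - ∑ a ∈ S, c a * CT k T a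

theorem relC1 (k : ℕ) {α : ℂ} (hα : 0 ≤ α.re) {S : Finset ℂ} (hS : ∀ a ∈ S, 0 ≤ a.re) {c : ℂ → ℂ} {Q : ℝ}
    (hQ0 : 0 ≤ Q) (hQ : ∀ v : ℝ, 0 ≤ v → v ≤ k →
      ‖cexp (-(2 * α * v)) - ∑ a ∈ S, c a * cexp (-(2 * a * v))‖ ≤ Q)
    {ε : ℝ} (hε : 0 < ε) : ∃ C T0 : ℝ, 0 ≤ C ∧ 1 < T0 ∧ ∀ T : ℝ, T0 ≤ T →
      ‖DfC k α S c T‖ ≤ (Q + ε) * M (zr k 0) T + C * (1 + B (zr k 0) T) := by
  obtain ⟨C, T0, hC, hT0, h⟩ := trigC k (Finset.insertNone S) (fun o => o.elim α id)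
    (fun o => o.elim 1 (fun a => -c a)) (by
      intro o ho
      rcases o with _ | a
      · exact hα
      · exact hS a (by simpa using ho)) hQ0 (by
      intro v h0 h1
      refine le_of_eq_of_le ?_ (hQ v h0 h1)
      rw [Finset.sum_insertNone]
      simp only [Option.elim_none, Option.elim_some, id, one_mul, neg_mul, Finset.sum_neg_distrib]
      rw [← sub_eq_add_neg]) hε
  refine ⟨C, T0, hC, hT0, fun T hT => ?_⟩
  refine le_of_eq_of_le ?_ (h T hT)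
  rw [Finset.sum_insertNone]
  simp only [Option.elim_none, Option.elim_some, id, one_mul, neg_mul, Finset.sum_neg_distrib]
  rw [← sub_eq_add_neg]
  rfl

theorem relC2 (k : ℕ) {α : ℂ} (hα : 0 ≤ α.re) {S : Finset ℂ} (hS : ∀ a ∈ S, 0 ≤ a.re) {c : ℂ → ℂ} {Q : ℝ}
    (hQ0 : 0 ≤ Q) (hQ : ∀ v : ℝ, 0 ≤ v → v ≤ k →
      ‖cexp (-(2 * α * v)) - ∑ a ∈ S, c a * cexp (-(2 * a * v))‖ ≤ Q)
    {ε : ℝ} (hε : 0 < ε) : ∃ C X0 : ℝ, 0 ≤ C ∧ 1 < X0 ∧ ∀ X : ℝ, X0 ≤ X → ∃ E : Set ℝ,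
      MeasurableSet E ∧ E ⊆ Icc X (2 * X) ∧ (volume : Measure ℝ).real E ≤ C * Real.log X ^ 2 ∧
      ∀ T ∈ Icc X (2 * X), T ∉ E → ‖DfC k α S c T‖ ≤ (Q + ε) * M (zr k 0) T + C := by
  obtain ⟨C1, T0, hC1, hT0, h1⟩ := relC1 k hα hS hQ0 hQ (ε := ε / 2) (by positivity)
  obtain ⟨C2, X0, hC2, hX0, h2⟩ := exc (zk_dat k (u := 1) le_rfl)
    (ε := min 1 (ε / (2 * (C1 + 1)))) (by positivity) (min_le_left _ _)
  refine ⟨max C2 (3 * C1), max T0 X0, le_max_of_le_left hC2, lt_of_lt_of_le hT0 (le_max_left _ _), fun X hX => ?_⟩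
  obtain ⟨E, e1, e2, e3, e4⟩ := h2 X ((le_max_right _ _).trans hX)
  refine ⟨E, e1, e2, e3.trans (mul_le_mul_of_nonneg_right (le_max_left _ _) (by positivity)), fun T hT hTE => ?_⟩
  have hXT : T0 ≤ T := ((le_max_left _ _).trans hX).trans hT.1
  have hM : 0 ≤ M (zr k 0) T := M_nonneg _ (by linarith)
  have h3 := h1 T hXT
  have h4 := e4 T hT hTE
  rw [← zr_zero] at h4
  have h5 : C1 * (1 + B (zr k 0) T) ≤ C1 * (1 + (min 1 (ε / (2 * (C1 + 1))) * M (zr k 0) T + 2)) := by gcongr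
  have h6 : C1 * (min 1 (ε / (2 * (C1 + 1))) * M (zr k 0) T) ≤ ε / 2 * M (zr k 0) T := by
    rw [← mul_assoc]
    refine mul_le_mul_of_nonneg_right ?_ hM
    have h7 : min 1 (ε / (2 * (C1 + 1))) ≤ ε / (2 * (C1 + 1)) := min_le_right _ _
    rw [le_div_iff₀ (by positivity)] at h7
    have h8 : 0 ≤ min 1 (ε / (2 * (C1 + 1))) := by positivity
    nlinarith
  have h9 : 3 * C1 ≤ max C2 (3 * C1) := le_max_right _ _
  calc ‖DfC k α S c T‖ ≤ (Q + ε / 2) * M (zr k 0) T + C1 * (1 + B (zr k 0) T) := h3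
    _ ≤ (Q + ε) * M (zr k 0) T + max C2 (3 * C1) := by linarith

lemma NN_inf (q : ℕ) : Tendsto (NN q) atTop atTop := by
  refine tendsto_atTop_mono' atTop ?_ tendsto_id
  filter_upwards [eventually_ge_atTop (Real.exp 1)] with T hT
  have h1 : 1 ≤ Real.log T := by
    rwa [Real.le_log_iff_exp_le (lt_of_lt_of_le (Real.exp_pos 1) hT)]
  have h2 : (1:ℝ) ≤ Real.log T ^ q := one_le_pow₀ h1
  have h3 : 0 < T := lt_of_lt_of_le (Real.exp_pos 1) hT
  unfold NN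
  simp only [id]
  nlinarith

/-- the moment on the line is bounded if the moments at the points of a complete set are -/
theorem mboundC (k q : ℕ) {A : Set ℂ} (hA : CplC A k) (hAre : ∀ a ∈ A, 0 ≤ a.re) {g : ℂ → ℝ}
    (hb : ∀ a ∈ A, ∀ᶠ T : ℝ in atTop, ‖CT k T a‖ ≤ g a * NN q T) :
    ∃ C : ℝ, 0 ≤ C ∧ ∀ᶠ T : ℝ in atTop, M (zr k 0) T ≤ C * NN q T := by
  obtain ⟨S, c, hS, hc⟩ := hA 0 (1 / 4) (by norm_num)
  obtain ⟨C, X0, hC, hX0, h⟩ := relC2 k (α := 0) (by simp) (fun a ha => hAre a (hS a ha))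
    (by norm_num) hc (ε := 1 / 4) (by norm_num)
  have hev : ∀ᶠ T : ℝ in atTop, ∀ a ∈ S, ‖CT k T a‖ ≤ g a * NN q T :=
    (Filter.eventually_all_finset S).2 fun a ha => hb a (hS a ha)
  obtain ⟨T1, hT1⟩ := eventually_atTop.1 hev
  obtain ⟨T2, hT2⟩ := eventually_atTop.1 (log_sq_small C (δ := 1 / 2) (by norm_num))
  obtain ⟨T3, hT3⟩ := eventually_atTop.1 ((NN_inf q).eventually_ge_atTop 1)
  set b : ℝ := ∑ a ∈ S, ‖c a‖ * |g a| with hbd
  have hb0 : 0 ≤ b := Finset.sum_nonneg fun a _ => by positivity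
  refine ⟨2 * (b + C) * (2 * 2 ^ q), by positivity, ?_⟩
  filter_upwards [eventually_ge_atTop X0, eventually_ge_atTop T1, eventually_ge_atTop T2,
    eventually_ge_atTop T3, eventually_ge_atTop 4] with X a1 a2 a3 a4 a5
  obtain ⟨E, -, e2, e3, e4⟩ := h X a1
  have hEf : volume E ≠ ⊤ := ne_top_of_le_ne_top (by rw [Real.volume_Icc]; exact ENNReal.ofReal_ne_top)
    (measure_mono e2)
  have h5 := hT2 X a3
  obtain ⟨T, hTT, hT, hTE⟩ := exists_good (X := X) (a := X) (b := 2 * X) (m := C * Real.log X ^ 2) e3 hEf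
    (by linarith) le_rfl le_rfl
  have h6 := e4 T hT hTE
  have h7 := hT1 T (a2.trans hT.1)
  have h8 := hT3 T (a4.trans hT.1)
  have hM : 0 ≤ M (zr k 0) T := M_nonneg _ (by linarith [hT.1])
  have h9 : ‖∑ a ∈ S, c a * CT k T a‖ ≤ b * NN q T := by
    rw [hbd, Finset.sum_mul]
    refine (norm_sum_le _ _).trans (Finset.sum_le_sum fun a ha => ?_)
    rw [norm_mul, mul_assoc]
    refine mul_le_mul_of_nonneg_left ((h7 a ha).trans ?_) (norm_nonneg _)
    exact mul_le_mul_of_nonneg_right (le_abs_self _) (by linarith)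
  have h10 : M (zr k 0) T ≤ 2 * (b + C) * NN q T := by
    unfold DfC at h6
    have h11 := norm_sub_norm_le (CT k T 0) (∑ a ∈ S, c a * CT k T a)
    have h12 : ‖CT k T 0‖ = M (zr k 0) T := by
      rw [CT_zero, Complex.norm_real, Real.norm_of_nonneg hM]
    rw [h12] at h11
    have h13 : C ≤ C * NN q T := le_mul_of_one_le_right hC h8
    linarith
  have h13 : M (zr k 0) X ≤ M (zr k 0) T := by
    rw [zr_zero]; exact M_mono (zk_dat k (u := 1) le_rfl) hT.1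
  have h14 : NN q T ≤ NN q (2 * X) := NN_mono q (by linarith [hT.1]) hT.2
  have h15 : NN q (2 * X) ≤ 2 * 2 ^ q * NN q X := by
    unfold NN
    have h16 : Real.log (2 * X) ≤ 2 * Real.log X := by
      rw [Real.log_mul (by norm_num) (by linarith)]
      have := Real.log_le_log (by norm_num) (show (2:ℝ) ≤ X by linarith)
      linarith
    have h17 : 0 ≤ Real.log (2 * X) := Real.log_nonneg (by linarith)
    calc 2 * X * Real.log (2 * X) ^ q ≤ 2 * X * (2 * Real.log X) ^ q := by gcongr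
      _ = 2 * 2 ^ q * (X * Real.log X ^ q) := by rw [mul_pow]; ring
  calc M (zr k 0) X ≤ 2 * (b + C) * NN q T := h13.trans h10
    _ ≤ 2 * (b + C) * (2 * 2 ^ q * NN q X) := by gcongr; exact h14.trans h15
    _ = _ := by ring

/-- combination of the two linear relations -/
lemma combineC (k : ℕ) {G : ℂ → ℂ} (α : ℂ) (S : Finset ℂ) (c : ℂ → ℂ) {N : ℝ} (hN : 0 < N) (T : ℝ) :
    ‖CT k T α / (N : ℂ) - G α‖ ≤ ‖DfC k α S c T‖ / N +
      ‖G α - ∑ a ∈ S, c a * G a‖ + ∑ a ∈ S, ‖c a‖ * ‖CT k T a / (N : ℂ) - G a‖ := by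
  have e : CT k T α / (N : ℂ) - G α =
      DfC k α S c T / (N : ℂ) - (G α - ∑ a ∈ S, c a * G a) + ∑ a ∈ S, c a * (CT k T a / (N : ℂ) - G a) := by
    have e2 : ∑ a ∈ S, c a * (CT k T a / (N : ℂ) - G a) =
        (∑ a ∈ S, c a * CT k T a) / (N : ℂ) - ∑ a ∈ S, c a * G a := by
      rw [Finset.sum_div, ← Finset.sum_sub_distrib]
      exact Finset.sum_congr rfl fun a _ => by ring
    rw [e2]
    unfold DfC
    ring
  rw [e]
  refine (norm_add_le _ _).trans (add_le_add ((norm_sub_le _ _).trans (add_le_add ?_ le_rfl)) ?_)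
  · rw [norm_div, Complex.norm_real, Real.norm_of_nonneg hN.le]
  · refine (norm_sum_le _ _).trans (Finset.sum_le_sum fun a _ => ?_)
    rw [norm_mul]

/-- **rigidity** -/
theorem rigidC (k : ℕ) {q : ℕ} {A : Set ℂ} (hA : CplC A k) (hAre : ∀ a ∈ A, 0 ≤ a.re) {G : ℂ → ℂ} {g : ℝ}
    (hg : 0 ≤ g)
    (hG : ∀ (α : ℂ) (S : Finset ℂ) (c : ℂ → ℂ) (Q : ℝ), 0 ≤ Q → 0 ≤ α.re → (∀ a ∈ S, 0 ≤ a.re) →
      (∀ v : ℝ, 0 ≤ v → v ≤ k → ‖cexp (-(2 * α * v)) - ∑ a ∈ S, c a * cexp (-(2 * a * v))‖ ≤ Q) →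
      ‖G α - ∑ a ∈ S, c a * G a‖ ≤ Q * g)
    (hlim : ∀ a ∈ A, Tendsto (fun T : ℝ => CT k T a / ((NN q T : ℝ) : ℂ)) atTop (𝓝 (G a))) :
    ∀ α : ℂ, 0 ≤ α.re → Tendsto (fun T : ℝ => CT k T α / ((NN q T : ℝ) : ℂ)) atTop (𝓝 (G α)) := by
  obtain ⟨b, hb0, hb⟩ := mboundC k q hA hAre (g := fun a => ‖G a‖ + 1) (by
    intro a ha
    have h1 := (hlim a ha).norm.eventually_lt_const (lt_add_one _)
    filter_upwards [h1, eventually_gt_atTop 1] with T h3 h4
    have hN := NN_pos q h4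
    rw [norm_div, Complex.norm_real, Real.norm_of_nonneg hN.le, div_lt_iff₀ hN] at h3
    exact h3.le)
  have hNinf := NN_inf q
  have hsmall : ∀ (S : Finset ℂ) (c : ℂ → ℂ), (∀ a ∈ S, a ∈ A) → ∀ ε : ℝ, 0 < ε → ∀ᶠ T : ℝ in atTop,
      ∑ a ∈ S, ‖c a‖ * ‖CT k T a / ((NN q T : ℝ) : ℂ) - G a‖ < ε := by
    intro S c hs ε hε
    have h1 : Tendsto (fun T : ℝ => ∑ a ∈ S, ‖c a‖ * ‖CT k T a / ((NN q T : ℝ) : ℂ) - G a‖)
        atTop (𝓝 (∑ a ∈ S, ‖c a‖ * 0)) := by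
      refine tendsto_finsetSum _ fun a ha => ?_
      refine Tendsto.const_mul _ ?_
      exact tendsto_iff_norm_sub_tendsto_zero.1 (hlim a (hs a ha))
    simp only [mul_zero, Finset.sum_const_zero] at h1
    exact h1.eventually_lt_const hε
  have D := zk_dat k (u := 1) le_rfl
  rw [← zr_zero] at D
  have hM0 : Tendsto (fun T => M (zr k 0) T / NN q T) atTop (𝓝 (G 0).re) := by
    refine monotone_step (fun S T _ h => M_mono D h) fun ε hε => ?_
    set η : ℝ := ε / (4 * (2 * b + g + 1)) with hη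
    have hη0 : 0 < η := by positivity
    obtain ⟨S, c, hs, hc⟩ := hA 0 η hη0
    obtain ⟨C, X0, hC, hX0, h1⟩ := relC2 k (α := 0) (by simp) (fun a ha => hAre a (hs a ha)) hη0.le hc hη0
    obtain ⟨T1, hT1⟩ := eventually_atTop.1 (hsmall S c hs (ε / 4) (by positivity))
    obtain ⟨T2, hT2⟩ := eventually_atTop.1 hb
    obtain ⟨T3, hT3⟩ := eventually_atTop.1 (hNinf.eventually_ge_atTop (4 * C / ε))
    refine ⟨C, max (max X0 T1) (max (max T2 T3) 2), fun X hX => ?_⟩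
    have x1 : X0 ≤ X := ((le_max_left _ _).trans (le_max_left _ _)).trans hX
    have x2 : T1 ≤ X := ((le_max_right _ _).trans (le_max_left _ _)).trans hX
    have x3 : T2 ≤ X := (((le_max_left _ _).trans (le_max_left _ _)).trans (le_max_right _ _)).trans hX
    have x4 : T3 ≤ X := (((le_max_right _ _).trans (le_max_left _ _)).trans (le_max_right _ _)).trans hX
    have x5 : 2 ≤ X := ((le_max_right _ _).trans (le_max_right _ _)).trans hX
    obtain ⟨E, -, e2, e3, e4⟩ := h1 X x1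
    refine ⟨E, e2, e3, fun T hT hTE => ?_⟩
    have hN : 0 < NN q T := NN_pos q (by linarith [hT.1])
    have y1 := e4 T hT hTE
    have y2 := hT1 T (x2.trans hT.1)
    have y3 := hT2 T (x3.trans hT.1)
    have y4 := hT3 T (x4.trans hT.1)
    have y5 := combineC k (G := G) 0 S c hN T
    have y6 := hG 0 S c η hη0.le (by simp) (fun a ha => hAre a (hs a ha)) hc
    have y7 : ‖DfC k 0 S c T‖ / NN q T ≤ (η + η) * b + ε / 4 := by
      rw [div_le_iff₀ hN]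
      have y8 : (η + η) * M (zr k 0) T ≤ (η + η) * (b * NN q T) := mul_le_mul_of_nonneg_left y3 (by positivity)
      have y9 : C ≤ ε / 4 * NN q T := by
        rw [div_le_iff₀ hε] at y4; linarith
      linarith
    have y10 : (η + η) * b + η * g ≤ ε / 4 := by
      have : η * (4 * (2 * b + g + 1)) = ε := by rw [hη]; field_simp
      nlinarith
    have y11 : ‖CT k T 0 / ((NN q T : ℝ) : ℂ) - G 0‖ ≤ ε := by linarith
    rw [CT_zero] at y11
    have y12 : |(((M (zr k 0) T : ℝ) : ℂ) / ((NN q T : ℝ) : ℂ) - G 0).re| ≤ ε := (Complex.abs_re_le_norm _).trans y11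
    rw [← Complex.ofReal_div, Complex.sub_re, Complex.ofReal_re] at y12
    rw [show M (zr k 0) T - (G 0).re * NN q T = (M (zr k 0) T / NN q T - (G 0).re) * NN q T by field_simp, abs_mul,
      abs_of_pos hN]
    exact mul_le_mul_of_nonneg_right y12 hN.le
  intro α hα
  rw [Metric.tendsto_atTop]
  intro ε hε
  set η : ℝ := ε / (8 * (2 * b + g + 1)) with hη
  have hη0 : 0 < η := by positivity
  obtain ⟨S, c, hs, hc⟩ := hA α η hη0
  obtain ⟨C, T0, hC, hT0, h1⟩ := relC1 k hα (fun a ha => hAre a (hs a ha)) hη0.le hc hη0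
  have hBs := bsmall D hM0 (ε := ε / (8 * (C + 1))) (by positivity)
  have hev : ∀ᶠ T : ℝ in atTop, dist (CT k T α / ((NN q T : ℝ) : ℂ)) (G α) < ε := by
    filter_upwards [hBs, hsmall S c hs (ε / 8) (by positivity), hb, hNinf.eventually_ge_atTop (8 * C / ε),
      eventually_ge_atTop T0, eventually_gt_atTop 1] with T c1 c2 c3 c4 c5 c6
    have hN : 0 < NN q T := NN_pos q c6
    have y1 := h1 T c5
    have y5 := combineC k (G := G) α S c hN T
    have y6 := hG α S c η hη0.le hα (fun a ha => hAre a (hs a ha)) hc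
    have y7 : ‖DfC k α S c T‖ / NN q T ≤ (η + η) * b + ε / 4 := by
      rw [div_le_iff₀ hN]
      have y8 : (η + η) * M (zr k 0) T ≤ (η + η) * (b * NN q T) := mul_le_mul_of_nonneg_left c3 (by positivity)
      have y9 : C ≤ ε / 8 * NN q T := by
        rw [div_le_iff₀ hε] at c4; linarith
      have y10 : C * B (zr k 0) T ≤ ε / 8 * NN q T := by
        have y11 : C * B (zr k 0) T ≤ C * (ε / (8 * (C + 1)) * NN q T) := mul_le_mul_of_nonneg_left c1 hC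
        have y12 : C * (ε / (8 * (C + 1)) * NN q T) = ε / 8 * NN q T * (C / (C + 1)) := by
          field_simp
        have y13 : C / (C + 1) ≤ 1 := by rw [div_le_one (by linarith)]; linarith
        have y14 : ε / 8 * NN q T * (C / (C + 1)) ≤ ε / 8 * NN q T * 1 :=
          mul_le_mul_of_nonneg_left y13 (by positivity)
        linarith
      linarith
    have y10 : (η + η) * b + η * g ≤ ε / 8 := by
      have : η * (8 * (2 * b + g + 1)) = ε := by rw [hη]; field_simp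
      nlinarith
    rw [dist_eq_norm]
    linarith
  exact eventually_atTop.1 hev

/-- both sides satisfy the same approximate linear relations -/
theorem commonC (k : ℕ) {A : Set ℂ} (hA : CplC A k) (hAre : ∀ a ∈ A, 0 ≤ a.re) {α : ℂ} (hα : 0 ≤ α.re)
    {ε : ℝ} (hε : 0 < ε) :
    ∃ (S : Finset ℂ) (c : ℂ → ℂ), (∀ a ∈ S, a ∈ A) ∧
      (∀ N : ℕ, 1 ≤ N → ‖Wc k α N - ∑ a ∈ S, c a * Wc k a N‖ ≤ ε * ‖Wc k 0 N‖) ∧
      ∃ C X₀ : ℝ, ∀ X : ℝ, X₀ ≤ X → ∃ E : Set ℝ, MeasurableSet E ∧ E ⊆ Icc X (2 * X) ∧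
        volume E ≤ ENNReal.ofReal (C * Real.log X ^ 2) ∧
        ∀ T ∈ Icc X (2 * X), T ∉ E →
          ‖CT k T α / ((NN (k ^ 2) T : ℝ) : ℂ) - ∑ a ∈ S, c a * (CT k T a / ((NN (k ^ 2) T : ℝ) : ℂ))‖ ≤
            ε * (M (zr k 0) T / NN (k ^ 2) T + 1) := by
  obtain ⟨S, c, hs, hc⟩ := hA α (ε / 2) (by positivity)
  refine ⟨S, c, hs, fun N hN => ?_, ?_⟩
  · refine (W_relC k hN α S c hc).trans ?_
    exact mul_le_mul_of_nonneg_right (by linarith) (norm_nonneg _)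
  obtain ⟨C, X0, hC, hX0, h⟩ := relC2 k hα (fun a ha => hAre a (hs a ha)) (by positivity) hc
    (ε := ε / 2) (by positivity)
  refine ⟨C, max (max X0 (Real.exp 1)) (C / ε), fun X hX => ?_⟩
  obtain ⟨E, e1, e2, e3, e4⟩ := h X (((le_max_left _ _).trans (le_max_left _ _)).trans hX)
  have hfin : volume E ≠ ⊤ :=
    ne_top_of_le_ne_top (by rw [Real.volume_Icc]; exact ENNReal.ofReal_ne_top) (measure_mono e2)
  refine ⟨E, e1, e2, ?_, fun T hT hTE => ?_⟩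
  · rw [← ENNReal.ofReal_toReal hfin]
    exact ENNReal.ofReal_le_ofReal e3
  have hX1 : Real.exp 1 ≤ T := (((le_max_right _ _).trans (le_max_left _ _)).trans hX).trans hT.1
  have hX2 : C / ε ≤ T := ((le_max_right _ _).trans hX).trans hT.1
  have hT0 : 0 < T := lt_of_lt_of_le (Real.exp_pos 1) hX1
  have hL : 1 ≤ Real.log T := by rwa [Real.le_log_iff_exp_le hT0]
  have hN : T ≤ NN (k ^ 2) T := by
    unfold NN
    have h2 : (1:ℝ) ≤ Real.log T ^ (k ^ 2) := one_le_pow₀ hL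
    nlinarith
  have hN0 : 0 < NN (k ^ 2) T := lt_of_lt_of_le hT0 hN
  have e5 : CT k T α / ((NN (k ^ 2) T : ℝ) : ℂ) - ∑ a ∈ S, c a * (CT k T a / ((NN (k ^ 2) T : ℝ) : ℂ)) =
      DfC k α S c T / ((NN (k ^ 2) T : ℝ) : ℂ) := by
    unfold DfC
    rw [sub_div, Finset.sum_div]
    congr 1
    exact Finset.sum_congr rfl fun a _ => by ring
  rw [e5, norm_div, Complex.norm_real, Real.norm_of_nonneg hN0.le, div_le_iff₀ hN0]
  have h6 := e4 T hT hTE
  have h7 : ε * (M (zr k 0) T / NN (k ^ 2) T + 1) * NN (k ^ 2) T = ε * M (zr k 0) T + ε * NN (k ^ 2) T := by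
    field_simp
  rw [h7]
  rw [div_le_iff₀ hε] at hX2
  nlinarith

/-- rigidity for the powers of zeta -/
theorem rigid_zetaC (k : ℕ) {A : Set ℂ} (hA : CplC A k) (hAre : ∀ a ∈ A, 0 ≤ a.re)
    (b : ℂ) (W : ℂ → ℂ) (hW : ∀ α : ℂ, 0 ≤ α.re → Tendsto (fun N : ℕ => Wc k α N) atTop (𝓝 (W α)))
    (hlim : ∀ a ∈ A, Tendsto (fun T : ℝ => CT k T a / ((NN (k ^ 2) T : ℝ) : ℂ)) atTop (𝓝 (b * W a))) :
    ∀ α : ℂ, 0 ≤ α.re → Tendsto (fun T : ℝ => CT k T α / ((NN (k ^ 2) T : ℝ) : ℂ)) atTop (𝓝 (b * W α)) := by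
  refine rigidC k hA hAre (G := fun a => b * W a) (g := ‖b‖ * ‖W 0‖) (by positivity) ?_ hlim
  intro α S c Q hQ0 hα hS hQ
  have h1 : ‖W α - ∑ a ∈ S, c a * W a‖ ≤ Q * ‖W 0‖ := by
    have l1 : Tendsto (fun N : ℕ => ‖Wc k α N - ∑ a ∈ S, c a * Wc k a N‖) atTop
        (𝓝 ‖W α - ∑ a ∈ S, c a * W a‖) := by
      refine (Tendsto.sub (hW α hα) (tendsto_finsetSum _ fun a ha => ?_)).norm
      exact (hW a (hS a ha)).const_mul _
    have l2 : Tendsto (fun N : ℕ => Q * ‖Wc k 0 N‖) atTop (𝓝 (Q * ‖W 0‖)) :=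
      ((hW 0 (by simp)).norm).const_mul Q
    refine le_of_tendsto_of_tendsto l1 l2 ?_
    filter_upwards [eventually_ge_atTop 1] with N hN
    exact W_relC k hN α S c hQ
  have e : b * W α - ∑ a ∈ S, c a * (b * W a) = b * (W α - ∑ a ∈ S, c a * W a) := by
    rw [mul_sub, Finset.mul_sum]
    congr 1
    exact Finset.sum_congr rfl fun a _ => by ring
  rw [e, norm_mul]
  calc ‖b‖ * ‖W α - ∑ a ∈ S, c a * W a‖ ≤ ‖b‖ * (Q * ‖W 0‖) := by gcongr
    _ = Q * (‖b‖ * ‖W 0‖) := by ring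

end

end Pool.Agent.J4.H44.OL
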