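import Pool.Agent.J4.H44.OL.Cl

set_option autoImplicit false

/-! The correlations off the line against one spectral measure. -/

namespace Pool.Agent.J4.H44.OL

open Complex MeasureTheory Filter Topology Set Pool.Agent.TH535.SM Pool.Agent.R446.KR
open scoped FourierTransform ComplexConjugate

noncomputable section

lemma Fn_ft (k : ℕ) {u : ℕ} (hu : 1 ≤ u) {T : ℝ} (hT : 1 ≤ T) {r : ℝ} (hr0 : 0 ≤ r) (hr : r ≤ u) (w : ℝ) :
    ‖𝓕 (Fn (H k u) T r) w‖ ^ 2 = Real.exp (4 * Real.pi * w * r) * ‖𝓕 (Fn (H k u) T 0) w‖ ^ 2 := by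
  have hu0 : (0:ℝ) ≤ u := Nat.cast_nonneg u
  have h3 := Fn_shift (H_PG k hu) hT (r1 := 0) (r2 := r) (by linarith) hr0 hr w
  rw [mul_zero] at h3
  simp only [ofReal_zero, neg_zero, Complex.exp_zero, one_mul] at h3
  rw [h3, norm_mul, mul_pow, Complex.norm_exp, ← Complex.ofReal_neg, Complex.ofReal_re,
    ← Real.exp_nat_mul, ← mul_assoc, ← Real.exp_add]
  have : 4 * Real.pi * w * r + ((2 : ℕ) : ℝ) * -(2 * Real.pi * w * r) = 0 := by push_cast; ring
  rw [this, Real.exp_zero, one_mul]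

lemma ofexp (x y : ℝ) : ((Real.exp x * y : ℝ) : ℂ) = cexp x * y := by push_cast; ring

/-- the spectral functional -/
def Ph (k u : ℕ) (T : ℝ) (s : ℂ) : ℂ :=
  ∫ w : ℝ, cexp (4 * Real.pi * s * w / Real.log T) * ((‖𝓕 (Fn (H k u) T 0) w‖ ^ 2 : ℝ) : ℂ)

lemma Cr_Ph (k : ℕ) {u : ℕ} (hu : 1 ≤ u) {T : ℝ} (hT : 1 ≤ T) {a β : ℝ} (ha : 0 ≤ a / Real.log T)
    (ha1 : a / Real.log T ≤ 1 / 4) :
    Cr (Fn (H k u) T (a / Real.log T)) (β / Real.log T) = Ph k u T (a + β * I) := by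
  have hu1 : (1:ℝ) ≤ u := by exact_mod_cast hu
  have hdec : Dec (Fn (H k u) T (a / Real.log T)) := Fn_dec (H_PG k hu) hT (by linarith) (by linarith)
  rw [Cr_eq hdec]
  unfold Rs Ph
  refine integral_congr_ae (Eventually.of_forall fun w => ?_)
  simp only
  rw [Fn_ft k hu hT ha (by linarith), ofexp, ← mul_assoc, ← Complex.exp_add]
  congr 2
  push_cast
  ring

lemma Ph_int (k : ℕ) {u : ℕ} (hu : 1 ≤ u) {T : ℝ} (hT : 1 ≤ T) {s : ℂ} (ha : 0 ≤ s.re / Real.log T)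
    (ha1 : s.re / Real.log T ≤ 1 / 4) :
    Integrable (fun w : ℝ => cexp (4 * Real.pi * s * w / Real.log T) *
      ((‖𝓕 (Fn (H k u) T 0) w‖ ^ 2 : ℝ) : ℂ)) := by
  have hu1 : (1:ℝ) ≤ u := by exact_mod_cast hu
  have hdec : Dec (Fn (H k u) T (s.re / Real.log T)) := Fn_dec (H_PG k hu) hT (by linarith) (by linarith)
  refine (Rs_int hdec (s.im / Real.log T)).congr (Eventually.of_forall fun w => ?_)
  simp only
  rw [Fn_ft k hu hT ha (by linarith), ofexp, ← mul_assoc, ← Complex.exp_add]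
  congr 2
  conv_rhs => rw [← Complex.re_add_im s]
  push_cast
  ring

/-- mass to the right with exponential weights -/
lemma mass_r (k : ℕ) {u : ℕ} (hu : 1 ≤ u) {δ : ℝ} (hδ : 0 < δ) (hδ1 : δ ≤ 1) (hδu : 1 ≤ δ * u) :
    ∃ C : ℝ, 0 ≤ C ∧ ∀ T : ℝ, 1 ≤ T → ∀ r : ℝ, 0 ≤ r → r ≤ 1 / 4 →
      ms (Fn (H k u) T r) (Ici (δ * Real.log T / (2 * Real.pi))) ≤ C := by
  obtain ⟨C, hC, hb⟩ := H_right k hu
  obtain ⟨D0, hD0, hs⟩ := Fn_sq 0
  refine ⟨D0 * Real.exp (2 * (u:ℝ) ^ 2) * C ^ 2, by positivity, fun T hT r hr0 hr => ?_⟩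
  have hu1 : (1:ℝ) ≤ u := by exact_mod_cast hu
  have hT0 : 0 < T := by linarith
  have hL : 0 ≤ Real.log T := Real.log_nonneg hT
  have hp := Real.pi_pos
  set y := δ * Real.log T / (2 * Real.pi) with hy
  have h1 : ms (Fn (H k u) T r) (Ici y) ≤ Real.exp (-(4 * Real.pi * y * (u - r))) *
      ∫ t, ‖Fn (H k u) T u t‖ ^ 2 := by
    refine ms_le_of_shift (u := u - r) (Fn_dec (H_PG k hu) hT (by linarith) (by linarith))
      (Fn_dec (H_PG k hu) hT (by linarith) le_rfl) (fun w => ?_) measurableSet_Ici (fun w hw => ?_)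
    · have h := Fn_shift (H_PG k hu) hT (r1 := r) (r2 := u) (by linarith) (by linarith) le_rfl w
      have e : cexp (-(2 * Real.pi * w * (u - r) : ℝ)) = cexp ((2 * Real.pi * w * r : ℝ)) *
          cexp (-(2 * Real.pi * w * u : ℝ)) := by
        rw [← Complex.exp_add]; congr 1; push_cast; ring
      rw [e, mul_assoc, ← h, ← mul_assoc, ← Complex.exp_add, add_neg_cancel, Complex.exp_zero, one_mul]
    · have hw' : y ≤ w := hw
      have : 0 ≤ (u:ℝ) - r := by linarith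
      have := mul_le_mul_of_nonneg_right (mul_le_mul_of_nonneg_left hw' (by positivity : 0 ≤ 4 * Real.pi)) this
      linarith
  have h2 := hs (H k u) u (H_PG k hu) T hT u (by linarith) le_rfl C (by linarith) (by simpa using hb)
  have e1 : -(4 * Real.pi * y * (u - r)) = -(2 * (δ * (u - r))) * Real.log T := by
    rw [hy]
    field_simp
    ring
  rw [e1] at h1
  have h3 : Real.exp (-(2 * (δ * (u - r))) * Real.log T) * T ≤ 1 := by
    nth_rewrite 2 [← Real.exp_log hT0]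
    rw [← Real.exp_add, Real.exp_le_one_iff]
    have : 1 ≤ 2 * (δ * (u - r)) := by nlinarith
    nlinarith
  have hE := Real.exp_pos (-(2 * (δ * (u - r))) * Real.log T)
  calc _ ≤ Real.exp (-(2 * (δ * (u - r))) * Real.log T) * ∫ t, ‖Fn (H k u) T u t‖ ^ 2 := h1
    _ ≤ Real.exp (-(2 * (δ * (u - r))) * Real.log T) * (D0 * Real.exp (2 * (u:ℝ) ^ 2) * C ^ 2 * T ^ (2 * 0 + 1)) := by
        gcongr
    _ = (D0 * Real.exp (2 * (u:ℝ) ^ 2) * C ^ 2) * (Real.exp (-(2 * (δ * (u - r))) * Real.log T) * T) := by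
        ring
    _ ≤ (D0 * Real.exp (2 * (u:ℝ) ^ 2) * C ^ 2) * 1 := by gcongr
    _ = _ := mul_one _

/-- norms off the line -/
lemma norm_off (k : ℕ) (R : ℝ) : ∃ C : ℝ, 0 ≤ C ∧ ∀ T : ℝ, 1 < T → ∀ a : ℝ, 0 ≤ a → a ≤ R →
    a / Real.log T ≤ 1 / 4 →
    ∫ t, ‖Fn (H k 1) T (a / Real.log T) t‖ ^ 2 ≤
      Real.exp (2 * R) * (∫ t, ‖Fn (H k 1) T 0 t‖ ^ 2) + C := by
  obtain ⟨C, hC, h⟩ := mass_r k (u := 1) le_rfl (δ := 1) (by norm_num) le_rfl (by norm_num)
  refine ⟨C, hC, fun T hT a ha0 haR ha => ?_⟩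
  have hL : 0 < Real.log T := Real.log_pos hT
  have hr0 : 0 ≤ a / Real.log T := by positivity
  have hp := Real.pi_pos
  have hdec : Dec (Fn (H k 1) T (a / Real.log T)) := Fn_dec (H_PG k le_rfl) hT.le (by push_cast; linarith)
    (by push_cast; linarith)
  have hdec0 : Dec (Fn (H k 1) T 0) := Fn_dec (H_PG k le_rfl) hT.le (by push_cast; linarith)
    (by push_cast; linarith)
  have h1 := h T hT.le (a / Real.log T) hr0 ha
  set y := 1 * Real.log T / (2 * Real.pi) with hy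
  rw [← (planch hdec).2, ← (planch hdec0).2]
  rw [← integral_add_compl (s := Ici y) measurableSet_Ici (planch hdec).1]
  have h2 : ∫ w in (Ici y)ᶜ, ‖𝓕 (Fn (H k 1) T (a / Real.log T)) w‖ ^ 2 ≤
      Real.exp (2 * R) * ∫ w, ‖𝓕 (Fn (H k 1) T 0) w‖ ^ 2 := by
    rw [← integral_const_mul]
    calc _ ≤ ∫ w in (Ici y)ᶜ, Real.exp (2 * R) * ‖𝓕 (Fn (H k 1) T 0) w‖ ^ 2 := by
          refine setIntegral_mono_on (planch hdec).1.integrableOn
            ((planch hdec0).1.const_mul _).integrableOn measurableSet_Ici.compl fun w hw => ?_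
          rw [Fn_ft k le_rfl hT.le hr0 (by push_cast; linarith)]
          refine mul_le_mul_of_nonneg_right (Real.exp_le_exp.2 ?_) (by positivity)
          have hw' : w < y := not_le.1 hw
          have h3 : 4 * Real.pi * w * (a / Real.log T) ≤ 4 * Real.pi * y * (a / Real.log T) := by gcongr
          refine h3.trans ?_
          have : 4 * Real.pi * y * (a / Real.log T) = 2 * a := by
            rw [hy]; field_simp; ring
          rw [this]; linarith
      _ ≤ _ := setIntegral_le_integral ((planch hdec0).1.const_mul _)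
          (Eventually.of_forall fun w => by positivity)
  have h4 : ∫ w in Ici y, ‖𝓕 (Fn (H k 1) T (a / Real.log T)) w‖ ^ 2 ≤ C := h1
  linarith

/-- combination of `diff_le` and `OmR_le` -/
lemma diff_le2 (k : ℕ) {u : ℕ} (hu : 1 ≤ u) {η : ℝ} (hη : 0 < η) : ∃ C T0 r0 : ℝ, 0 ≤ C ∧ 1 ≤ T0 ∧ 0 < r0 ∧
    ∀ T : ℝ, T0 ≤ T → ∀ r : ℝ, 0 ≤ r → r ≤ 1 / 4 → r ≤ r0 → ∀ b : ℝ, |b| ≤ 1 →
    ‖Cr (Fn (H k u) T r) b - Cor (zr k r) b T‖ ≤ η * M (zr k r) T + C * (1 + B (zr k 0) T) := by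
  obtain ⟨C1, hC1, h1⟩ := diff_le k hu
  set δ : ℝ := η / 2 with hδ
  have hδ0 : 0 < δ := by positivity
  set K : ℝ := (δ⁻¹ + 1) * C1 with hK
  have hK0 : 0 < K := by positivity
  obtain ⟨C2, T0, hC2, hT0, h2⟩ := OmR_le k (ε := δ / K) (by positivity)
  obtain ⟨C3, hC3, h3⟩ := B_off k
  obtain ⟨C4, hC4, h4⟩ := Br0_bd k
  refine ⟨δ * (2 * (C4 + C3)) + K * (C2 + C3), T0, √(δ / K / 2), by positivity, hT0, by positivity,
    fun T hT r hr0 hr hrr b hb => ?_⟩
  have hT1 : 1 ≤ T := hT0.trans hT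
  have hB := B_nonneg (zr k 0) T
  have g1 := h1 T hT1 r hr0 hr b hb δ hδ0
  have g2 := h2 T hT r hr0 hr (by
    have : r ^ 2 ≤ √(δ / K / 2) ^ 2 := by gcongr
    rwa [Real.sq_sqrt (by positivity)] at this)
  have g3 := h3 r hr0 hr T
  have g4 := h4 r hr0 hr
  have hM : 0 ≤ M (zr k r) T := M_nonneg _ (by linarith)
  have g5 : (δ⁻¹ + 1) * (C1 * OmR k r T) ≤ K * (δ / K * M (zr k r) T + C2 + C3 * (1 + B (zr k 0) T)) := by
    rw [← mul_assoc, ← hK]
    refine mul_le_mul_of_nonneg_left ?_ hK0.le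
    linarith
  have g6 : K * (δ / K * M (zr k r) T + C2 + C3 * (1 + B (zr k 0) T)) =
      δ * M (zr k r) T + K * (C2 + C3 * (1 + B (zr k 0) T)) := by
    field_simp
    ring
  have g7 : K * (C2 + C3 * (1 + B (zr k 0) T)) ≤ K * (C2 + C3) * (1 + B (zr k 0) T) := by
    nlinarith [mul_nonneg (mul_nonneg hK0.le hC2) hB]
  have g8 : δ * (M (zr k r) T + 2 * (B (zr k r) 0 + B (zr k r) T)) ≤
      δ * M (zr k r) T + δ * (2 * (C4 + C3)) * (1 + B (zr k 0) T) := by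
    rw [mul_add, mul_assoc]
    refine add_le_add le_rfl (mul_le_mul_of_nonneg_left ?_ hδ0.le)
    nlinarith [mul_nonneg hC4 hB]
  have e : η = δ + δ := by rw [hδ]; ring
  rw [e]
  nlinarith

lemma Cr_self {F : ℝ → ℂ} : Cr F 0 = ((∫ t, ‖F t‖ ^ 2 : ℝ) : ℂ) := by
  unfold Cr
  rw [← integral_complex_ofReal]
  refine integral_congr_ae (Eventually.of_forall fun t => ?_)
  simp only [add_zero, neg_zero]
  rw [Complex.mul_conj, Complex.normSq_eq_norm_sq]

/-- moments off the line are bounded by the moment on the line -/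
lemma M_off (k : ℕ) (R : ℝ) : ∃ C T0 : ℝ, 0 ≤ C ∧ 1 < T0 ∧ ∀ T : ℝ, T0 ≤ T → ∀ a : ℝ, 0 ≤ a → a ≤ R →
    M (zr k (a / Real.log T)) T ≤ C * (M (zr k 0) T + (1 + B (zr k 0) T)) ∧
    ∫ t, ‖Fn (H k 1) T (a / Real.log T) t‖ ^ 2 ≤ C * (M (zr k 0) T + (1 + B (zr k 0) T)) := by
  obtain ⟨C1, T1, r0, hC1, hT1, hr0, h1⟩ := diff_le2 k (u := 1) le_rfl (η := 1 / 2) (by norm_num)
  obtain ⟨C2, hC2, h2⟩ := norm_off k R
  set E := Real.exp (2 * R) with hE
  have hE0 : 0 < E := Real.exp_pos _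
  set A : ℝ := E * (2 + C1) + C2 with hA
  have hA0 : 0 ≤ A := by positivity
  have hev : ∀ᶠ T : ℝ in atTop, R / Real.log T ≤ 1 / 4 ∧ R / Real.log T ≤ r0 := by
    have h := Real.tendsto_log_atTop.const_div_atTop R
    exact (h.eventually_le_const (by norm_num)).and (h.eventually_le_const hr0)
  obtain ⟨T2, hT2⟩ := eventually_atTop.1 hev
  refine ⟨2 * (A + C1), max (max T1 T2) 2, by positivity, by
    exact lt_of_lt_of_le (by norm_num) (le_max_right _ _), fun T hT a ha0 haR => ?_⟩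
  have t1 : T1 ≤ T := ((le_max_left _ _).trans (le_max_left _ _)).trans hT
  have t2 : T2 ≤ T := ((le_max_right _ _).trans (le_max_left _ _)).trans hT
  have t3 : 2 ≤ T := (le_max_right _ _).trans hT
  obtain ⟨q1, q2⟩ := hT2 T t2
  have hL : 0 < Real.log T := Real.log_pos (by linarith)
  have hle : a / Real.log T ≤ R / Real.log T := by gcongr
  have hr : 0 ≤ a / Real.log T := by positivity
  have hB := B_nonneg (zr k 0) T
  have hM0 : 0 ≤ M (zr k 0) T := M_nonneg _ (by linarith)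
  have i0 := h1 T t1 0 le_rfl (by norm_num) hr0.le 0 (by simp)
  have i1 := h1 T t1 (a / Real.log T) hr (hle.trans q1) (hle.trans q2) 0 (by simp)
  rw [Cr_self, Cor_zero, ← Complex.ofReal_sub, Complex.norm_real, Real.norm_eq_abs] at i0 i1
  have i2 := h2 T (by linarith) a ha0 haR (hle.trans q1)
  set N0 := ∫ t, ‖Fn (H k 1) T 0 t‖ ^ 2 with hN0
  set Nr := ∫ t, ‖Fn (H k 1) T (a / Real.log T) t‖ ^ 2 with hNr
  have j0 := (abs_le.1 i0).2
  have j1 := (abs_le.1 i1).1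
  have j2 : Nr ≤ A * (M (zr k 0) T + (1 + B (zr k 0) T)) := by
    have : N0 ≤ 2 * M (zr k 0) T + C1 * (1 + B (zr k 0) T) := by linarith
    have h3 : E * N0 ≤ E * (2 * M (zr k 0) T + C1 * (1 + B (zr k 0) T)) := by gcongr
    have h4 : 0 ≤ C2 * M (zr k 0) T := by positivity
    have h5 : 0 ≤ C2 * B (zr k 0) T := by positivity
    have h6 : 0 ≤ E * C1 * M (zr k 0) T := by positivity
    have h7 : 0 ≤ E * 2 * (1 + B (zr k 0) T) := by positivity
    rw [hA]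
    nlinarith
  refine ⟨?_, ?_⟩
  · have h3 : M (zr k (a / Real.log T)) T ≤ 2 * Nr + 2 * (C1 * (1 + B (zr k 0) T)) := by linarith
    have h4 : 0 ≤ C1 * M (zr k 0) T := by positivity
    nlinarith
  · refine j2.trans ?_
    have h4 : 0 ≤ (A + 2 * C1) * (M (zr k 0) T + (1 + B (zr k 0) T)) := by positivity
    nlinarith

/-- **spectral representation**, uniform in bounded complex shifts -/
theorem spec_all (k : ℕ) {u : ℕ} (hu : 1 ≤ u) (R : ℝ) {ε : ℝ} (hε : 0 < ε) :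
    ∃ C T0 : ℝ, 0 ≤ C ∧ 1 < T0 ∧ ∀ T : ℝ, T0 ≤ T → ∀ a β : ℝ, 0 ≤ a → a ≤ R → |β| ≤ R →
      ‖Cor (zr k (a / Real.log T)) (β / Real.log T) T - Ph k u T (a + β * I)‖ ≤
        ε * M (zr k 0) T + C * (1 + B (zr k 0) T) := by
  obtain ⟨C1, T1, hC1, hT1, h1⟩ := M_off k R
  obtain ⟨C2, T2, r0, hC2, hT2, hr0, h2⟩ := diff_le2 k hu (η := ε / (C1 + 1)) (by positivity)
  have hev : ∀ᶠ T : ℝ in atTop, R / Real.log T ≤ 1 / 4 ∧ R / Real.log T ≤ r0 := by
    have h := Real.tendsto_log_atTop.const_div_atTop R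
    exact (h.eventually_le_const (by norm_num)).and (h.eventually_le_const hr0)
  obtain ⟨T3, hT3⟩ := eventually_atTop.1 hev
  refine ⟨ε + C2, max (max T1 T2) (max T3 2), by positivity, lt_of_lt_of_le hT1
    ((le_max_left _ _).trans (le_max_left _ _)), fun T hT a β ha0 haR hβ => ?_⟩
  have t1 : T1 ≤ T := ((le_max_left _ _).trans (le_max_left _ _)).trans hT
  have t2 : T2 ≤ T := ((le_max_right _ _).trans (le_max_left _ _)).trans hT
  have t3 : T3 ≤ T := ((le_max_left _ _).trans (le_max_right _ _)).trans hT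
  have t4 : 2 ≤ T := ((le_max_right _ _).trans (le_max_right _ _)).trans hT
  obtain ⟨q1, q2⟩ := hT3 T t3
  have hL : 0 < Real.log T := Real.log_pos (by linarith)
  have hle : a / Real.log T ≤ R / Real.log T := by gcongr
  have hr : 0 ≤ a / Real.log T := by positivity
  have hb : |β / Real.log T| ≤ 1 := by
    rw [abs_div, abs_of_pos hL]
    have : |β| / Real.log T ≤ R / Real.log T := by gcongr
    linarith
  have i1 := h2 T t2 (a / Real.log T) hr (hle.trans q1) (hle.trans q2) (β / Real.log T) hb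
  rw [Cr_Ph k hu (by linarith) hr (hle.trans q1), norm_sub_rev] at i1
  have i2 := (h1 T t1 a ha0 haR).1
  have hB := B_nonneg (zr k 0) T
  have hM0 : 0 ≤ M (zr k 0) T := M_nonneg _ (by linarith)
  have i3 : ε / (C1 + 1) * M (zr k (a / Real.log T)) T ≤
      ε / (C1 + 1) * (C1 * (M (zr k 0) T + (1 + B (zr k 0) T))) := by gcongr
  have i4 : ε / (C1 + 1) * (C1 * (M (zr k 0) T + (1 + B (zr k 0) T))) =
      ε * (C1 / (C1 + 1)) * (M (zr k 0) T + (1 + B (zr k 0) T)) := by ring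
  have i5 : C1 / (C1 + 1) ≤ 1 := by rw [div_le_one (by linarith)]; linarith
  have i6 : ε * (C1 / (C1 + 1)) * (M (zr k 0) T + (1 + B (zr k 0) T)) ≤
      ε * 1 * (M (zr k 0) T + (1 + B (zr k 0) T)) := by gcongr
  nlinarith

end

end Pool.Agent.J4.H44.OL
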