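import Pool.Agent.J4.H44.OL.Sc

set_option autoImplicit false

/-! Exponential polynomials in the complex shift of the correlations. -/

namespace Pool.Agent.J4.H44.OL

open Complex MeasureTheory Filter Topology Set Pool.Agent.TH535.SM Pool.Agent.R446.KR
open scoped FourierTransform ComplexConjugate

noncomputable section

/-- the correlation at the complex shift `s / log T` -/
def CT (k : ℕ) (T : ℝ) (s : ℂ) : ℂ := Cor (zr k (s.re / Real.log T)) (s.im / Real.log T) T

lemma CT_zero (k : ℕ) (T : ℝ) : CT k T 0 = ((M (zr k 0) T : ℝ) : ℂ) := by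
  unfold CT
  simp only [Complex.zero_re, Complex.zero_im, zero_div]
  exact Cor_zero _ _

lemma exp_lip {R : ℝ} (s : ℂ) (hs0 : 0 ≤ s.re) (hsR : s.re ≤ R) {x y : ℝ} (hx : -1 ≤ x) (hy : -1 ≤ y) :
    ‖cexp (-(2 * s * x)) - cexp (-(2 * s * y))‖ ≤ 2 * ‖s‖ * Real.exp (2 * R) * |x - y| := by
  have h := Convex.norm_image_sub_le_of_norm_hasDerivWithin_le (𝕜 := ℝ) (f := fun x : ℝ => cexp (-(2 * s * x)))
    (f' := fun x : ℝ => -(2 * s) * cexp (-(2 * s * x)))
    (s := Ici (-1)) (C := 2 * ‖s‖ * Real.exp (2 * R)) (x := y) (y := x) ?_ ?_ (convex_Ici _) hy hx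
  · rw [Real.norm_eq_abs] at h
    exact h
  · intro t _
    have h1 : HasDerivAt (fun x : ℝ => -(2 * s * (x : ℂ))) (-(2 * s)) t := by
      have h2 : HasDerivAt (fun x : ℝ => (x : ℂ)) 1 t := Complex.ofRealCLM.hasDerivAt
      have h3 := (h2.const_mul (2 * s)).neg
      rw [mul_one] at h3
      exact h3
    exact (h1.cexp.congr_deriv (mul_comm _ _)).hasDerivWithinAt
  · intro t ht
    rw [norm_mul, norm_neg, norm_mul, Complex.norm_ofNat]
    refine mul_le_mul_of_nonneg_left ?_ (by positivity)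
    rw [Complex.norm_exp]
    refine Real.exp_le_exp.2 ?_
    have e : (-(2 * s * (t : ℂ))).re = -(2 * s.re * t) := by
      simp
    rw [e]
    have ht' : -1 ≤ t := ht
    nlinarith

theorem trigC (k : ℕ) {ι : Type} (S : Finset ι) (s : ι → ℂ) (c : ι → ℂ) (hs : ∀ j ∈ S, 0 ≤ (s j).re)
    {Q : ℝ} (hQ0 : 0 ≤ Q)
    (hQ : ∀ v : ℝ, 0 ≤ v → v ≤ k → ‖∑ j ∈ S, c j * cexp (-(2 * s j * v))‖ ≤ Q) {ε : ℝ} (hε : 0 < ε) :
    ∃ C T0 : ℝ, 0 ≤ C ∧ 1 < T0 ∧ ∀ T : ℝ, T0 ≤ T →
      ‖∑ j ∈ S, c j * CT k T (s j)‖ ≤ (Q + ε) * M (zr k 0) T + C * (1 + B (zr k 0) T) := by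
  classical
  set R : ℝ := ∑ j ∈ S, ‖s j‖ with hR
  set N1 : ℝ := ∑ j ∈ S, ‖c j‖ with hN1
  have hR0 : 0 ≤ R := Finset.sum_nonneg fun j _ => norm_nonneg _
  have hN0 : 0 ≤ N1 := Finset.sum_nonneg fun j _ => norm_nonneg _
  have hsR : ∀ j ∈ S, ‖s j‖ ≤ R := fun j hj =>
    Finset.single_le_sum (f := fun j => ‖s j‖) (fun _ _ => norm_nonneg _) hj
  have hsre : ∀ j ∈ S, (s j).re ≤ R := fun j hj =>
    ((le_abs_self _).trans (Complex.abs_re_le_norm _)).trans (hsR j hj)
  have hsim : ∀ j ∈ S, |(s j).im| ≤ R := fun j hj => (Complex.abs_im_le_norm _).trans (hsR j hj)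
  -- the continuity constant
  set Λ : ℝ := 2 * R * Real.exp (2 * R) * N1 with hΛ
  have hΛ0 : 0 ≤ Λ := by positivity
  set δ : ℝ := min 1 (ε / (2 * (Λ + 1))) with hδ
  have hδ0 : 0 < δ := by positivity
  have hδ1 : δ ≤ 1 := min_le_left _ _
  have hδΛ : δ * Λ ≤ ε / 2 := by
    have h1 : δ ≤ ε / (2 * (Λ + 1)) := min_le_right _ _
    rw [le_div_iff₀ (by positivity)] at h1
    nlinarith
  obtain ⟨u, hu⟩ := exists_nat_ge (max 1 (1 / δ))
  have hu1 : 1 ≤ u := by
    have : (1:ℝ) ≤ u := (le_max_left _ _).trans hu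
    exact_mod_cast this
  have hu2 : 1 ≤ δ * u := by
    have : 1 / δ ≤ u := (le_max_right _ _).trans hu
    rw [div_le_iff₀ hδ0] at this
    linarith
  obtain ⟨Cr', hCr, hr⟩ := mass_r k hu1 hδ0 hδ1 hu2
  obtain ⟨Cl, hCl, hl⟩ := out_left (zk_dat k hu1) hδ0 hu2
  set η : ℝ := ε / (2 * (Q + ε + N1 + 1)) with hη
  have hη0 : 0 < η := by positivity
  have hη2 : (Q + ε / 2 + N1) * η ≤ ε / 2 := by
    have h1 : η * (2 * (Q + ε + N1 + 1)) = ε := by rw [hη]; field_simp
    nlinarith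
  obtain ⟨C1, T1, hC1, hT1, h1⟩ := spec_all k hu1 R hη0
  have hev : ∀ᶠ T : ℝ in atTop, R / Real.log T ≤ 1 / 4 :=
    (Real.tendsto_log_atTop.const_div_atTop R).eventually_le_const (by norm_num)
  obtain ⟨T2, hT2⟩ := eventually_atTop.1 hev
  refine ⟨(Q + ε / 2 + N1) * C1 + N1 * (Cl + Cr'), max T1 T2, by positivity,
    lt_of_lt_of_le hT1 (le_max_left _ _), fun T hT => ?_⟩
  have hTT1 : T1 ≤ T := (le_max_left _ _).trans hT
  have hq := hT2 T ((le_max_right _ _).trans hT)
  have hTp : 1 < T := lt_of_lt_of_le hT1 hTT1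
  have hT0 : 0 < T := by linarith
  have hL0 : 0 < Real.log T := Real.log_pos hTp
  set L := Real.log T with hLd
  have hdec : Dec (Fn (H k u) T 0) := Fn_dec (H_PG k hu1) hTp.le (by simp) (by positivity)
  set F := Fn (H k u) T 0 with hF
  have hM : 0 ≤ M (zr k 0) T := M_nonneg _ (by linarith)
  have hB := B_nonneg (zr k 0) T
  have hpi := Real.pi_pos
  have hle : ∀ j ∈ S, (s j).re / L ≤ 1 / 4 := fun j hj => by
    have : (s j).re / L ≤ R / L := by
      have := hsre j hj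
      gcongr
    linarith
  have hge : ∀ j ∈ S, 0 ≤ (s j).re / L := fun j hj => div_nonneg (hs j hj) hL0.le
  -- total mass
  have hI : ∫ t, ‖F t‖ ^ 2 ≤ (1 + η) * M (zr k 0) T + C1 * (1 + B (zr k 0) T) := by
    have h2 := h1 T hTT1 0 0 le_rfl hR0 (by simpa using hR0)
    rw [zero_div, Cor_zero] at h2
    have e1 : Ph k u T ((0:ℝ) + (0:ℝ) * I) = ((∫ t, ‖F t‖ ^ 2 : ℝ) : ℂ) := by
      rw [← (planch hdec).2, ← integral_complex_ofReal]
      unfold Ph
      refine integral_congr_ae (Eventually.of_forall fun w => ?_)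
      simp [hF]
    rw [e1, ← Complex.ofReal_sub, Complex.norm_real, Real.norm_eq_abs] at h2
    have := (abs_le.1 h2).1
    linarith
  -- replace the correlations by the spectral functional
  have hterm : ‖∑ j ∈ S, c j * CT k T (s j) - ∑ j ∈ S, c j * Ph k u T (s j)‖ ≤
      N1 * (η * M (zr k 0) T + C1 * (1 + B (zr k 0) T)) := by
    rw [← Finset.sum_sub_distrib, hN1, Finset.sum_mul]
    refine (norm_sum_le _ _).trans (Finset.sum_le_sum fun j hj => ?_)
    rw [← mul_sub, norm_mul]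
    refine mul_le_mul_of_nonneg_left ?_ (norm_nonneg _)
    have h2 := h1 T hTT1 (s j).re (s j).im (hs j hj) (hsre j hj) (hsim j hj)
    rw [Complex.re_add_im] at h2
    exact h2
  have hint : ∀ j ∈ S, Integrable (fun w : ℝ => c j * (cexp (4 * Real.pi * s j * w / L) *
      ((‖𝓕 F w‖ ^ 2 : ℝ) : ℂ))) := fun j hj => (Ph_int k hu1 hTp.le (hge j hj) (hle j hj)).const_mul _
  have hPh : ∑ j ∈ S, c j * Ph k u T (s j) = ∫ w : ℝ, (∑ j ∈ S, c j * cexp (4 * Real.pi * s j * w / L)) *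
      ((‖𝓕 F w‖ ^ 2 : ℝ) : ℂ) := by
    have e1 : ∀ w : ℝ, (∑ j ∈ S, c j * cexp (4 * Real.pi * s j * w / L)) * ((‖𝓕 F w‖ ^ 2 : ℝ) : ℂ) =
        ∑ j ∈ S, c j * (cexp (4 * Real.pi * s j * w / L) * ((‖𝓕 F w‖ ^ 2 : ℝ) : ℂ)) := by
      intro w
      rw [Finset.sum_mul]
      exact Finset.sum_congr rfl fun j _ => by ring
    simp_rw [e1]
    rw [integral_finsetSum _ hint]
    refine Finset.sum_congr rfl fun j _ => ?_
    rw [integral_const_mul]
    rfl
  set J := Ioo (-((k + δ) * L / (2 * Real.pi))) (δ * L / (2 * Real.pi)) with hJ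
  set P : ℝ → ℂ := fun w => ∑ j ∈ S, c j * cexp (4 * Real.pi * s j * w / L) with hP
  have hLc : (L : ℂ) ≠ 0 := by exact_mod_cast hL0.ne'
  have hpc : (Real.pi : ℂ) ≠ 0 := by exact_mod_cast hpi.ne'
  -- inside
  have hin : ∀ w ∈ J, ‖P w‖ ≤ Q + ε / 2 := by
    intro w hw
    set x : ℝ := -(2 * Real.pi * w / L) with hx
    have ex : ∀ j, cexp (4 * Real.pi * s j * w / L) = cexp (-(2 * s j * x)) := by
      intro j
      congr 1
      rw [hx]; push_cast; field_simp; ring
    have hx1 : -δ < x := by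
      have h2 : w * (2 * Real.pi / L) < δ * L / (2 * Real.pi) * (2 * Real.pi / L) :=
        mul_lt_mul_of_pos_right hw.2 (by positivity)
      have e3 : δ * L / (2 * Real.pi) * (2 * Real.pi / L) = δ := by field_simp
      rw [e3] at h2
      have e4 : w * (2 * Real.pi / L) = -x := by rw [hx]; ring
      rw [e4] at h2
      linarith
    have hx2 : x < k + δ := by
      have h2 : -((k + δ) * L / (2 * Real.pi)) * (2 * Real.pi / L) < w * (2 * Real.pi / L) :=
        mul_lt_mul_of_pos_right hw.1 (by positivity)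
      have e3 : -((k + δ) * L / (2 * Real.pi)) * (2 * Real.pi / L) = -(k + δ) := by field_simp
      rw [e3] at h2
      have e4 : w * (2 * Real.pi / L) = -x := by rw [hx]; ring
      rw [e4] at h2
      linarith
    set y : ℝ := max 0 (min k x) with hy
    have hk0 : (0:ℝ) ≤ k := Nat.cast_nonneg k
    have hy0 : 0 ≤ y := le_max_left _ _
    have hyk : y ≤ k := max_le hk0 (min_le_left _ _)
    have hxy : |x - y| ≤ δ := by
      rw [hy, abs_le]
      rcases le_total (k:ℝ) x with h3 | h3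
      · rw [min_eq_left h3, max_eq_right hk0]
        constructor <;> linarith
      · rw [min_eq_right h3]
        rcases le_total 0 x with h4 | h4
        · rw [max_eq_right h4]; constructor <;> linarith
        · rw [max_eq_left h4]; constructor <;> linarith
    have h5 : ‖P w - ∑ j ∈ S, c j * cexp (-(2 * s j * y))‖ ≤ Λ * δ := by
      rw [hP]
      simp only
      simp_rw [ex]
      rw [← Finset.sum_sub_distrib]
      refine (norm_sum_le _ _).trans ?_
      have h6 : ∀ j ∈ S, ‖c j * cexp (-(2 * s j * x)) - c j * cexp (-(2 * s j * y))‖ ≤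
          ‖c j‖ * (2 * R * Real.exp (2 * R) * δ) := by
        intro j hj
        rw [← mul_sub, norm_mul]
        refine mul_le_mul_of_nonneg_left ?_ (norm_nonneg _)
        refine (exp_lip (s j) (hs j hj) (hsre j hj) (by linarith) (by linarith)).trans ?_
        have := hsR j hj
        gcongr
      refine (Finset.sum_le_sum h6).trans (le_of_eq ?_)
      rw [← Finset.sum_mul, hΛ]
      ring
    have h7 := hQ y hy0 hyk
    have h8 := norm_sub_norm_le (P w) (∑ j ∈ S, c j * cexp (-(2 * s j * y)))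
    have h9 : Λ * δ = δ * Λ := mul_comm _ _
    linarith
  -- exponential bound
  have hexp : ∀ w : ℝ, ∀ j ∈ S, ‖cexp (4 * Real.pi * s j * w / L)‖ = Real.exp (4 * Real.pi * (s j).re * w / L) := by
    intro w j _
    rw [Complex.norm_exp]
    congr 1
    have : (4 * (Real.pi : ℂ) * s j * w / L) = ((4 * Real.pi * w / L : ℝ) : ℂ) * s j := by push_cast; ring
    rw [this, Complex.re_ofReal_mul]
    ring
  have hleft : ∀ w ≤ (0:ℝ), ‖P w‖ ≤ N1 := by
    intro w hw
    rw [hP, hN1]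
    refine (norm_sum_le _ _).trans (Finset.sum_le_sum fun j hj => ?_)
    rw [norm_mul, hexp w j hj]
    refine mul_le_of_le_one_right (norm_nonneg _) ?_
    rw [Real.exp_le_one_iff]
    refine div_nonpos_of_nonpos_of_nonneg ?_ hL0.le
    exact mul_nonpos_of_nonneg_of_nonpos (mul_nonneg (by positivity) (hs j hj)) hw
  have hright : ∀ w : ℝ, 0 ≤ w → ‖P w‖ ≤ N1 * Real.exp (4 * Real.pi * w * (R / L)) := by
    intro w hw
    rw [hP, hN1, Finset.sum_mul]
    refine (norm_sum_le _ _).trans (Finset.sum_le_sum fun j hj => ?_)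
    rw [norm_mul, hexp w j hj]
    refine mul_le_mul_of_nonneg_left (Real.exp_le_exp.2 ?_) (norm_nonneg _)
    have h2 := hsre j hj
    have e : 4 * Real.pi * w * (R / L) = 4 * Real.pi * R * w / L := by ring
    rw [e]
    gcongr
  -- the integral
  have hcont : Continuous P := by
    rw [hP]; fun_prop
  have hIa : Integrable (fun w : ℝ => P w * ((‖𝓕 F w‖ ^ 2 : ℝ) : ℂ)) := by
    have e1 : (fun w : ℝ => P w * ((‖𝓕 F w‖ ^ 2 : ℝ) : ℂ)) = fun w : ℝ =>
        ∑ j ∈ S, c j * (cexp (4 * Real.pi * s j * w / L) * ((‖𝓕 F w‖ ^ 2 : ℝ) : ℂ)) := by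
      funext w
      rw [hP, Finset.sum_mul]
      exact Finset.sum_congr rfl fun j _ => by ring
    rw [e1]
    exact integrable_finsetSum _ hint
  have hnorm : ∀ w : ℝ, ‖P w * ((‖𝓕 F w‖ ^ 2 : ℝ) : ℂ)‖ = ‖P w‖ * ‖𝓕 F w‖ ^ 2 := by
    intro w
    rw [norm_mul, Complex.norm_real, Real.norm_of_nonneg (by positivity)]
  have hIb : Integrable (fun w : ℝ => ‖P w‖ * ‖𝓕 F w‖ ^ 2) := by
    refine hIa.norm.congr (Eventually.of_forall fun w => hnorm w)
  have hI1 := (planch hdec).1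
  have hr0 : 0 ≤ R / L := by positivity
  have hint3 : Integrable (fun w => Real.exp (4 * Real.pi * w * (R / L)) * ‖𝓕 F w‖ ^ 2) := by
    have hd : Dec (Fn (H k u) T (R / L)) := Fn_dec (H_PG k hu1) hTp.le
      (by have : (0:ℝ) ≤ u := Nat.cast_nonneg u; linarith)
      (by have : (1:ℝ) ≤ u := by exact_mod_cast hu1
          linarith)
    refine (planch hd).1.congr (Eventually.of_forall fun w => ?_)
    exact Fn_ft k hu1 hTp.le hr0 (by have : (1:ℝ) ≤ u := by exact_mod_cast hu1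
                                     linarith) w
  have hbig : ∫ w : ℝ, ‖P w‖ * ‖𝓕 F w‖ ^ 2 ≤ (Q + ε / 2) * (∫ t, ‖F t‖ ^ 2) + N1 * (Cl + Cr') := by
    have hpt : ∀ w : ℝ, ‖P w‖ * ‖𝓕 F w‖ ^ 2 ≤ (Q + ε / 2) * ‖𝓕 F w‖ ^ 2 +
        (N1 * (Iic (-((k + δ) * L / (2 * Real.pi)))).indicator (fun w => ‖𝓕 F w‖ ^ 2) w +
        N1 * (Ici (δ * L / (2 * Real.pi))).indicator (fun w => Real.exp (4 * Real.pi * w * (R / L)) *
          ‖𝓕 F w‖ ^ 2) w) := by
      intro w
      have hx : 0 ≤ ‖𝓕 F w‖ ^ 2 := by positivity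
      have hk0 : (0:ℝ) ≤ k := Nat.cast_nonneg k
      have i1 : 0 ≤ (Iic (-((k + δ) * L / (2 * Real.pi)))).indicator (fun w => ‖𝓕 F w‖ ^ 2) w :=
        indicator_nonneg (fun _ _ => by positivity) w
      have i2 : 0 ≤ (Ici (δ * L / (2 * Real.pi))).indicator (fun w => Real.exp (4 * Real.pi * w * (R / L)) *
          ‖𝓕 F w‖ ^ 2) w := indicator_nonneg (fun _ _ => by positivity) w
      by_cases h1 : w ≤ -((k + δ) * L / (2 * Real.pi))
      · rw [indicator_of_mem (show w ∈ Iic _ from h1)]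
        have hw0 : w ≤ 0 := by
          refine h1.trans ?_
          have : 0 ≤ (k + δ) * L / (2 * Real.pi) := by positivity
          linarith
        have := mul_le_mul_of_nonneg_right (hleft w hw0) hx
        have h3 : 0 ≤ (Q + ε / 2) * ‖𝓕 F w‖ ^ 2 := by positivity
        have h4 := mul_nonneg hN0 i2
        linarith
      · by_cases h2 : δ * L / (2 * Real.pi) ≤ w
        · rw [indicator_of_mem (show w ∈ Ici _ from h2)]
          have hw0 : 0 ≤ w := by
            refine le_trans ?_ h2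
            positivity
          have := mul_le_mul_of_nonneg_right (hright w hw0) hx
          have h3 : 0 ≤ (Q + ε / 2) * ‖𝓕 F w‖ ^ 2 := by positivity
          have h4 := mul_nonneg hN0 i1
          linarith
        · have hw : w ∈ J := ⟨not_le.1 h1, not_le.1 h2⟩
          have := mul_le_mul_of_nonneg_right (hin w hw) hx
          have h3 := mul_nonneg hN0 i1
          have h4 := mul_nonneg hN0 i2
          linarith
    have k1 : Integrable (fun w => (Iic (-((k + δ) * L / (2 * Real.pi)))).indicator (fun w => ‖𝓕 F w‖ ^ 2) w) :=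
      hI1.indicator measurableSet_Iic
    have k2 : Integrable (fun w => (Ici (δ * L / (2 * Real.pi))).indicator
        (fun w => Real.exp (4 * Real.pi * w * (R / L)) * ‖𝓕 F w‖ ^ 2) w) := hint3.indicator measurableSet_Ici
    refine (integral_mono hIb (iadd (hI1.const_mul _) (iadd (k1.const_mul N1) (k2.const_mul N1))) hpt).trans ?_
    rw [integral_add (hI1.const_mul _) (iadd (k1.const_mul N1) (k2.const_mul N1)),
      integral_add (k1.const_mul N1) (k2.const_mul N1), integral_const_mul, integral_const_mul,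
      integral_const_mul, integral_indicator measurableSet_Iic, integral_indicator measurableSet_Ici,
      (planch hdec).2]
    have m1 : ∫ w in Iic (-((k + δ) * L / (2 * Real.pi))), ‖𝓕 F w‖ ^ 2 ≤ Cl := hl T hTp.le
    have m2 : ∫ w in Ici (δ * L / (2 * Real.pi)), Real.exp (4 * Real.pi * w * (R / L)) * ‖𝓕 F w‖ ^ 2 ≤ Cr' := by
      have h3 := hr T hTp.le (R / L) hr0 hq
      unfold ms at h3
      refine le_of_eq_of_le ?_ h3
      refine setIntegral_congr_fun measurableSet_Ici fun w _ => ?_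
      exact (Fn_ft k hu1 hTp.le hr0 (by have : (1:ℝ) ≤ u := by exact_mod_cast hu1
                                        linarith) w).symm
    have m3 := mul_le_mul_of_nonneg_left m1 hN0
    have m4 := mul_le_mul_of_nonneg_left m2 hN0
    linarith
  have hfin : ‖∑ j ∈ S, c j * Ph k u T (s j)‖ ≤ (Q + ε / 2) * (∫ t, ‖F t‖ ^ 2) + N1 * (Cl + Cr') := by
    rw [hPh]
    refine (norm_integral_le_integral_norm _).trans ?_
    refine le_of_eq_of_le ?_ hbig
    exact integral_congr_ae (Eventually.of_forall fun w => hnorm w)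
  have h9 : (Q + ε / 2) * (∫ t, ‖F t‖ ^ 2) ≤ (Q + ε / 2) * ((1 + η) * M (zr k 0) T + C1 * (1 + B (zr k 0) T)) :=
    mul_le_mul_of_nonneg_left hI (by positivity)
  have h10 : (Q + ε / 2 + N1) * η * M (zr k 0) T ≤ ε / 2 * M (zr k 0) T := mul_le_mul_of_nonneg_right hη2 hM
  have h11 : 0 ≤ N1 * (Cl + Cr') * B (zr k 0) T := by positivity
  have h12 : ‖∑ j ∈ S, c j * CT k T (s j)‖ ≤ ‖∑ j ∈ S, c j * Ph k u T (s j)‖ +
      N1 * (η * M (zr k 0) T + C1 * (1 + B (zr k 0) T)) := by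
    have := norm_sub_norm_le (∑ j ∈ S, c j * CT k T (s j)) (∑ j ∈ S, c j * Ph k u T (s j))
    linarith
  calc ‖∑ j ∈ S, c j * CT k T (s j)‖ ≤ (Q + ε / 2) * ((1 + η) * M (zr k 0) T + C1 * (1 + B (zr k 0) T)) +
        N1 * (Cl + Cr') + N1 * (η * M (zr k 0) T + C1 * (1 + B (zr k 0) T)) := by linarith
    _ = (Q + ε / 2) * M (zr k 0) T + (Q + ε / 2 + N1) * η * M (zr k 0) T +
        (Q + ε / 2 + N1) * C1 * (1 + B (zr k 0) T) + N1 * (Cl + Cr') := by ring
    _ ≤ (Q + ε) * M (zr k 0) T + ((Q + ε / 2 + N1) * C1 + N1 * (Cl + Cr')) * (1 + B (zr k 0) T) := by linarith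

end

end Pool.Agent.J4.H44.OL
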