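import Pool.Agent.TH535.SM.A10

set_option autoImplicit false

/-! The smoothed indicator off the critical line. -/

namespace Pool.Agent.J4.H44.OL

open Complex MeasureTheory Filter Topology Set Pool.Agent.TH535.SM
open scoped FourierTransform ComplexConjugate

noncomputable section

lemma exp_sub_one_le (w : ℂ) : ‖cexp w - 1‖ ≤ ‖w‖ * Real.exp ‖w‖ := by
  have h := Complex.norm_exp_sub_sum_le_norm_mul_exp w 1
  simpa using h

/-- the wider gaussian mean is a rescaled `v` -/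
lemma wide {T t : ℝ} : ∫ y in (0:ℝ)..T, Real.exp (-(t - y) ^ 2 / 2) =
    √2 * (√Real.pi * v (T / √2) (t / √2)) := by
  have h2 : 0 < √2 := by positivity
  have hp : 0 < √Real.pi := Real.sqrt_pos.2 Real.pi_pos
  unfold v
  rw [mul_inv_cancel_left₀ hp.ne']
  have h := intervalIntegral.mul_integral_comp_mul_left (a := 0) (b := T / √2)
    (f := fun y : ℝ => Real.exp (-(t - y) ^ 2 / 2)) (√2)
  simp only [mul_zero] at h
  rw [mul_div_cancel₀ T h2.ne'] at h
  rw [← h]
  congr 1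
  refine intervalIntegral.integral_congr fun y _ => ?_
  congr 1
  have e : t - √2 * y = √2 * (t / √2 - y) := by field_simp
  rw [e, mul_pow, Real.sq_sqrt (by norm_num)]
  ring

lemma wide_le {T t : ℝ} (hT : 0 ≤ T) : (∫ y in (0:ℝ)..T, Real.exp (-(t - y) ^ 2 / 2)) ^ 2 ≤
    16 * gm T t := by
  have h2 : 0 < √2 := by positivity
  have hp : 0 < √Real.pi := Real.sqrt_pos.2 Real.pi_pos
  have hT' : 0 ≤ T / √2 := by positivity
  have hv0 := v_nonneg hT' (t / √2)
  have hpi : √Real.pi ^ 2 ≤ 4 := by rw [Real.sq_sqrt Real.pi_pos.le]; exact Real.pi_le_four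
  have key : v (T / √2) (t / √2) ^ 2 ≤ 2 * gm T t := by
    have p1 := Real.exp_pos (-t ^ 2 / 4)
    have p2 := Real.exp_pos (-(t - T) ^ 2 / 4)
    have hind : 0 ≤ (Icc (0:ℝ) T).indicator (fun _ => (1:ℝ)) t :=
      indicator_nonneg (fun _ _ => by norm_num) t
    unfold gm
    by_cases ht : t ∈ Icc 0 T
    · rw [indicator_of_mem ht]
      have := pow_le_one₀ (n := 2) hv0 (v_le_one hT' (t / √2))
      linarith
    · rw [indicator_of_notMem ht]
      rw [mem_Icc, not_and_or, not_le, not_le] at ht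
      have q : ∀ d : ℝ, v (T / √2) (t / √2) ≤ √2 * Real.exp (-(d / √2) ^ 2 / 2) →
          v (T / √2) (t / √2) ^ 2 ≤ 2 * Real.exp (-d ^ 2 / 4) := by
        intro d hd
        calc v (T / √2) (t / √2) ^ 2 ≤ (√2 * Real.exp (-(d / √2) ^ 2 / 2)) ^ 2 := by gcongr
          _ = 2 * Real.exp (-d ^ 2 / 2) := by
              rw [mul_pow, Real.sq_sqrt (by norm_num), ← Real.exp_nat_mul]
              congr 2
              rw [div_pow, Real.sq_sqrt (by norm_num)]
              push_cast; ring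
          _ ≤ _ := by
              have : Real.exp (-d ^ 2 / 2) ≤ Real.exp (-d ^ 2 / 4) :=
                Real.exp_le_exp.2 (by nlinarith [sq_nonneg d])
              linarith
      rcases ht with h | h
      · have h1 := v_neg hT' (t := t / √2) (div_nonpos_of_nonpos_of_nonneg h.le h2.le)
        have := q t h1
        linarith
      · have h1 := v_gt hT' (t := t / √2) (div_le_div_of_nonneg_right h.le h2.le)
        have e : t / √2 - T / √2 = (t - T) / √2 := by ring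
        rw [e] at h1
        have := q (t - T) h1
        linarith
  rw [wide]
  calc (√2 * (√Real.pi * v (T / √2) (t / √2))) ^ 2 = 2 * (√Real.pi ^ 2 * v (T / √2) (t / √2) ^ 2) := by
        rw [mul_pow, mul_pow, Real.sq_sqrt (show (0:ℝ) ≤ 2 by norm_num)]
    _ ≤ 2 * (4 * (2 * gm T t)) := by gcongr
    _ = _ := by ring

/-- off the line, `V` is close to `v` -/
lemma V_close {T r t : ℝ} (hT : 0 ≤ T) (hr0 : 0 ≤ r) (hr : r ≤ 1) :
    ‖V T (((1 / 2 + r : ℝ) : ℂ) + t * I) - (v T t : ℂ)‖ ^ 2 ≤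
      (16 * Real.exp 10 ^ 2) * (r ^ 2 * gm T t) := by
  have hp : 0 < √Real.pi := Real.sqrt_pos.2 Real.pi_pos
  have hp1 : (√Real.pi)⁻¹ ≤ 1 := by
    refine inv_le_one_of_one_le₀ (Real.one_le_sqrt.2 ?_)
    linarith [Real.pi_gt_three]
  have hc1 : Continuous (fun x : ℝ => ((T * (√Real.pi)⁻¹ : ℝ) : ℂ) *
      cexp ((((1 / 2 + r : ℝ) : ℂ) + t * I - 1 / 2 - T * x * I) ^ 2)) := by fun_prop
  have hc2 : Continuous (fun x : ℝ => ((T * (√Real.pi)⁻¹ * Real.exp (-(t - T * x) ^ 2) : ℝ) : ℂ)) := by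
    fun_prop
  have e0 : V T (((1 / 2 + r : ℝ) : ℂ) + t * I) - (v T t : ℂ) = ∫ x in (0:ℝ)..1,
      (((T * (√Real.pi)⁻¹ : ℝ) : ℂ) *
      cexp ((((1 / 2 + r : ℝ) : ℂ) + t * I - 1 / 2 - T * x * I) ^ 2) -
        ((T * (√Real.pi)⁻¹ * Real.exp (-(t - T * x) ^ 2) : ℝ) : ℂ)) := by
    rw [intervalIntegral.integral_sub (hc1.intervalIntegrable _ _) (hc2.intervalIntegrable _ _),
      intervalIntegral.integral_ofReal, ← v_eq]
    rfl
  have hb : ‖V T (((1 / 2 + r : ℝ) : ℂ) + t * I) - (v T t : ℂ)‖ ≤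
      r * Real.exp 10 * ∫ y in (0:ℝ)..T, Real.exp (-(t - y) ^ 2 / 2) := by
    have h := intervalIntegral.mul_integral_comp_mul_left (a := 0) (b := 1)
      (f := fun y : ℝ => Real.exp (-(t - y) ^ 2 / 2)) T
    simp only [mul_zero, mul_one] at h
    rw [e0, ← h, ← intervalIntegral.integral_const_mul, ← intervalIntegral.integral_const_mul]
    refine (intervalIntegral.norm_integral_le_integral_norm (by norm_num)).trans ?_
    refine intervalIntegral.integral_mono_on (by norm_num) ((hc1.sub hc2).norm.intervalIntegrable _ _)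
      (by apply Continuous.intervalIntegrable; fun_prop) fun x _ => ?_
    set y : ℝ := t - T * x with hy
    have e1 : (((1 / 2 + r : ℝ) : ℂ) + t * I - 1 / 2 - T * x * I) ^ 2 =
        ((-y ^ 2 : ℝ) : ℂ) + ((r ^ 2 : ℝ) + (2 * r * y : ℝ) * I) := by
      rw [hy]
      push_cast
      have : (((1:ℂ) / 2 + r) + t * I - 1 / 2 - T * x * I) ^ 2 = r ^ 2 + 2 * r * (t - T * x) * I +
        (t - T * x) ^ 2 * I ^ 2 := by ring
      rw [this, I_sq]
      ring
    have e2 : ((T * (√Real.pi)⁻¹ : ℝ) : ℂ) * cexp ((((1 / 2 + r : ℝ) : ℂ) + t * I - 1 / 2 - T * x * I) ^ 2) -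
        ((T * (√Real.pi)⁻¹ * Real.exp (-y ^ 2) : ℝ) : ℂ) =
        ((T * (√Real.pi)⁻¹ * Real.exp (-y ^ 2) : ℝ) : ℂ) *
          (cexp ((r ^ 2 : ℝ) + (2 * r * y : ℝ) * I) - 1) := by
      rw [e1, Complex.exp_add, ← Complex.ofReal_exp]
      push_cast
      ring
    rw [e2, norm_mul, Complex.norm_real, Real.norm_of_nonneg (by positivity)]
    have h3 : ‖(((r ^ 2 : ℝ) : ℂ) + (2 * r * y : ℝ) * I)‖ ≤ r * (1 + 2 * |y|) := by
      refine (norm_add_le _ _).trans ?_
      rw [norm_mul, Complex.norm_I, mul_one, Complex.norm_real, Complex.norm_real,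
        Real.norm_of_nonneg (by positivity), Real.norm_eq_abs, abs_mul, abs_of_nonneg (by positivity)]
      nlinarith [abs_nonneg y]
    have hy0 := abs_nonneg y
    have h4 : ‖cexp (((r ^ 2 : ℝ) : ℂ) + (2 * r * y : ℝ) * I) - 1‖ ≤ r * Real.exp (2 + 4 * |y|) := by
      refine (exp_sub_one_le _).trans ?_
      have h5 : r * (1 + 2 * |y|) ≤ 1 + 2 * |y| := by nlinarith
      calc _ ≤ (r * (1 + 2 * |y|)) * Real.exp (1 + 2 * |y|) := by
            gcongr
            exact h3.trans h5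
        _ ≤ (r * Real.exp (1 + 2 * |y|)) * Real.exp (1 + 2 * |y|) := by
            gcongr
            have := Real.add_one_le_exp (1 + 2 * |y|)
            linarith
        _ = r * Real.exp (2 + 4 * |y|) := by
            rw [mul_assoc, ← Real.exp_add]; congr 2; ring
    have h6 : Real.exp (-y ^ 2) * Real.exp (2 + 4 * |y|) ≤ Real.exp 10 * Real.exp (-y ^ 2 / 2) := by
      rw [← Real.exp_add, ← Real.exp_add]
      refine Real.exp_le_exp.2 ?_
      rw [← sq_abs y]
      nlinarith [sq_nonneg (|y| - 4)]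
    calc T * (√Real.pi)⁻¹ * Real.exp (-y ^ 2) * ‖cexp (((r ^ 2 : ℝ) : ℂ) + (2 * r * y : ℝ) * I) - 1‖ ≤
          T * 1 * Real.exp (-y ^ 2) * (r * Real.exp (2 + 4 * |y|)) := by gcongr
      _ = T * r * (Real.exp (-y ^ 2) * Real.exp (2 + 4 * |y|)) := by ring
      _ ≤ T * r * (Real.exp 10 * Real.exp (-y ^ 2 / 2)) := by gcongr
      _ = r * Real.exp 10 * (T * Real.exp (-y ^ 2 / 2)) := by ring
  have hI0 : 0 ≤ ∫ y in (0:ℝ)..T, Real.exp (-(t - y) ^ 2 / 2) :=
    intervalIntegral.integral_nonneg hT fun y _ => (Real.exp_pos _).le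
  calc _ ≤ (r * Real.exp 10 * ∫ y in (0:ℝ)..T, Real.exp (-(t - y) ^ 2 / 2)) ^ 2 := by gcongr
    _ = r ^ 2 * Real.exp 10 ^ 2 * (∫ y in (0:ℝ)..T, Real.exp (-(t - y) ^ 2 / 2)) ^ 2 := by ring
    _ ≤ r ^ 2 * Real.exp 10 ^ 2 * (16 * gm T t) := by
        have := wide_le (t := t) hT
        gcongr
    _ = _ := by ring

end

end Pool.Agent.J4.H44.OL
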